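import Pool.Agent.H986R2.K4.All

set_option autoImplicit false

/-!
# Abstract functions behaving like `u ↦ XX (i T + u)`
-/

namespace Pool.Agent.Zk17.J

open Complex Filter Topology MeasureTheory Set
open Pool.Agent.H24R2.JP (XX HH Om)
open Pool.Agent.H986R2.K4 (S_LL S_HH S_SAB)

/-- `G` behaves like `u ↦ XX (i T + u)` on the disc of radius `21` and is well controlled for `Re u ≥ 3/4`. -/
structure AG (T ε K : ℝ) (G : ℂ → ℂ) : Prop where
  diff : Differentiable ℂ G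
  up : ∀ u : ℂ, ‖u‖ ≤ 21 → ‖G u‖ ≤ T ^ K * ‖HH (I * T)‖
  ne : ∀ u : ℂ, 3 / 4 ≤ u.re → ‖u‖ ≤ 21 → G u ≠ 0
  ld : ∀ u : ℂ, 3 / 4 ≤ u.re → ‖u‖ ≤ 21 → ‖logDeriv G u - (Om T : ℂ)‖ ≤ ε * Om T
  lo : ∀ u : ℂ, 3 / 4 ≤ u.re → ‖u‖ ≤ 21 → T ^ (-ε) * ‖HH (I * T + u)‖ ≤ ‖G u‖
  hi : ∀ u : ℂ, 3 / 4 ≤ u.re → ‖u‖ ≤ 21 → ‖G u‖ ≤ T ^ ε * ‖HH (I * T + u)‖

theorem AG.mono {T ε ε' K : ℝ} {G : ℂ → ℂ} (h : AG T ε K G) (hT : 2 ≤ T) (he : ε ≤ ε') :
    AG T ε' K G := by
  have hOm : 0 ≤ Om T := by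
    unfold Pool.Agent.H24R2.JP.Om
    have := Real.log_nonneg (show (1 : ℝ) ≤ T by linarith)
    linarith
  refine ⟨h.diff, h.up, h.ne, fun u h1 h2 => (h.ld u h1 h2).trans ?_, fun u h1 h2 => le_trans ?_ (h.lo u h1 h2),
    fun u h1 h2 => (h.hi u h1 h2).trans ?_⟩
  · exact mul_le_mul_of_nonneg_right he hOm
  · apply mul_le_mul_of_nonneg_right _ (norm_nonneg _)
    exact Real.rpow_le_rpow_of_exponent_le (by linarith) (by linarith)
  · apply mul_le_mul_of_nonneg_right _ (norm_nonneg _)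
    exact Real.rpow_le_rpow_of_exponent_le (by linarith) (by linarith)

open Pool.Agent.H986R2.K4.RGAux (le_fact fact_le)

/-- the derivative far to the right -/
theorem rgG (h1 : S_LL) : ∀ r0 r1 ε : ℝ, 0 < r0 → r0 ≤ r1 → r1 ≤ 1 / 2 → 0 < ε →
    ∃ ε' T0 : ℝ, 0 < ε' ∧ 2 ≤ T0 ∧ ∀ (t K : ℝ) (n : ℕ) (G : ℂ → ℂ), T0 ≤ t → AG t ε' K G →
    r0 * Om t ≤ n → (n : ℝ) ≤ r1 * Om t → ∀ u : ℂ, 3 / 2 ≤ u.re → u.re ≤ 10 → |u.im| ≤ 10 →
    t ^ (-ε) * (Om t ^ n * ‖HH (I * t + u)‖) ≤ ‖iteratedDeriv n G u‖ ∧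
    ‖iteratedDeriv n G u‖ ≤ t ^ ε * (Om t ^ n * ‖HH (I * t + u)‖) := by
  intro r0 r1 ε hr0 hr01 hr1 hε
  obtain ⟨η, n0, hη, hn0, hLL⟩ := h1 ε hε
  obtain ⟨ε', hε'⟩ : ∃ ε' : ℝ, ε' = min (ε / 4) η := ⟨_, rfl⟩
  have hε'0 : 0 < ε' := by rw [hε']; exact lt_min (by linarith) hη
  have hε'1 : ε' ≤ ε / 4 := by rw [hε']; exact min_le_left _ _
  have hε'2 : ε' ≤ η := by rw [hε']; exact min_le_right _ _
  have hOm : Tendsto Om atTop atTop := by
    unfold Pool.Agent.H24R2.JP.Om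
    exact Real.tendsto_log_atTop.atTop_div_const (by norm_num)
  have ev2 : ∀ᶠ t : ℝ in atTop, ((n0 : ℝ) + 1) / r0 ≤ Om t :=
    hOm.eventually_ge_atTop _
  have ev3 : ∀ᶠ t : ℝ in atTop, Real.exp 1 * Real.log t ≤ t ^ (ε / 4) := by
    have h := (isLittleO_log_rpow_atTop (show 0 < ε / 4 by linarith)).bound
      (show 0 < (Real.exp 1)⁻¹ by positivity)
    filter_upwards [h, eventually_ge_atTop (1 : ℝ)] with x hx hx1
    rw [Real.norm_eq_abs, Real.norm_eq_abs, abs_of_nonneg (Real.log_nonneg hx1),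
      abs_of_nonneg (Real.rpow_nonneg (by linarith) _)] at hx
    calc Real.exp 1 * Real.log x ≤ Real.exp 1 * ((Real.exp 1)⁻¹ * x ^ (ε / 4)) :=
          mul_le_mul_of_nonneg_left hx (Real.exp_pos _).le
      _ = x ^ (ε / 4) := by
          rw [← mul_assoc, mul_inv_cancel₀ (Real.exp_pos 1).ne', one_mul]
  obtain ⟨T0, hT0⟩ := eventually_atTop.1 (ev2.and ev3)
  refine ⟨ε', max 2 T0, hε'0, le_max_left _ _, ?_⟩
  intro t K n G ht hG hn1 hn2 u hu1 hu2 hu3
  obtain ⟨hOmt, hlogt⟩ := hT0 t ((le_max_right _ _).trans ht)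
  have ht2 : 2 ≤ t := (le_max_left _ _).trans ht
  have ht0 : 0 < t := by linarith
  obtain ⟨Ω, hΩ⟩ : ∃ Ω : ℝ, Ω = Om t := ⟨_, rfl⟩
  rw [← hΩ] at hOmt hn1 hn2 ⊢
  have hΩlog : Real.log t = 2 * Ω := by rw [hΩ]; unfold Pool.Agent.H24R2.JP.Om; ring
  have hΩpos : 0 < Ω := by
    have h4 : 0 < ((n0 : ℝ) + 1) / r0 := by positivity
    linarith
  have hnΩ : (n0 : ℝ) + 1 ≤ r0 * Ω := by
    rw [div_le_iff₀ hr0] at hOmt
    linarith
  have hnr : (n0 : ℝ) + 1 ≤ (n : ℝ) := hnΩ.trans hn1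
  have hnn0 : n0 ≤ n := by
    have : (n0 : ℝ) ≤ n := by linarith
    exact_mod_cast this
  have hn1' : 1 ≤ n := by omega
  have hnpos : (0 : ℝ) < n := by exact_mod_cast hn1'
  obtain ⟨r, hr⟩ : ∃ r : ℝ, r = n / Ω := ⟨_, rfl⟩
  have hrpos : 0 < r := by rw [hr]; positivity
  have hrhalf : r ≤ 1 / 2 := by
    rw [hr, div_le_iff₀ hΩpos]
    nlinarith
  have hrΩ : r * Ω = n := by rw [hr]; field_simp
  obtain ⟨F, hF⟩ : ∃ F : ℂ → ℂ, F = fun z => G (u + (r : ℂ) * z) := ⟨_, rfl⟩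
  have hunorm : ‖u‖ ≤ 20 := by
    have h4 := Complex.norm_le_abs_re_add_abs_im u
    have h5 : |u.re| ≤ 10 := abs_le.2 ⟨by linarith, hu2⟩
    linarith
  -- the hypothesis of `S_LL`
  have hball : ∀ w ∈ Metric.ball (0 : ℂ) (3 / 2), DifferentiableAt ℂ F w ∧ F w ≠ 0 ∧
      ‖logDeriv F w - n‖ ≤ η * n := by
    intro w hw
    rw [mem_ball_zero_iff] at hw
    have hrw : ‖(r : ℂ) * w‖ ≤ 3 / 4 := by
      rw [norm_mul, Complex.norm_real, Real.norm_eq_abs, abs_of_pos hrpos]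
      nlinarith [norm_nonneg w]
    have hre : 3 / 4 ≤ (u + (r : ℂ) * w).re := by
      have := (Complex.abs_re_le_norm ((r : ℂ) * w)).trans hrw
      rw [abs_le] at this
      rw [Complex.add_re]
      linarith
    have hno : ‖u + (r : ℂ) * w‖ ≤ 21 := by
      have := norm_add_le u ((r : ℂ) * w)
      linarith
    have hder : HasDerivAt F (deriv G (u + (r : ℂ) * w) * r) w := by
      have e1 : HasDerivAt (fun z : ℂ => u + (r : ℂ) * z) (r : ℂ) w := by
        have := ((hasDerivAt_id w).const_mul (r : ℂ)).const_add u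
        simpa using this
      rw [hF]
      exact (hG.diff (u + (r : ℂ) * w)).hasDerivAt.comp w e1
    refine ⟨hder.differentiableAt, by rw [hF]; exact hG.ne _ hre hno, ?_⟩
    have e2 : logDeriv F w = r * logDeriv G (u + (r : ℂ) * w) := by
      rw [logDeriv_apply, logDeriv_apply, hder.deriv, hF]
      ring
    have e3 : (n : ℂ) = (r : ℂ) * (Ω : ℂ) := by
      rw [← Complex.ofReal_mul, hrΩ]
      simp
    rw [e2, e3, ← mul_sub, norm_mul, Complex.norm_real, Real.norm_eq_abs, abs_of_pos hrpos]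
    have h5 := hG.ld _ hre hno
    rw [← hΩ] at h5
    calc r * ‖logDeriv G (u + (r : ℂ) * w) - (Ω : ℂ)‖ ≤ r * (ε' * Ω) :=
          mul_le_mul_of_nonneg_left h5 hrpos.le
      _ = ε' * n := by rw [← hrΩ]; ring
      _ ≤ η * n := mul_le_mul_of_nonneg_right hε'2 hnpos.le
  have hmain := hLL n 0 F hnn0 hball
  -- evaluation
  have hF0 : F 0 = G u := by rw [hF]; simp
  have hcd : ContDiff ℂ n (fun z => G (u + z)) := by
    have : Differentiable ℂ (fun z => G (u + z)) := hG.diff.comp (by fun_prop)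
    exact this.contDiff
  have hFn : iteratedDeriv n F 0 = (r : ℂ) ^ n * iteratedDeriv n G u := by
    have e1 := iteratedDeriv_comp_const_mul hcd (r : ℂ)
    have e2 : F = fun x => (fun z => G (u + z)) ((r : ℂ) * x) := hF
    rw [e2, e1]
    simp only [mul_zero]
    rw [iteratedDeriv_comp_const_add]
    simp
  rw [hF0, hFn, norm_mul, norm_pow, Complex.norm_real, Real.norm_eq_abs, abs_of_pos hrpos] at hmain
  have c7 := hG.lo u (by linarith) (by linarith)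
  have c8 := hG.hi u (by linarith) (by linarith)
  have hpw1 : t ^ (-(ε / 4)) * ‖HH (I * t + u)‖ ≤ ‖G u‖ := by
    refine le_trans ?_ c7
    apply mul_le_mul_of_nonneg_right _ (norm_nonneg _)
    exact Real.rpow_le_rpow_of_exponent_le (by linarith) (by linarith)
  have hpw2 : ‖G u‖ ≤ ‖HH (I * t + u)‖ * t ^ (ε / 4) := by
    refine c8.trans ?_
    rw [mul_comm]
    apply mul_le_mul_of_nonneg_left _ (norm_nonneg _)
    exact Real.rpow_le_rpow_of_exponent_le (by linarith) (by linarith)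
  obtain ⟨H, hH⟩ : ∃ H : ℝ, H = ‖HH (I * t + u)‖ := ⟨_, rfl⟩
  rw [← hH] at hpw1 hpw2 ⊢
  have hHpos : 0 ≤ H := by rw [hH]; exact norm_nonneg _
  have hrn : r ^ n = (n : ℝ) ^ n / Ω ^ n := by rw [hr, div_pow]
  have hnn : (0 : ℝ) < (n : ℝ) ^ n := by positivity
  have hΩn : 0 < Ω ^ n := by positivity
  have hnlog : (n : ℝ) ≤ Real.log t / 4 := by
    rw [hΩlog]
    nlinarith
  have hnε : Real.exp (ε * n) ≤ t ^ (ε / 4) := by
    rw [Real.rpow_def_of_pos ht0]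
    apply Real.exp_le_exp.2
    nlinarith
  have hfl := le_fact n
  have hfu := fact_le n hn1'
  have hexp1 : Real.exp ((1 - ε) * n) = Real.exp n / Real.exp (ε * n) := by
    rw [← Real.exp_sub]; congr 1; ring
  have hexp2 : Real.exp ((1 + ε) * n) = Real.exp n * Real.exp (ε * n) := by
    rw [← Real.exp_add]; congr 1; ring
  have htε : 0 < t ^ (ε / 4) := Real.rpow_pos_of_pos ht0 _
  have hfac0 : (0 : ℝ) < n.factorial := by exact_mod_cast Nat.factorial_pos n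
  obtain ⟨Dn, hDn⟩ : ∃ Dn : ℝ, Dn = ‖iteratedDeriv n G u‖ := ⟨_, rfl⟩
  rw [← hDn] at hmain ⊢
  constructor
  · -- lower bound
    have g1 := hmain.1
    rw [hexp1, hrn] at g1
    have g2 : (n : ℝ) ^ n * (t ^ (-(ε / 4)) * (H * t ^ (-(ε / 4)))) ≤
        Real.exp n / Real.exp (ε * n) * (n.factorial * ‖G u‖) := by
      have g3 : t ^ (-(ε / 4)) ≤ 1 / Real.exp (ε * n) := by
        rw [Real.rpow_neg ht0.le, one_div]
        exact inv_anti₀ (Real.exp_pos _) hnε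
      calc (n : ℝ) ^ n * (t ^ (-(ε / 4)) * (H * t ^ (-(ε / 4))))
          = (n : ℝ) ^ n * (t ^ (-(ε / 4)) * (t ^ (-(ε / 4)) * H)) := by ring
        _ ≤ (n.factorial * Real.exp n) * ((1 / Real.exp (ε * n)) * ‖G u‖) := by
            have p1 : 0 ≤ t ^ (-(ε / 4)) := (Real.rpow_pos_of_pos ht0 _).le
            exact mul_le_mul hfl (mul_le_mul g3 hpw1 (by positivity) (by positivity))
              (by positivity) (by positivity)
        _ = _ := by ring
    have g4 : (n : ℝ) ^ n * (t ^ (-(ε / 4)) * (H * t ^ (-(ε / 4)))) ≤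
        (n : ℝ) ^ n / Ω ^ n * Dn := g2.trans g1
    have g5 : t ^ (-(ε / 4)) * (H * t ^ (-(ε / 4))) * Ω ^ n ≤ Dn := by
      have e1 : (n : ℝ) ^ n / Ω ^ n * Dn = (n : ℝ) ^ n * (Dn / Ω ^ n) := by ring
      rw [e1] at g4
      have g6 := le_of_mul_le_mul_left g4 hnn
      rw [le_div_iff₀ hΩn] at g6
      exact g6
    refine le_trans ?_ g5
    have e2 : t ^ (-(ε / 4)) * (H * t ^ (-(ε / 4))) * Ω ^ n =
        (t ^ (-(ε / 4)) * t ^ (-(ε / 4))) * (Ω ^ n * H) := by ring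
    rw [e2]
    apply mul_le_mul_of_nonneg_right _ (by positivity)
    rw [← Real.rpow_add ht0]
    exact Real.rpow_le_rpow_of_exponent_le (by linarith) (by linarith)
  · -- upper bound
    have g1 := hmain.2
    rw [hexp2, hrn] at g1
    have g2 : Real.exp n * Real.exp (ε * n) * (n.factorial * ‖G u‖) ≤
        (n : ℝ) ^ n * (t ^ (ε / 4) * t ^ (ε / 4) * (H * t ^ (ε / 4))) := by
      have g3 : Real.exp 1 * n ≤ t ^ (ε / 4) := by
        refine le_trans ?_ hlogt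
        have : (0 : ℝ) ≤ Real.log t := Real.log_nonneg (by linarith)
        exact mul_le_mul_of_nonneg_left (by linarith) (Real.exp_pos _).le
      have g4 : (n.factorial : ℝ) * Real.exp n ≤ t ^ (ε / 4) * (n : ℝ) ^ n :=
        hfu.trans (mul_le_mul_of_nonneg_right g3 hnn.le)
      calc Real.exp n * Real.exp (ε * n) * (n.factorial * ‖G u‖)
          = (n.factorial * Real.exp n) * (Real.exp (ε * n) * ‖G u‖) := by ring
        _ ≤ (t ^ (ε / 4) * (n : ℝ) ^ n) * (t ^ (ε / 4) * (H * t ^ (ε / 4))) :=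
            mul_le_mul g4 (mul_le_mul hnε hpw2 (norm_nonneg _) (by positivity))
              (by positivity) (by positivity)
        _ = _ := by ring
    have g4 : (n : ℝ) ^ n / Ω ^ n * Dn ≤
        (n : ℝ) ^ n * (t ^ (ε / 4) * t ^ (ε / 4) * (H * t ^ (ε / 4))) := g1.trans g2
    have g5 : Dn ≤ t ^ (ε / 4) * t ^ (ε / 4) * (H * t ^ (ε / 4)) * Ω ^ n := by
      have e1 : (n : ℝ) ^ n / Ω ^ n * Dn = (n : ℝ) ^ n * (Dn / Ω ^ n) := by ring
      rw [e1] at g4
      have g6 := le_of_mul_le_mul_left g4 hnn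
      rw [div_le_iff₀ hΩn] at g6
      exact g6
    refine g5.trans ?_
    have e2 : t ^ (ε / 4) * t ^ (ε / 4) * (H * t ^ (ε / 4)) * Ω ^ n =
        (t ^ (ε / 4) * t ^ (ε / 4) * t ^ (ε / 4)) * (Ω ^ n * H) := by ring
    rw [e2]
    apply mul_le_mul_of_nonneg_right _ (by positivity)
    rw [← Real.rpow_add ht0, ← Real.rpow_add ht0]
    exact Real.rpow_le_rpow_of_exponent_le (by linarith) (by linarith)

/-- upper bound for the derivative -/
theorem ubG (r0 r1 : ℝ) (hr0 : 0 < r0) (hr1 : r1 ≤ 1) (t ε K : ℝ) (n : ℕ) (G : ℂ → ℂ) (ht : 2 ≤ t)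
    (hG : AG t ε K G) (hn1 : r0 * Om t ≤ n) (hn2 : (n : ℝ) ≤ r1 * Om t) (u : ℂ) (hu1 : |u.re| ≤ 10)
    (hu2 : |u.im| ≤ 10) : ‖iteratedDeriv n G u‖ ≤ t ^ K * (Om t ^ n * ‖HH (I * t)‖) := by
  have htpos : 0 < t := by linarith
  have hlog : 0 < Real.log t := Real.log_pos (by linarith)
  have hOm : 0 < Om t := by unfold Pool.Agent.H24R2.JP.Om; linarith
  have hn : 0 < (n : ℝ) := lt_of_lt_of_le (mul_pos hr0 hOm) hn1
  obtain ⟨r, hr⟩ : ∃ r : ℝ, r = n / Om t := ⟨_, rfl⟩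
  have hrpos : 0 < r := by rw [hr]; exact div_pos hn hOm
  have hr1' : r ≤ 1 := by
    rw [hr, div_le_one hOm]
    nlinarith
  have hu : ‖u‖ ≤ 20 := by
    have := Complex.norm_le_abs_re_add_abs_im u
    linarith
  have hC : ∀ z ∈ Metric.sphere u r, ‖G z‖ ≤ t ^ K * ‖HH (I * t)‖ := by
    intro z hz
    have h1 : ‖z - u‖ = r := by
      rw [← dist_eq_norm]; exact hz
    apply hG.up
    have h2 := norm_add_le u (z - u)
    rw [add_sub_cancel] at h2
    linarith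
  have h1 := Complex.norm_iteratedDeriv_le_of_forall_mem_sphere_norm_le n hrpos
    hG.diff.diffContOnCl hC
  refine le_trans h1 ?_
  have h4 : (n.factorial : ℝ) ≤ (n : ℝ) ^ n := by exact_mod_cast n.factorial_le_pow
  rw [hr, div_pow, div_div_eq_mul_div, div_le_iff₀ (by positivity)]
  have hH : 0 ≤ ‖HH (I * t)‖ := norm_nonneg _
  have hp : 0 < Om t ^ n := by positivity
  have ht5 : 0 ≤ t ^ K := Real.rpow_nonneg htpos.le _
  calc (n.factorial : ℝ) * (t ^ K * ‖HH (I * t)‖) * Om t ^ n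
      ≤ (n : ℝ) ^ n * (t ^ K * ‖HH (I * t)‖) * Om t ^ n := by gcongr
    _ = t ^ K * (Om t ^ n * ‖HH (I * t)‖) * (n : ℝ) ^ n := by ring

open Pool.Agent.H986R2.K4.GRAux (norm_le)

/-- If all zeros of the `n`-th derivative are on the line, the logarithmic derivative is `Om t (1 + o(1))`. -/
theorem grG (h1 : S_SAB) (h2 : S_LL) (h4 : S_HH) :
    ∀ r0 r1 η0 η KU : ℝ, 0 < r0 → r0 ≤ r1 → r1 ≤ 1 / 2 → 0 < η0 → η0 ≤ 1 / 4 → 0 < η → 1 ≤ KU →
    ∃ ε' T0 : ℝ, 0 < ε' ∧ 2 ≤ T0 ∧ ∀ (t : ℝ) (n : ℕ) (G : ℂ → ℂ), T0 ≤ t → AG t ε' KU G →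
    r0 * Om t ≤ n → (n : ℝ) ≤ r1 * Om t →
    (∀ s : ℂ, iteratedDeriv n G s = 0 → s.re = 0) →
    ∀ u : ℂ, η0 ≤ u.re → u.re ≤ 1 → |u.im| ≤ 1 →
      iteratedDeriv n G u ≠ 0 ∧
      ‖logDeriv (iteratedDeriv n G) u - (Om t : ℂ)‖ ≤ η * Om t ∧
      t ^ (-η) * (Om t ^ n * ‖HH (I * t + u)‖) ≤ ‖iteratedDeriv n G u‖ := by
  intro r0 r1 η0 η KU hr0 hr01 hr1 hη0 hη0' hη hKU
  obtain ⟨K, hK, hHH⟩ := h4
  obtain ⟨TH, hTH, hHH⟩ := hHH 15 (by norm_num)
  obtain ⟨ε, hε, hS⟩ := h1 η0 (η / 4) (KU + 15 * K) hη0 hη0' (by positivity) (by positivity)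
  obtain ⟨ε', TR, hε', hTR, hRG⟩ := rgG h2 r0 r1 ε hr0 hr01 hr1 hε
  refine ⟨ε', max TH (max TR (Real.exp (max 1 (4 * K / η)))), hε', le_trans hTH (le_max_left _ _), ?_⟩
  intro t n G ht hG hn0 hn1 hz
  have htH : TH ≤ t := le_trans (le_max_left _ _) ht
  have htR : TR ≤ t := le_trans (le_trans (le_max_left _ _) (le_max_right _ _)) ht
  have htE : Real.exp (max 1 (4 * K / η)) ≤ t :=
    le_trans (le_trans (le_max_right _ _) (le_max_right _ _)) ht
  have ht2 : 2 ≤ t := hTH.trans htH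
  have ht0 : 0 < t := lt_of_lt_of_le (Real.exp_pos _) htE
  have hlog : max 1 (4 * K / η) ≤ Real.log t := (Real.le_log_iff_exp_le ht0).mpr htE
  have hL1 : 1 ≤ Real.log t := le_trans (le_max_left _ _) hlog
  have hLK : 4 * K / η ≤ Real.log t := le_trans (le_max_right _ _) hlog
  have hOm : Om t = Real.log t / 2 := rfl
  have hOm0 : 0 < Om t := by rw [hOm]; linarith
  have hKO : K ≤ η / 2 * Om t := by
    rw [div_le_iff₀ hη] at hLK
    rw [hOm]; nlinarith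
  have hc : ((Om t : ℂ) ^ n) ≠ 0 := by
    apply pow_ne_zero
    exact_mod_cast hOm0.ne'
  have hcn : ‖((Om t : ℂ) ^ n)‖ = Om t ^ n := by
    rw [norm_pow, Complex.norm_real, Real.norm_of_nonneg hOm0.le]
  have hcpos : 0 < Om t ^ n := pow_pos hOm0 n
  obtain ⟨F, hF⟩ : ∃ F : ℂ → ℂ, F = iteratedDeriv n G := ⟨_, rfl⟩
  rw [← hF] at hz ⊢
  obtain ⟨g, hg⟩ : ∃ g : ℂ → ℂ, g = fun v => F v / ((Om t : ℂ) ^ n * HH (I * t + v)) := ⟨_, rfl⟩
  have hFd : Differentiable ℂ F := by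
    rw [hF]
    exact hG.diff.contDiff.differentiable_iteratedDeriv' n
  -- non-vanishing
  have hF0 : ∀ u : ℂ, 0 < u.re → F u ≠ 0 := by
    intro u hu h0
    have := hz u h0
    linarith
  have hH0 : ∀ u : ℂ, |u.re| ≤ 10 → |u.im| ≤ 10 → DifferentiableAt ℂ HH (I * t + u) ∧
      HH (I * t + u) ≠ 0 ∧ ‖logDeriv HH (I * t + u) - (Om t : ℂ)‖ ≤ K ∧
      Real.exp (Om t * u.re - K * 15) * ‖HH (I * t)‖ ≤ ‖HH (I * t + u)‖ := by
    intro u hu hu2
    obtain ⟨a, b, c, d, _⟩ := hHH t u htH (norm_le hu hu2)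
    exact ⟨a, b, c, d⟩
  have hgn : ∀ u : ℂ, ‖g u‖ = ‖F u‖ / (Om t ^ n * ‖HH (I * t + u)‖) := by
    intro u
    rw [hg]; simp only
    rw [norm_div, norm_mul, hcn]
  have key := hS (Real.log t) g hL1 ?_ ?_
  · intro u hu1 hu2 hu3
    have hur : |u.re| ≤ 10 := by rw [abs_of_nonneg (by linarith)]; linarith
    have hui : |u.im| ≤ 10 := by linarith
    obtain ⟨a1, a2, a3, a4⟩ := hH0 u hur hui
    have hFu := hF0 u (by linarith)
    obtain ⟨k1, k2, k3⟩ := key u hu1 (by linarith) (by linarith)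
    refine ⟨hFu, ?_, ?_⟩
    · have e1 : logDeriv g u = logDeriv F u - logDeriv HH (I * t + u) := by
        have hd : HasDerivAt (fun v : ℂ => I * t + v) 1 u := (hasDerivAt_id u).const_add _
        have hH' : HasDerivAt (fun v => HH (I * t + v)) (deriv HH (I * t + u)) u := by
          have := HasDerivAt.comp u a1.hasDerivAt hd
          rw [mul_one] at this
          exact this
        have hq : HasDerivAt (fun v => F v / ((Om t : ℂ) ^ n * HH (I * t + v)))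
            ((deriv F u * ((Om t : ℂ) ^ n * HH (I * t + u)) - F u * ((Om t : ℂ) ^ n *
              deriv HH (I * t + u))) / ((Om t : ℂ) ^ n * HH (I * t + u)) ^ 2) u :=
          (hFd u).hasDerivAt.div (hH'.const_mul _) (mul_ne_zero hc a2)
        rw [logDeriv_apply, hg, hq.deriv, logDeriv_apply, logDeriv_apply]
        field_simp
      have e2 : logDeriv F u - (Om t : ℂ) =
          logDeriv g u + (logDeriv HH (I * t + u) - (Om t : ℂ)) := by
        rw [e1]; ring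
      rw [e2]
      calc _ ≤ ‖logDeriv g u‖ + ‖logDeriv HH (I * t + u) - (Om t : ℂ)‖ := norm_add_le _ _
        _ ≤ η / 4 * Real.log t + K := add_le_add k1 a3
        _ ≤ η * Om t := by rw [hOm] at hKO ⊢; linarith
    · rw [hgn, le_div_iff₀ (by positivity)] at k2
      refine le_trans ?_ k2
      apply mul_le_mul_of_nonneg_right _ (by positivity)
      rw [Real.rpow_def_of_pos ht0]
      apply Real.exp_le_exp.mpr
      nlinarith
  · intro u hu1 hu2 hu3
    have hur : |u.re| ≤ 10 := by rw [abs_of_nonneg (by linarith)]; linarith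
    obtain ⟨a1, a2, a3, a4⟩ := hH0 u hur hu3
    have hFu := hF0 u hu1
    refine ⟨?_, ?_, ?_⟩
    · have hd : DifferentiableAt ℂ (fun v : ℂ => I * t + v) u := differentiableAt_id.const_add _
      have b2 : DifferentiableAt ℂ (fun v : ℂ => HH (I * t + v)) u :=
        DifferentiableAt.comp u a1 hd
      rw [hg]
      exact (hFd u).div (b2.const_mul _) (mul_ne_zero hc a2)
    · rw [hg]; exact div_ne_zero hFu (mul_ne_zero hc a2)
    · rw [hgn, div_le_iff₀ (by positivity)]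
      have b1 := ubG r0 r1 hr0 (by linarith) t ε' KU n G ht2 hG hn0 hn1 u hur hu3
      rw [← hF] at b1
      refine le_trans b1 ?_
      have b2 : Real.exp (-(K * 15)) * ‖HH (I * t)‖ ≤ ‖HH (I * t + u)‖ := by
        refine le_trans ?_ a4
        apply mul_le_mul_of_nonneg_right _ (norm_nonneg _)
        apply Real.exp_le_exp.mpr
        nlinarith
      have b3 : ‖HH (I * t)‖ ≤ Real.exp (K * 15) * ‖HH (I * t + u)‖ := by
        have := mul_le_mul_of_nonneg_left b2 (Real.exp_pos (K * 15)).le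
        rwa [← mul_assoc, ← Real.exp_add, add_neg_cancel, Real.exp_zero, one_mul] at this
      have b4 : t ^ KU = Real.exp (KU * Real.log t) := by
        rw [Real.rpow_def_of_pos ht0, mul_comm]
      have b5 : Real.exp (K * 15) ≤ Real.exp (15 * K * Real.log t) := by
        apply Real.exp_le_exp.mpr
        nlinarith
      calc t ^ KU * (Om t ^ n * ‖HH (I * t)‖)
          ≤ t ^ KU * (Om t ^ n * (Real.exp (K * 15) * ‖HH (I * t + u)‖)) := by gcongr
        _ ≤ t ^ KU * (Om t ^ n * (Real.exp (15 * K * Real.log t) * ‖HH (I * t + u)‖)) := by gcongr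
        _ = Real.exp ((KU + 15 * K) * Real.log t) * (Om t ^ n * ‖HH (I * t + u)‖) := by
          rw [b4, add_mul, Real.exp_add]; ring
  · intro u hu1 hu2 hu3
    have hur : |u.re| ≤ 10 := by rw [abs_of_nonneg (by linarith)]; linarith
    obtain ⟨a1, a2, a3, a4⟩ := hH0 u hur hu3
    obtain ⟨c1, c2⟩ := hRG t KU n G htR hG hn0 hn1 u hu1 hu2 hu3
    rw [← hF] at c1 c2
    rw [hgn, le_div_iff₀ (by positivity), div_le_iff₀ (by positivity)]
    rw [Real.rpow_def_of_pos ht0] at c1 c2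
    have d1 : -(ε * Real.log t) = Real.log t * -ε := by ring
    have d2 : ε * Real.log t = Real.log t * ε := by ring
    rw [d1, d2]
    exact ⟨c1, c2⟩

end Pool.Agent.Zk17.J
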