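import Pool.Agent.Zk17.J.GB
import Pool.Agent.H986R2.K4.HHb
import Pool.Agent.H986R2.K4.A1
import Pool.Agent.H986R2.K4.PL
import Pool.Agent.H986R2.K4.Norm

set_option autoImplicit false

/-!
# Approximation of the Jensen polynomial by `FF`
-/

namespace Pool.Agent.Zk17.J

open Complex Filter Topology
open Pool.Agent.H24R2.JP (XX FF HH Om b1 growT)
open Pool.Agent.H986R2.K4 (ZB hh a1 S_HH S_A1 S_PL pl)
open Pool.Agent.H986R2.K4.NormAux (logDeriv_XX)

/-- The approximation lemma. -/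
lemma approx (b K0 : ℝ) (hb : 0 < b) (hb1 : b ≤ 1) (hK0 : 0 ≤ K0) : ∃ T0 : ℝ, 2000 ≤ T0 ∧
    ∀ (T : ℝ) (D : ℕ) (u A : ℂ) (S : ℝ), T0 ≤ T → T ^ (2 + 2 * b) ≤ D → (D : ℝ) ≤ T ^ (5 : ℝ) →
    ‖u‖ ≤ 25 → 0 ≤ S → ‖A‖ ≤ T ^ K0 * ‖HH (I * T)‖ →
    (∀ η : ℝ, |η| ≤ T ^ (-1 - b / 2) → ‖FF (zv T u * cexp (I * η)) - A‖ ≤ S) →
    ‖PD D (zv T u) - A‖ ≤ 2 * S + T ^ (-2 : ℝ) * ‖HH (I * T)‖ := by
  obtain ⟨T1, hT1, hf⟩ := far b K0 hb hb1 hK0
  have l1 : ∀ᶠ T : ℝ in atTop, 4 * T ^ (9 / 2 : ℝ) ≤ Real.exp (T ^ (b / 2)) := by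
    have h1 : Tendsto (fun T : ℝ => T ^ (b / 2)) atTop atTop := tendsto_rpow_atTop (by positivity)
    have h2 := ((isLittleO_rpow_exp_atTop (9 / b + 1)).bound (show (0 : ℝ) < 1 by norm_num))
    have h3 := h1.eventually h2
    have h4 : ∀ᶠ T : ℝ in atTop, (4 : ℝ) ≤ T ^ (b / 2) := h1.eventually_ge_atTop _
    filter_upwards [h3, h4, eventually_ge_atTop (1 : ℝ)] with T h5 h6 h7
    have hTp : 0 < T := by linarith
    rw [Real.norm_eq_abs, Real.norm_eq_abs, abs_of_nonneg (Real.rpow_nonneg (by positivity) _),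
      abs_of_pos (Real.exp_pos _), one_mul] at h5
    refine le_trans ?_ h5
    rw [← Real.rpow_mul hTp.le]
    have e : b / 2 * (9 / b + 1) = 9 / 2 + b / 2 := by field_simp
    rw [e, Real.rpow_add hTp, mul_comm]
    exact mul_le_mul_of_nonneg_left h6 (Real.rpow_nonneg hTp.le _)
  obtain ⟨T2, hT2⟩ := eventually_atTop.1 l1
  refine ⟨max T1 T2, hT1.trans (le_max_left _ _), ?_⟩
  intro T D u A S hT hD hD5 hu hS hA hnear
  have hT1' : T1 ≤ T := (le_max_left _ _).trans hT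
  have hexp := hT2 T ((le_max_right _ _).trans hT)
  have hTp : 0 < T := by linarith
  have hD1 : 1 ≤ D := by
    have h1 : (1 : ℝ) ≤ T ^ (2 + 2 * b) := Real.one_le_rpow (by linarith) (by linarith)
    exact_mod_cast h1.trans hD
  have hE : 0 ≤ Real.exp (-T ^ (b / 2)) * ‖HH (I * T)‖ := by positivity
  have h1 := PD_approx hD1 (zv T u) A (η0 := T ^ (-1 - b / 2)) hS hE hnear (by
    intro η h1 h2
    refine le_trans ?_ (hf T D u η hT1' hD hu h1 h2)
    apply mul_le_mul_of_nonneg_left _ (Real.exp_pos _).le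
    refine (norm_sub_le _ _).trans ?_
    linarith)
  refine h1.trans ?_
  have h2 : √(D : ℝ) ≤ T ^ (5 / 2 : ℝ) := by
    rw [Real.sqrt_le_left (Real.rpow_nonneg hTp.le _), ← Real.rpow_natCast, ← Real.rpow_mul hTp.le]
    refine hD5.trans (le_of_eq ?_)
    norm_num
  have h3 : 4 * √(D : ℝ) * Real.exp (-T ^ (b / 2)) ≤ T ^ (-2 : ℝ) := by
    calc 4 * √(D : ℝ) * Real.exp (-T ^ (b / 2)) ≤ 4 * T ^ (5 / 2 : ℝ) * Real.exp (-T ^ (b / 2)) := by
          gcongr
      _ = (4 * T ^ (9 / 2 : ℝ)) * T ^ (-2 : ℝ) * Real.exp (-T ^ (b / 2)) := by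
          have : T ^ (5 / 2 : ℝ) = T ^ (9 / 2 : ℝ) * T ^ (-2 : ℝ) := by
            rw [← Real.rpow_add hTp]; norm_num
          rw [this]; ring
      _ ≤ Real.exp (T ^ (b / 2)) * T ^ (-2 : ℝ) * Real.exp (-T ^ (b / 2)) := by
          gcongr
      _ = T ^ (-2 : ℝ) := by
          have : Real.exp (T ^ (b / 2)) * T ^ (-2 : ℝ) * Real.exp (-T ^ (b / 2)) =
            T ^ (-2 : ℝ) * (Real.exp (T ^ (b / 2)) * Real.exp (-T ^ (b / 2))) := by ring
          rw [this, ← Real.exp_add, add_neg_cancel, Real.exp_zero, mul_one]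
  have h4 := mul_le_mul_of_nonneg_right h3 (norm_nonneg (HH (I * T)))
  linarith

/-- local control to the right of the line `Re s = 1` -/
lemma loc (ε : ℝ) (hε : 0 < ε) (hε1 : ε ≤ 1) : ∃ T0 : ℝ, 2000 ≤ T0 ∧ ∀ (T : ℝ) (v : ℂ), T0 ≤ T →
    ‖v‖ ≤ 28 → 11 / 20 ≤ v.re → 0 < (I * T + v).im ∧ XX (I * T + v) ≠ 0 ∧
    ‖logDeriv XX (I * T + v) - (Om T : ℂ)‖ ≤ ε * Om T ∧
    T ^ (-ε) ≤ ‖riemannZeta (1 / 2 + (I * T + v))‖ ∧ ‖riemannZeta (1 / 2 + (I * T + v))‖ ≤ T ^ ε := by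
  obtain ⟨K, hK, hHH⟩ := hh
  obtain ⟨T1, hT1, hHR⟩ := hHH 28 (by norm_num)
  obtain ⟨t1, ht1, hz⟩ := a1 (ε / 20) (by positivity)
  refine ⟨max (max 2000 T1) (max (t1 + 30) (Real.exp (4 * K / ε))),
    (le_max_left _ _).trans (le_max_left _ _), ?_⟩
  intro T v hT hv hvr
  have hT1' : 2000 ≤ T := ((le_max_left _ _).trans (le_max_left _ _)).trans hT
  have hT2' : T1 ≤ T := ((le_max_right _ _).trans (le_max_left _ _)).trans hT
  have hT3' : t1 + 30 ≤ T := ((le_max_left _ _).trans (le_max_right _ _)).trans hT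
  have hT4' : Real.exp (4 * K / ε) ≤ T := ((le_max_right _ _).trans (le_max_right _ _)).trans hT
  have hTp : 0 < T := by linarith
  have hlog : 4 * K / ε ≤ Real.log T := (Real.le_log_iff_exp_le hTp).2 hT4'
  have hlog0 : 0 < Real.log T := Real.log_pos (by linarith)
  have hOm : Om T = Real.log T / 2 := rfl
  have e1 : (1 / 2 + (I * T + v) : ℂ).re = 1 / 2 + v.re := by simp
  have e2 : (1 / 2 + (I * T + v) : ℂ).im = T + v.im := by simp
  have e3 : (I * T + v : ℂ).im = T + v.im := by simp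
  have h3 := (Complex.abs_im_le_norm v).trans hv
  rw [abs_le] at h3
  obtain ⟨a1, a2, a3, a4⟩ := hz (1 / 2 + (I * T + v)) (by rw [e1]; linarith) (by rw [e2]; linarith)
  rw [e2] at a2 a3 a4
  have h4 : 0 < T + v.im := by linarith
  have h5 : T + v.im ≤ T ^ 2 := by nlinarith
  have him : 0 < (I * T + v : ℂ).im := by rw [e3]; linarith
  obtain ⟨g1, g2, g3, -, -⟩ := hHR T v hT2' hv
  have hl2 : Real.log (T + v.im) ≤ 2 * Real.log T := by
    have := Real.log_le_log h4 h5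
    rwa [Real.log_pow] at this
  have hp : (T + v.im) ^ (ε / 20) ≤ T ^ ε := by
    calc (T + v.im) ^ (ε / 20) ≤ (T ^ 2) ^ (ε / 20) := Real.rpow_le_rpow h4.le h5 (by positivity)
      _ = T ^ (2 * (ε / 20)) := by
          rw [← Real.rpow_natCast, ← Real.rpow_mul hTp.le]
          norm_num
      _ ≤ T ^ ε := Real.rpow_le_rpow_of_exponent_le (by linarith) (by linarith)
  refine ⟨him, ?_, ?_, ?_, a4.trans hp⟩
  · rw [Pool.Agent.H24R2.JP.ZetaTask.part1 _ him]
    exact mul_ne_zero g2 a1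
  · rw [logDeriv_XX him g1 g2 a1]
    have e4 : logDeriv HH (I * T + v) + logDeriv riemannZeta (1 / 2 + (I * T + v)) - (Om T : ℂ) =
      (logDeriv HH (I * T + v) - (Om T : ℂ)) + logDeriv riemannZeta (1 / 2 + (I * T + v)) := by ring
    rw [e4]
    refine (norm_add_le _ _).trans ?_
    have h6 : K ≤ ε * Real.log T / 4 := by
      rw [div_le_iff₀ hε] at hlog
      linarith
    have h7 : ε / 20 * Real.log (T + v.im) ≤ ε / 20 * (2 * Real.log T) :=
      mul_le_mul_of_nonneg_left hl2 (by positivity)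
    have h8 : ε * Om T = ε * Real.log T / 2 := by rw [hOm]; ring
    rw [h8]
    have : 0 < ε * Real.log T := by positivity
    linarith
  · refine le_trans ?_ a3
    rw [Real.rpow_neg hTp.le, Real.rpow_neg h4.le]
    exact inv_anti₀ (Real.rpow_pos_of_pos h4 _) hp

/-- control of `FF ∘ zv` to the right -/
lemma right1 (b ε : ℝ) (hb : 0 < b) (hε : 0 < ε) (hε1 : ε ≤ 1) :
    ∃ T0 : ℝ, 2000 ≤ T0 ∧ ∀ (T : ℝ) (u : ℂ), T0 ≤ T → ‖u‖ ≤ 25 → 5 / 8 ≤ u.re →
    FF (zv T u) ≠ 0 ∧ ‖logDeriv (fun v => FF (zv T v)) u - (Om T : ℂ)‖ ≤ ε * Om T ∧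
    T ^ (-ε) * ‖HH (I * T + u)‖ ≤ ‖FF (zv T u)‖ ∧ ‖FF (zv T u)‖ ≤ T ^ ε * ‖HH (I * T + u)‖ ∧
    ∀ η : ℝ, |η| ≤ T ^ (-1 - b / 2) → ‖FF (zv T u * cexp (I * η)) - FF (zv T u)‖ ≤
      T ^ (-(b / 4)) * ‖FF (zv T u)‖ := by
  obtain ⟨T1, hT1, hl⟩ := loc (ε / 4) (by positivity) (by linarith)
  obtain ⟨K, hK, hHH⟩ := hh
  obtain ⟨T2, hT2, hHR⟩ := hHH 28 (by norm_num)
  have ev1 : ∀ᶠ T : ℝ in atTop, 2 * Real.log T ≤ T ^ (b / 4) := by
    have h := (isLittleO_log_rpow_atTop (show 0 < b / 4 by positivity)).bound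
      (show (0 : ℝ) < 1 / 2 by norm_num)
    filter_upwards [h, eventually_ge_atTop (1 : ℝ)] with x hx hx1
    rw [Real.norm_eq_abs, Real.norm_eq_abs, abs_of_nonneg (Real.log_nonneg hx1),
      abs_of_nonneg (Real.rpow_nonneg (by linarith) _)] at hx
    linarith
  have ev2 : ∀ᶠ T : ℝ in atTop, Real.exp (56 * K + 1250) ≤ T ^ (ε / 2) :=
    (tendsto_rpow_atTop (by positivity)).eventually_ge_atTop _
  have ev3 : ∀ᶠ T : ℝ in atTop, (40 : ℝ) ≤ T ^ (b / 2) :=
    (tendsto_rpow_atTop (by positivity)).eventually_ge_atTop _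
  obtain ⟨T3, hT3⟩ := eventually_atTop.1 (ev1.and (ev2.and ev3))
  refine ⟨max (max T1 T2) (max T3 (max 25000 (200 / ε))),
    hT1.trans ((le_max_left _ _).trans (le_max_left _ _)), ?_⟩
  intro T u hT hu hur
  have hTT1 : T1 ≤ T := ((le_max_left _ _).trans (le_max_left _ _)).trans hT
  have hTT2 : T2 ≤ T := ((le_max_right _ _).trans (le_max_left _ _)).trans hT
  obtain ⟨hv1, hv2, hv3⟩ := hT3 T (((le_max_left _ _).trans (le_max_right _ _)).trans hT)
  have hTT4 : 25000 ≤ T :=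
    ((le_max_left _ _).trans ((le_max_right _ _).trans (le_max_right _ _))).trans hT
  have hTT5 : 200 / ε ≤ T :=
    ((le_max_right _ _).trans ((le_max_right _ _).trans (le_max_right _ _))).trans hT
  have hT2000 : 2000 ≤ T := by linarith
  have hTp : 0 < T := by linarith
  have hlog0 : 0 < Real.log T := Real.log_pos (by linarith)
  have hOm : Om T = Real.log T / 2 := rfl
  have hOm0 : 0 < Om T := by rw [hOm]; linarith
  have hOmT : Om T ≤ T := by
    rw [hOm]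
    have := Real.log_le_sub_one_of_pos hTp
    linarith
  -- the unrotated point
  obtain ⟨w, hw⟩ : ∃ w : ℂ, w = wv T u - I * T := ⟨_, rfl⟩
  have hwv : wv T u = I * T + w := by rw [hw]; ring
  have hwu : ‖w - u‖ ≤ 1250 / T := by
    have h1 := norm_wv_sub hTp u
    have e : w - u = wv T u - (I * T + u) := by rw [hw]; ring
    rw [e]
    refine h1.trans ?_
    apply div_le_div_of_nonneg_right _ hTp.le
    nlinarith [norm_nonneg u]
  have h1250 : 1250 / T ≤ 1 / 20 := by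
    rw [div_le_iff₀ hTp]; linarith
  have hwu2 : ‖w - u‖ ≤ 1 / 20 := hwu.trans h1250
  have hwn : ‖w‖ ≤ 26 := by
    have := norm_add_le (w - u) u
    rw [sub_add_cancel] at this
    linarith
  have hwr : |w.re - u.re| ≤ 1250 / T := by
    rw [← Complex.sub_re]
    exact (Complex.abs_re_le_norm _).trans hwu
  have hwr' := abs_le.1 hwr
  obtain ⟨c1, c2, c3, c4, c5⟩ := hl T w hTT1 (by linarith) (by linarith)
  have hFX : FF (zv T u) = XX (I * T + w) := by rw [FF_zv hTp.ne', hwv]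
  have hXn : ‖XX (I * T + w)‖ = ‖HH (I * T + w)‖ * ‖riemannZeta (1 / 2 + (I * T + w))‖ := by
    rw [Pool.Agent.H24R2.JP.ZetaTask.part1 _ c1, norm_mul]
  obtain ⟨-, -, -, d4, d5⟩ := hHR T w hTT2 (by linarith)
  obtain ⟨-, -, -, f4, f5⟩ := hHR T u hTT2 (by linarith)
  have hOT : Om T * (1250 / T) ≤ 1250 := by
    rw [mul_div_assoc', div_le_iff₀ hTp]
    linarith
  have hcmp1 : ‖HH (I * T + w)‖ ≤ Real.exp (56 * K + 1250) * ‖HH (I * T + u)‖ := by
    have h1 : Real.exp (Om T * w.re + K * 28) ≤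
        Real.exp (56 * K + 1250) * Real.exp (Om T * u.re - K * 28) := by
      rw [← Real.exp_add]
      apply Real.exp_le_exp.2
      have : Om T * w.re ≤ Om T * (u.re + 1250 / T) :=
        mul_le_mul_of_nonneg_left (by linarith) hOm0.le
      rw [mul_add] at this
      linarith
    calc ‖HH (I * T + w)‖ ≤ Real.exp (Om T * w.re + K * 28) * ‖HH (I * T)‖ := d5
      _ ≤ (Real.exp (56 * K + 1250) * Real.exp (Om T * u.re - K * 28)) * ‖HH (I * T)‖ :=
          mul_le_mul_of_nonneg_right h1 (norm_nonneg _)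
      _ = Real.exp (56 * K + 1250) * (Real.exp (Om T * u.re - K * 28) * ‖HH (I * T)‖) := by ring
      _ ≤ _ := mul_le_mul_of_nonneg_left f4 (Real.exp_pos _).le
  have hcmp2 : ‖HH (I * T + u)‖ ≤ Real.exp (56 * K + 1250) * ‖HH (I * T + w)‖ := by
    have h1 : Real.exp (Om T * u.re + K * 28) ≤
        Real.exp (56 * K + 1250) * Real.exp (Om T * w.re - K * 28) := by
      rw [← Real.exp_add]
      apply Real.exp_le_exp.2
      have : Om T * u.re ≤ Om T * (w.re + 1250 / T) :=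
        mul_le_mul_of_nonneg_left (by linarith) hOm0.le
      rw [mul_add] at this
      linarith
    calc ‖HH (I * T + u)‖ ≤ Real.exp (Om T * u.re + K * 28) * ‖HH (I * T)‖ := f5
      _ ≤ (Real.exp (56 * K + 1250) * Real.exp (Om T * w.re - K * 28)) * ‖HH (I * T)‖ :=
          mul_le_mul_of_nonneg_right h1 (norm_nonneg _)
      _ = Real.exp (56 * K + 1250) * (Real.exp (Om T * w.re - K * 28) * ‖HH (I * T)‖) := by ring
      _ ≤ _ := mul_le_mul_of_nonneg_left d4 (Real.exp_pos _).le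
  have hpe : T ^ (ε / 2) * T ^ (ε / 4) ≤ T ^ ε := by
    rw [← Real.rpow_add hTp]
    exact Real.rpow_le_rpow_of_exponent_le (by linarith) (by linarith)
  refine ⟨by rw [hFX]; exact c2, ?_, ?_, ?_, ?_⟩
  · -- logarithmic derivative
    rw [logDeriv_FF_zv hTp (by linarith), hwv]
    have hd := norm_div_sub hTp (v := u) (by linarith)
    rw [hwv] at hd
    obtain ⟨q, hq⟩ : ∃ q : ℂ, q = I * T / (I * T + w) := ⟨_, rfl⟩
    rw [← hq] at hd ⊢
    have hd2 : ‖q - 1‖ ≤ ε / 2 := by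
      refine hd.trans ?_
      rw [div_le_iff₀ hTp]
      rw [div_le_iff₀ hε] at hTT5
      linarith
    have hq2 : ‖q‖ ≤ 3 / 2 := by
      have := norm_add_le (q - 1) 1
      rw [sub_add_cancel, norm_one] at this
      linarith
    have e : q * logDeriv XX (I * T + w) - (Om T : ℂ) =
        q * (logDeriv XX (I * T + w) - (Om T : ℂ)) + (q - 1) * (Om T : ℂ) := by ring
    rw [e]
    have h1 : ‖q * (logDeriv XX (I * T + w) - (Om T : ℂ))‖ ≤ 3 / 2 * (ε / 4 * Om T) := by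
      rw [norm_mul]
      exact mul_le_mul hq2 c3 (norm_nonneg _) (by norm_num)
    have h2 : ‖(q - 1) * (Om T : ℂ)‖ ≤ ε / 2 * Om T := by
      rw [norm_mul, Complex.norm_real, Real.norm_eq_abs, abs_of_pos hOm0]
      exact mul_le_mul_of_nonneg_right hd2 hOm0.le
    refine (norm_add_le _ _).trans ?_
    have : 0 < ε * Om T := by positivity
    linarith
  · -- lower bound
    rw [hFX, hXn]
    have h1 : T ^ (-ε) * Real.exp (56 * K + 1250) ≤ T ^ (-(ε / 4)) := by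
      have h2 : T ^ (-ε) * Real.exp (56 * K + 1250) ≤ T ^ (-ε) * T ^ (ε / 2) :=
        mul_le_mul_of_nonneg_left hv2 (Real.rpow_nonneg hTp.le _)
      refine h2.trans ?_
      rw [← Real.rpow_add hTp]
      exact Real.rpow_le_rpow_of_exponent_le (by linarith) (by linarith)
    calc T ^ (-ε) * ‖HH (I * T + u)‖ ≤ T ^ (-ε) * (Real.exp (56 * K + 1250) * ‖HH (I * T + w)‖) :=
          mul_le_mul_of_nonneg_left hcmp2 (Real.rpow_nonneg hTp.le _)
      _ = (T ^ (-ε) * Real.exp (56 * K + 1250)) * ‖HH (I * T + w)‖ := by ring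
      _ ≤ T ^ (-(ε / 4)) * ‖HH (I * T + w)‖ := mul_le_mul_of_nonneg_right h1 (norm_nonneg _)
      _ = ‖HH (I * T + w)‖ * T ^ (-(ε / 4)) := mul_comm _ _
      _ ≤ _ := mul_le_mul_of_nonneg_left c4 (norm_nonneg _)
  · -- upper bound
    rw [hFX, hXn]
    calc ‖HH (I * T + w)‖ * ‖riemannZeta (1 / 2 + (I * T + w))‖
        ≤ (Real.exp (56 * K + 1250) * ‖HH (I * T + u)‖) * T ^ (ε / 4) :=
          mul_le_mul hcmp1 c5 (norm_nonneg _) (by positivity)
      _ ≤ (T ^ (ε / 2) * ‖HH (I * T + u)‖) * T ^ (ε / 4) := by gcongr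
      _ = (T ^ (ε / 2) * T ^ (ε / 4)) * ‖HH (I * T + u)‖ := by ring
      _ ≤ _ := mul_le_mul_of_nonneg_right hpe (norm_nonneg _)
  · -- rotation
    intro η hη
    have hηT : T * |η| ≤ T ^ (-(b / 2)) := by
      have e : T * T ^ (-1 - b / 2) = T ^ (-(b / 2)) := by
        nth_rewrite 1 [← Real.rpow_one T]
        rw [← Real.rpow_add hTp]; congr 1; ring
      rw [← e]
      exact mul_le_mul_of_nonneg_left hη hTp.le
    have hsm : T ^ (-(b / 2)) ≤ 1 / 40 := by
      rw [Real.rpow_neg hTp.le, inv_eq_one_div]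
      exact one_div_le_one_div_of_le (by norm_num) hv3
    obtain ⟨-, r2, -⟩ := rot_pos hT2000 hu η
    obtain ⟨δ, hδ⟩ : ∃ δ : ℂ, δ = wv T u * cexp (I * η / 2) - wv T u := ⟨_, rfl⟩
    have hδn : ‖δ‖ ≤ T ^ (-(b / 2)) := by rw [hδ]; exact r2.trans hηT
    have hδ40 : ‖δ‖ ≤ 1 / 40 := hδn.trans hsm
    have hrotp : wv T u * cexp (I * η / 2) = (I * T + w) + δ := by rw [hδ, hwv]; ring
    rw [rot hTp, hrotp, hFX]
    obtain ⟨κ, hκ⟩ : ∃ κ : ℝ, κ = Real.log T * T ^ (-(b / 2)) := ⟨_, rfl⟩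
    have hTb : 0 < T ^ (-(b / 2)) := Real.rpow_pos_of_pos hTp _
    have hκ0 : 0 < κ := by rw [hκ]; positivity
    have key := SG.GamAux.gron (fun x : ℝ => XX ((I * T + w) + x * δ))
      (fun x : ℝ => deriv XX ((I * T + w) + x * δ) * δ) κ hκ0 ?_ ?_
    · have h1 := key.2
      simp only [ofReal_one, one_mul, ofReal_zero, zero_mul, add_zero] at h1
      refine h1.trans ?_
      apply mul_le_mul_of_nonneg_right _ (norm_nonneg _)
      have hκb : 2 * κ ≤ T ^ (-(b / 4)) := by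
        have e : T ^ (-(b / 2)) = T ^ (-(b / 4)) * T ^ (-(b / 4)) := by
          rw [← Real.rpow_add hTp]; congr 1; ring
        have e2 : T ^ (b / 4) * T ^ (-(b / 4)) = 1 := by
          rw [← Real.rpow_add hTp, add_neg_cancel, Real.rpow_zero]
        rw [hκ, e]
        have hpos : 0 < T ^ (-(b / 4)) := Real.rpow_pos_of_pos hTp _
        calc 2 * (Real.log T * (T ^ (-(b / 4)) * T ^ (-(b / 4)))) =
            (2 * Real.log T) * T ^ (-(b / 4)) * T ^ (-(b / 4)) := by ring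
          _ ≤ T ^ (b / 4) * T ^ (-(b / 4)) * T ^ (-(b / 4)) := by gcongr
          _ = T ^ (-(b / 4)) := by rw [e2, one_mul]
      have h1b : T ^ (-(b / 4)) ≤ 1 := by
        apply Real.rpow_le_one_of_one_le_of_nonpos (by linarith) (by linarith)
      have h2 := Real.abs_exp_sub_one_le (x := κ) (by rw [abs_of_pos hκ0]; linarith)
      rw [abs_of_pos hκ0] at h2
      have h3 := le_abs_self (Real.exp κ - 1)
      linarith
    · intro x hx
      have h0 : HasDerivAt (fun x : ℝ => (x : ℂ)) 1 x := Complex.ofRealCLM.hasDerivAt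
      have hlin : HasDerivAt (fun x : ℝ => (I * T + w) + (x : ℂ) * δ) δ x := by
        simpa using (h0.mul_const δ).const_add (I * T + w)
      exact HasDerivAt.comp x (Pool.Agent.H24R2.JP.B1h.XX_diff _).hasDerivAt hlin
    · intro x hx
      have hxδ : ‖(x : ℂ) * δ‖ ≤ 1 / 40 := by
        rw [norm_mul, Complex.norm_real, Real.norm_eq_abs, abs_of_nonneg hx.1]
        nlinarith [hx.2, norm_nonneg δ, hx.1]
      have e : (I * T + w) + (x : ℂ) * δ = I * T + (w + x * δ) := by ring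
      have hre : 11 / 20 ≤ (w + x * δ).re := by
        have := abs_le.1 ((Complex.abs_re_le_norm ((x : ℂ) * δ)).trans hxδ)
        rw [Complex.add_re]
        linarith
      have hno : ‖w + x * δ‖ ≤ 28 := by
        refine (norm_add_le _ _).trans ?_
        linarith
      obtain ⟨-, g2, g3, -, -⟩ := hl T (w + x * δ) hTT1 hno hre
      rw [e]
      have h1 : ‖logDeriv XX (I * T + (w + x * δ))‖ ≤ Real.log T := by
        have h2 := norm_add_le (logDeriv XX (I * T + (w + x * δ)) - (Om T : ℂ)) (Om T : ℂ)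
        rw [sub_add_cancel, Complex.norm_real, Real.norm_eq_abs, abs_of_pos hOm0] at h2
        have h3 : ε / 4 * Om T ≤ Om T := by nlinarith
        rw [hOm] at h2 h3 g3
        linarith
      have h2 : deriv XX (I * T + (w + x * δ)) = logDeriv XX (I * T + (w + x * δ)) *
          XX (I * T + (w + x * δ)) := by
        rw [logDeriv_apply]
        field_simp
      rw [h2, norm_mul, norm_mul, hκ]
      calc ‖logDeriv XX (I * T + (w + x * δ))‖ * ‖XX (I * T + (w + x * δ))‖ * ‖δ‖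
          ≤ Real.log T * ‖XX (I * T + (w + x * δ))‖ * T ^ (-(b / 2)) := by gcongr
        _ = _ := by ring

end Pool.Agent.Zk17.J
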