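import Pool.Agent.Zk17.J.AP
import Pool.Agent.Zk17.J.AG
import Mathlib.Analysis.Complex.Schwarz

set_option autoImplicit false

/-!
# The functions `u ↦ PD D (zv T u)` satisfy the abstract hypotheses
-/

namespace Pool.Agent.Zk17.J

open Complex Filter Topology
open Pool.Agent.H24R2.JP (XX FF HH Om b1 growT)
open Pool.Agent.H986R2.K4 (ZB hh a1 S_HH S_A1 S_PL pl)

lemma zero_rot (T : ℝ) (u : ℂ) : FF (zv T u * cexp (I * ((0 : ℝ) : ℂ))) = FF (zv T u) := by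
  simp

/-- small rotations -/
lemma small_rot {b T : ℝ} (hb : 0 < b) (hT : 1 ≤ T) {η : ℝ} (hη : |η| ≤ T ^ (-1 - b / 2)) :
    T * |η| ≤ T ^ (-(b / 2)) ∧ T * |η| ≤ 1 := by
  have hTp : 0 < T := by linarith
  have h1 : T * |η| ≤ T ^ (-(b / 2)) := by
    have e : T * T ^ (-1 - b / 2) = T ^ (-(b / 2)) := by
      nth_rewrite 1 [← Real.rpow_one T]
      rw [← Real.rpow_add hTp]; congr 1; ring
    rw [← e]
    exact mul_le_mul_of_nonneg_left hη hTp.le
  exact ⟨h1, h1.trans (Real.rpow_le_one_of_one_le_of_nonpos hT (by linarith))⟩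

lemma PDzv_diff (D : ℕ) (T : ℝ) : Differentiable ℂ (fun u => PD D (zv T u)) := by
  refine (PD_diff D).comp ?_
  unfold zv
  fun_prop

lemma FFzv_diff (T : ℝ) : Differentiable ℂ (fun u => FF (zv T u)) := by
  refine FF_diff.comp ?_
  unfold zv
  fun_prop

theorem agPD : ∃ KU : ℝ, 1 ≤ KU ∧ ∀ b ε : ℝ, 0 < b → b ≤ 1 → 0 < ε → ε ≤ 1 / 2 → ∃ T0 : ℝ, 2000 ≤ T0 ∧
    ∀ (T : ℝ) (D : ℕ), T0 ≤ T → T ^ (2 + 2 * b) ≤ D → (D : ℝ) ≤ T ^ (5 : ℝ) →
    AG T ε KU (fun u => PD D (zv T u)) := by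
  obtain ⟨K, hK, hx⟩ := xgrow
  refine ⟨28 * K + 3, by linarith, ?_⟩
  intro b ε hb hb1 hε hε1
  obtain ⟨T1, hT1, happ⟩ := approx b (28 * K) hb hb1 (by linarith)
  obtain ⟨T2, hT2, hr⟩ := right1 b (ε / 2) hb (by positivity) (by linarith)
  obtain ⟨K', hK', hHH⟩ := hh
  obtain ⟨T3, hT3, hHR⟩ := hHH 28 (by norm_num)
  have ev1 : ∀ᶠ T : ℝ in atTop, (48 : ℝ) ≤ T ^ (b / 4) :=
    (tendsto_rpow_atTop (by positivity)).eventually_ge_atTop _
  have ev2 : ∀ᶠ T : ℝ in atTop, (2 : ℝ) ≤ T ^ (ε / 2) :=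
    (tendsto_rpow_atTop (by positivity)).eventually_ge_atTop _
  obtain ⟨T4, hT4⟩ := eventually_atTop.1 (ev1.and ev2)
  refine ⟨max (max T1 T2) (max (max T3 T4) (max (Real.exp (28 * K')) (Real.exp (4 / ε)))),
    hT1.trans ((le_max_left _ _).trans (le_max_left _ _)), ?_⟩
  intro T D hT hD hD5
  have hTT1 : T1 ≤ T := ((le_max_left _ _).trans (le_max_left _ _)).trans hT
  have hTT2 : T2 ≤ T := ((le_max_right _ _).trans (le_max_left _ _)).trans hT
  have hTT3 : T3 ≤ T :=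
    ((le_max_left _ _).trans ((le_max_left _ _).trans (le_max_right _ _))).trans hT
  obtain ⟨hv1, hv2⟩ := hT4 T
    (((le_max_right _ _).trans ((le_max_left _ _).trans (le_max_right _ _))).trans hT)
  have hTT5 : Real.exp (28 * K') ≤ T :=
    ((le_max_left _ _).trans ((le_max_right _ _).trans (le_max_right _ _))).trans hT
  have hTT6 : Real.exp (4 / ε) ≤ T :=
    ((le_max_right _ _).trans ((le_max_right _ _).trans (le_max_right _ _))).trans hT
  have hT2000 : 2000 ≤ T := by linarith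
  have hTp : 0 < T := by linarith
  have hlog0 : 0 < Real.log T := Real.log_pos (by linarith)
  have hOm : Om T = Real.log T / 2 := rfl
  have hOm0 : 0 < Om T := by rw [hOm]; linarith
  have hOme : 2 / ε ≤ Om T := by
    have h1 : 4 / ε ≤ Real.log T := (Real.le_log_iff_exp_le hTp).2 hTT6
    rw [hOm]
    have h2 : 4 / ε = 2 * (2 / ε) := by ring
    linarith
  have hTexp : ∀ c : ℝ, Real.exp (c * Real.log T) = T ^ c := by
    intro c
    rw [Real.rpow_def_of_pos hTp, mul_comm]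
  obtain ⟨E, hE⟩ : ∃ E : ℂ → ℂ, E = fun v => FF (zv T v) := ⟨_, rfl⟩
  obtain ⟨G, hG⟩ : ∃ G : ℂ → ℂ, G = fun v => PD D (zv T v) := ⟨_, rfl⟩
  rw [← hG]
  have hEd : Differentiable ℂ E := by rw [hE]; exact FFzv_diff T
  have hGd : Differentiable ℂ G := by rw [hG]; exact PDzv_diff D T
  -- upper bound for rotated values
  have hrotb : ∀ (u : ℂ) (η : ℝ), ‖u‖ ≤ 25 → T * |η| ≤ 1 →
      ‖FF (zv T u * cexp (I * η))‖ ≤ T ^ (28 * K) * ‖HH (I * T)‖ := by
    intro u η hu hη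
    obtain ⟨-, -, h3⟩ := rot_pos hT2000 hu η
    have h4 := hx T (wv T u * cexp (I * η / 2) - I * T) (by linarith) (by linarith)
    rw [add_sub_cancel, ← rot hTp] at h4
    refine h4.trans ?_
    apply mul_le_mul_of_nonneg_right _ (norm_nonneg _)
    rw [← hTexp]
    apply Real.exp_le_exp.2
    apply mul_le_mul_of_nonneg_right _ hlog0.le
    nlinarith
  -- the comparison
  obtain ⟨τ, hτ⟩ : ∃ τ : ℝ, τ = 3 * T ^ (-(b / 4)) := ⟨_, rfl⟩
  have hTb0 : 0 < T ^ (-(b / 4)) := Real.rpow_pos_of_pos hTp _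
  have hτ0 : 0 < τ := by rw [hτ]; positivity
  have hτ1 : τ ≤ 1 / 16 := by
    rw [hτ, Real.rpow_neg hTp.le, ← div_eq_mul_inv, div_le_div_iff₀ (by positivity) (by norm_num)]
    linarith
  have hHTu : ∀ u : ℂ, ‖u‖ ≤ 25 → 5 / 8 ≤ u.re → T ^ (-2 : ℝ) * ‖HH (I * T)‖ ≤
      T ^ (-(b / 4)) * ‖E u‖ := by
    intro u hu hur
    obtain ⟨-, -, h3, -, -⟩ := hr T u hTT2 hu hur
    obtain ⟨-, -, -, g4, -⟩ := hHR T u hTT3 (by linarith)
    have h4 : Real.exp (-(28 * K')) * ‖HH (I * T)‖ ≤ ‖HH (I * T + u)‖ := by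
      refine le_trans ?_ g4
      apply mul_le_mul_of_nonneg_right _ (norm_nonneg _)
      apply Real.exp_le_exp.2
      have : 0 ≤ Om T * u.re := mul_nonneg hOm0.le (by linarith)
      linarith
    have h5 : T ^ (-1 : ℝ) ≤ Real.exp (-(28 * K')) := by
      rw [Real.rpow_neg_one, Real.exp_neg]
      exact inv_anti₀ (Real.exp_pos _) hTT5
    have h6 : T ^ (-1 : ℝ) * ‖HH (I * T)‖ ≤ ‖HH (I * T + u)‖ :=
      (mul_le_mul_of_nonneg_right h5 (norm_nonneg _)).trans h4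
    have h7 : T ^ (-(ε / 2)) * (T ^ (-1 : ℝ) * ‖HH (I * T)‖) ≤ ‖E u‖ := by
      rw [hE]
      exact (mul_le_mul_of_nonneg_left h6 (Real.rpow_nonneg hTp.le _)).trans h3
    calc T ^ (-2 : ℝ) * ‖HH (I * T)‖ ≤
          (T ^ (-(b / 4)) * (T ^ (-(ε / 2)) * T ^ (-1 : ℝ))) * ‖HH (I * T)‖ := by
          apply mul_le_mul_of_nonneg_right _ (norm_nonneg _)
          rw [← Real.rpow_add hTp, ← Real.rpow_add hTp]
          exact Real.rpow_le_rpow_of_exponent_le (by linarith) (by linarith)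
      _ = T ^ (-(b / 4)) * (T ^ (-(ε / 2)) * (T ^ (-1 : ℝ) * ‖HH (I * T)‖)) := by ring
      _ ≤ _ := mul_le_mul_of_nonneg_left h7 hTb0.le
  have hGE : ∀ u : ℂ, ‖u‖ ≤ 25 → 5 / 8 ≤ u.re → ‖G u - E u‖ ≤ τ * ‖E u‖ := by
    intro u hu hur
    obtain ⟨-, -, -, -, h5⟩ := hr T u hTT2 hu hur
    have hA : ‖FF (zv T u)‖ ≤ T ^ (28 * K) * ‖HH (I * T)‖ := by
      have := hrotb u 0 hu (by simp)
      rwa [zero_rot] at this
    have h1 := happ T D u (FF (zv T u)) (T ^ (-(b / 4)) * ‖FF (zv T u)‖) hTT1 hD hD5 hu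
      (by positivity) hA h5
    have h2 := hHTu u hu hur
    rw [hE] at h2
    rw [hG, hE, hτ]
    simp only at h1 h2 ⊢
    linarith
  have hGlo : ∀ u : ℂ, ‖u‖ ≤ 25 → 5 / 8 ≤ u.re → 1 / 2 * ‖E u‖ ≤ ‖G u‖ := by
    intro u hu hur
    have h1 := hGE u hu hur
    have h2 := norm_sub_norm_le (E u) (G u)
    rw [norm_sub_rev] at h2
    have h3 : τ * ‖E u‖ ≤ 1 / 16 * ‖E u‖ := mul_le_mul_of_nonneg_right hτ1 (norm_nonneg _)
    linarith [norm_nonneg (E u)]
  have hGup : ∀ u : ℂ, ‖u‖ ≤ 25 → 5 / 8 ≤ u.re → ‖G u‖ ≤ 2 * ‖E u‖ := by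
    intro u hu hur
    have h1 := hGE u hu hur
    have h2 := norm_sub_norm_le (G u) (E u)
    have h3 : τ * ‖E u‖ ≤ 1 / 16 * ‖E u‖ := mul_le_mul_of_nonneg_right hτ1 (norm_nonneg _)
    linarith [norm_nonneg (E u)]
  have hE0 : ∀ u : ℂ, ‖u‖ ≤ 25 → 5 / 8 ≤ u.re → E u ≠ 0 := by
    intro u hu hur
    rw [hE]
    exact (hr T u hTT2 hu hur).1
  have hG0 : ∀ u : ℂ, ‖u‖ ≤ 25 → 5 / 8 ≤ u.re → G u ≠ 0 := by
    intro u hu hur h0
    have h1 := hGlo u hu hur
    rw [h0, norm_zero] at h1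
    have h2 := norm_pos_iff.2 (hE0 u hu hur)
    linarith
  refine ⟨hGd, ?_, fun u h1 h2 => hG0 u (by linarith) (by linarith), ?_, ?_, ?_⟩
  · -- up
    intro u hu
    have h1 := happ T D u 0 (T ^ (28 * K) * ‖HH (I * T)‖) hTT1 hD hD5 (by linarith) (by positivity)
      (by rw [norm_zero]; positivity) (by
        intro η hη
        rw [sub_zero]
        exact hrotb u η (by linarith) (small_rot hb (by linarith) hη).2)
    rw [sub_zero] at h1
    rw [hG]
    refine h1.trans ?_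
    have h2 : T ^ (-2 : ℝ) ≤ T ^ (28 * K) :=
      Real.rpow_le_rpow_of_exponent_le (by linarith) (by linarith)
    have h3 : 3 * T ^ (28 * K) ≤ T ^ (28 * K + 3) := by
      rw [Real.rpow_add hTp]
      have h4 : (3 : ℝ) ≤ T ^ (3 : ℝ) := by
        calc (3 : ℝ) ≤ T := by linarith
          _ = T ^ (1 : ℝ) := (Real.rpow_one T).symm
          _ ≤ _ := Real.rpow_le_rpow_of_exponent_le (by linarith) (by norm_num)
      have h5 : 0 ≤ T ^ (28 * K) := Real.rpow_nonneg hTp.le _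
      nlinarith
    have h4 := norm_nonneg (HH (I * T))
    nlinarith
  · -- ld
    intro u hur hu
    obtain ⟨p, hp⟩ : ∃ p : ℂ → ℂ, p = fun v => (G v - E v) / E v := ⟨_, rfl⟩
    have hin : ∀ v ∈ Metric.closedBall u (1 / 8), ‖v‖ ≤ 25 ∧ 5 / 8 ≤ v.re := by
      intro v hv
      rw [Metric.mem_closedBall, dist_eq_norm] at hv
      have h1 := norm_add_le (v - u) u
      rw [sub_add_cancel] at h1
      have h2 := abs_le.1 ((Complex.abs_re_le_norm (v - u)).trans hv)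
      rw [Complex.sub_re] at h2
      exact ⟨by linarith, by linarith⟩
    have hpd : ∀ v ∈ Metric.closedBall u (1 / 8), DifferentiableAt ℂ p v := by
      intro v hv
      obtain ⟨h1, h2⟩ := hin v hv
      rw [hp]
      exact ((hGd v).sub (hEd v)).div (hEd v) (hE0 v h1 h2)
    have hdc : DiffContOnCl ℂ p (Metric.ball u (1 / 8)) := by
      constructor
      · intro v hv
        exact (hpd v (Metric.ball_subset_closedBall hv)).differentiableWithinAt
      · rw [closure_ball _ (by norm_num)]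
        intro v hv
        exact (hpd v hv).continuousAt.continuousWithinAt
    have hpn : ∀ v ∈ Metric.sphere u (1 / 8), ‖p v‖ ≤ τ := by
      intro v hv
      obtain ⟨h1, h2⟩ := hin v (Metric.sphere_subset_closedBall hv)
      have h3 := hGE v h1 h2
      have h4 := norm_pos_iff.2 (hE0 v h1 h2)
      rw [hp]
      simp only
      rw [norm_div, div_le_iff₀ h4]
      exact h3
    have h1 := Complex.norm_deriv_le_of_forall_mem_sphere_norm_le (by norm_num) hdc hpn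
    have hu25 : ‖u‖ ≤ 25 := by linarith
    have hur5 : 5 / 8 ≤ u.re := by linarith
    have hEu := hE0 u hu25 hur5
    have hGu := hG0 u hu25 hur5
    have h2 : logDeriv G u = logDeriv E u + deriv p u * (E u / G u) := by
      have h3 : HasDerivAt p (((deriv G u - deriv E u) * E u - (G u - E u) * deriv E u) / E u ^ 2) u := by
        rw [hp]
        exact ((hGd u).hasDerivAt.sub (hEd u).hasDerivAt).div (hEd u).hasDerivAt hEu
      rw [h3.deriv, logDeriv_apply, logDeriv_apply]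
      field_simp
      ring
    obtain ⟨-, h4, -, -, -⟩ := hr T u hTT2 hu25 hur5
    rw [← hE] at h4
    have h5 : ‖deriv p u * (E u / G u)‖ ≤ 1 := by
      have h6 : ‖E u / G u‖ ≤ 2 := by
        rw [norm_div, div_le_iff₀ (norm_pos_iff.2 hGu)]
        linarith [hGlo u hu25 hur5]
      rw [norm_mul]
      calc ‖deriv p u‖ * ‖E u / G u‖ ≤ (τ / (1 / 8)) * 2 :=
            mul_le_mul h1 h6 (norm_nonneg _) (by positivity)
        _ = 16 * τ := by ring
        _ ≤ 1 := by linarith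
    have h6 : logDeriv G u - (Om T : ℂ) = (logDeriv E u - (Om T : ℂ)) + deriv p u * (E u / G u) := by
      rw [h2]; ring
    rw [h6]
    refine (norm_add_le _ _).trans ?_
    have h7 : 1 ≤ ε / 2 * Om T := by
      rw [div_le_iff₀ hε] at hOme
      linarith
    linarith
  · -- lo
    intro u hur hu
    obtain ⟨-, -, h4, -, -⟩ := hr T u hTT2 (by linarith) (by linarith)
    have h5 := hGlo u (by linarith) (by linarith)
    have h6 : T ^ (-ε) ≤ 1 / 2 * T ^ (-(ε / 2)) := by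
      have e : T ^ (-ε) = T ^ (-(ε / 2)) * T ^ (-(ε / 2)) := by
        rw [← Real.rpow_add hTp]; congr 1; ring
      have h7 : T ^ (-(ε / 2)) ≤ 1 / 2 := by
        rw [Real.rpow_neg hTp.le, inv_eq_one_div]
        exact one_div_le_one_div_of_le (by norm_num) hv2
      rw [e]
      exact mul_le_mul_of_nonneg_right h7 (Real.rpow_nonneg hTp.le _)
    rw [hE] at h5
    calc T ^ (-ε) * ‖HH (I * T + u)‖ ≤ (1 / 2 * T ^ (-(ε / 2))) * ‖HH (I * T + u)‖ :=
          mul_le_mul_of_nonneg_right h6 (norm_nonneg _)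
      _ = 1 / 2 * (T ^ (-(ε / 2)) * ‖HH (I * T + u)‖) := by ring
      _ ≤ 1 / 2 * ‖FF (zv T u)‖ := by linarith
      _ ≤ _ := h5
  · -- hi
    intro u hur hu
    obtain ⟨-, -, -, h4, -⟩ := hr T u hTT2 (by linarith) (by linarith)
    have h5 := hGup u (by linarith) (by linarith)
    have h6 : 2 * T ^ (ε / 2) ≤ T ^ ε := by
      have e : T ^ ε = T ^ (ε / 2) * T ^ (ε / 2) := by
        rw [← Real.rpow_add hTp]; congr 1; ring
      rw [e]
      exact mul_le_mul_of_nonneg_right hv2 (Real.rpow_nonneg hTp.le _)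
    rw [hE] at h5
    calc ‖G u‖ ≤ 2 * ‖FF (zv T u)‖ := h5
      _ ≤ 2 * (T ^ (ε / 2) * ‖HH (I * T + u)‖) := by linarith
      _ = (2 * T ^ (ε / 2)) * ‖HH (I * T + u)‖ := by ring
      _ ≤ _ := mul_le_mul_of_nonneg_right h6 (norm_nonneg _)

/-- the value near a zero -/
theorem n3 (b : ℝ) (hb : 0 < b) (hb1 : b ≤ 1) : ∃ T0 : ℝ, 2000 ≤ T0 ∧ ∀ (T : ℝ) (D : ℕ) (xp : ℝ),
    T0 ≤ T → T ^ (2 + 2 * b) ≤ D → (D : ℝ) ≤ T ^ (5 : ℝ) → 0 ≤ xp → xp ≤ 1 / 2 →
    XX (I * T + xp) = 0 → ‖PD D (zv T xp)‖ ≤ T ^ (-(b / 4)) * (Real.exp (Om T / 2) * ‖HH (I * T)‖) := by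
  obtain ⟨T1, hT1, happ⟩ := approx b 0 hb hb1 le_rfl
  obtain ⟨δ, hδ⟩ : ∃ δ : ℝ, δ = b / 16 := ⟨_, rfl⟩
  have hδ0 : 0 < δ := by rw [hδ]; positivity
  have hδ1 : δ ≤ 1 / 16 := by rw [hδ]; linarith
  obtain ⟨t1, ht1, hz⟩ := a1 δ hδ0
  obtain ⟨C', T2, hC', hT2, hPL⟩ := pl hh (1 / 2 + 2 * δ) δ 1 t1 1 (by positivity) (by linarith) hδ0.le
    (by linarith) one_pos (by linarith) le_rfl (by
      intro t ht
      have e1 : ((1 : ℂ) / 2 + ((1 / 2 + 2 * δ : ℝ) : ℂ) + t * I).re = 1 + 2 * δ := by simp; ring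
      have e2 : ((1 : ℂ) / 2 + ((1 / 2 + 2 * δ : ℝ) : ℂ) + t * I).im = t := by simp
      have := (hz ((1 : ℂ) / 2 + ((1 / 2 + 2 * δ : ℝ) : ℂ) + t * I) (by rw [e1]; linarith)
        (by rw [e2]; exact ht)).2.2.2
      rw [e2] at this
      rw [one_mul]
      exact this)
  have ev1 : ∀ᶠ T : ℝ in atTop, 8 * C' / δ ≤ T ^ (b / 8) :=
    (tendsto_rpow_atTop (by positivity)).eventually_ge_atTop _
  have ev2 : ∀ᶠ T : ℝ in atTop, 2 / δ ≤ T ^ (b / 2) :=
    (tendsto_rpow_atTop (by positivity)).eventually_ge_atTop _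
  obtain ⟨T3, hT3⟩ := eventually_atTop.1 (ev1.and ev2)
  refine ⟨max T1 (max T2 T3), hT1.trans (le_max_left _ _), ?_⟩
  intro T D xp hT hD hD5 hxp0 hxp1 hzero
  have hTT1 : T1 ≤ T := (le_max_left _ _).trans hT
  have hTT2 : T2 ≤ T := ((le_max_left _ _).trans (le_max_right _ _)).trans hT
  obtain ⟨hv1, hv2⟩ := hT3 T (((le_max_right _ _).trans (le_max_right _ _)).trans hT)
  have hT2000 : 2000 ≤ T := by linarith
  have hTp : 0 < T := by linarith
  have hlog0 : 0 < Real.log T := Real.log_pos (by linarith)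
  have hOm : Om T = Real.log T / 2 := rfl
  have hOm0 : 0 < Om T := by rw [hOm]; linarith
  obtain ⟨H, hH⟩ : ∃ H : ℝ, H = Real.exp (Om T / 2) * ‖HH (I * T)‖ := ⟨_, rfl⟩
  have hHH0 : 0 < ‖HH (I * T)‖ := norm_pos_iff.2 (Pool.Agent.H24R2.JP.StirAux.HH_ne (by simpa using hTp))
  have hH0 : 0 < H := by rw [hH]; positivity
  obtain ⟨M, hM⟩ : ∃ M : ℝ, M = C' * T ^ (2 * δ) * H := ⟨_, rfl⟩
  have hM0 : 0 < M := by rw [hM]; positivity
  have hPL' : ∀ v : ℂ, |v.re| ≤ 1 / 2 + 2 * δ → |v.im| ≤ 1 → ‖XX (I * T + v)‖ ≤ M := by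
    intro v h1 h2
    refine (hPL T v hTT2 h1 h2).trans (le_of_eq ?_)
    rw [hM, hH]
    have e : Real.exp ((1 / 2 + 2 * δ) * Om T) = T ^ δ * Real.exp (Om T / 2) := by
      rw [Real.rpow_def_of_pos hTp, ← Real.exp_add, hOm]
      congr 1
      ring
    have e2 : T ^ (2 * δ) = T ^ δ * T ^ δ := by rw [← Real.rpow_add hTp]; congr 1; ring
    rw [e, e2]
    ring
  have hTb : 0 < T ^ (-(b / 2)) := Real.rpow_pos_of_pos hTp _
  have hnear : ∀ η : ℝ, |η| ≤ T ^ (-1 - b / 2) → ‖FF (zv T xp * cexp (I * η)) - 0‖ ≤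
      2 / δ * M * T ^ (-(b / 2)) := by
    intro η hη
    rw [sub_zero]
    obtain ⟨hη1, hη2⟩ := small_rot hb (by linarith) hη
    have hxn : ‖(xp : ℂ)‖ ≤ 1 / 2 := by
      rw [Complex.norm_real, Real.norm_eq_abs, abs_of_nonneg hxp0]; exact hxp1
    obtain ⟨-, r2, -⟩ := rot_pos hT2000 (by linarith : ‖(xp : ℂ)‖ ≤ 25) η
    obtain ⟨v, hv⟩ : ∃ v : ℂ, v = wv T xp * cexp (I * η / 2) - I * T := ⟨_, rfl⟩
    have hvd : ‖v - xp‖ ≤ 2 * T ^ (-(b / 2)) := by
      have h1 := norm_wv_sub hTp (xp : ℂ)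
      have h2 : 2 * ‖(xp : ℂ)‖ ^ 2 / T ≤ T ^ (-(b / 2)) := by
        calc 2 * ‖(xp : ℂ)‖ ^ 2 / T ≤ 1 / T := by
              apply div_le_div_of_nonneg_right _ hTp.le
              nlinarith [norm_nonneg (xp : ℂ)]
          _ = T ^ (-1 : ℝ) := by rw [Real.rpow_neg_one, one_div]
          _ ≤ _ := Real.rpow_le_rpow_of_exponent_le (by linarith) (by linarith)
      have e : v - xp = (wv T xp * cexp (I * η / 2) - wv T xp) + (wv T xp - (I * T + xp)) := by
        rw [hv]; ring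
      rw [e]
      refine (norm_add_le _ _).trans ?_
      linarith
    have hδT : 2 * T ^ (-(b / 2)) ≤ δ := by
      rw [Real.rpow_neg hTp.le, ← div_eq_mul_inv, div_le_iff₀ (by positivity)]
      rw [div_le_iff₀ hδ0] at hv2
      linarith
    have hdist : dist v (xp : ℂ) < 2 * δ := by
      rw [dist_eq_norm]; linarith
    have hin : ∀ w ∈ Metric.ball (xp : ℂ) (2 * δ), |w.re| ≤ 1 / 2 + 2 * δ ∧ |w.im| ≤ 1 := by
      intro w hw
      rw [Metric.mem_ball, dist_eq_norm] at hw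
      have h1 := abs_le.1 ((Complex.abs_re_le_norm _).trans hw.le)
      have h2 := (Complex.abs_im_le_norm _).trans hw.le
      rw [Complex.sub_re, Complex.ofReal_re] at h1
      rw [Complex.sub_im, Complex.ofReal_im, sub_zero] at h2
      refine ⟨?_, by linarith⟩
      rw [abs_le]
      constructor <;> linarith
    have hfd : Differentiable ℂ (fun w => XX (I * T + w)) :=
      Pool.Agent.H24R2.JP.B1h.XX_diff.comp (by fun_prop)
    have hmaps : Set.MapsTo (fun w => XX (I * T + w)) (Metric.ball (xp : ℂ) (2 * δ))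
        (Metric.closedBall ((fun w => XX (I * T + w)) (xp : ℂ)) (2 * M)) := by
      intro w hw
      obtain ⟨h1, h2⟩ := hin w hw
      have h3 := hPL' w h1 h2
      simp only [hzero, Metric.mem_closedBall, dist_zero_right]
      linarith
    have h5 := Complex.dist_le_div_mul_dist_of_mapsTo_ball hfd.differentiableOn hmaps
      (Metric.mem_ball.2 hdist)
    simp only [hzero, dist_zero_right] at h5
    rw [rot hTp]
    have e : wv T xp * cexp (I * η / 2) = I * T + v := by rw [hv]; ring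
    rw [e]
    refine h5.trans ?_
    rw [dist_eq_norm]
    calc 2 * M / (2 * δ) * ‖v - xp‖ ≤ 2 * M / (2 * δ) * (2 * T ^ (-(b / 2))) :=
          mul_le_mul_of_nonneg_left hvd (by positivity)
      _ = _ := by field_simp
  have h1 := happ T D xp 0 (2 / δ * M * T ^ (-(b / 2))) hTT1 hD hD5 (by
    rw [Complex.norm_real, Real.norm_eq_abs, abs_of_nonneg hxp0]; linarith) (by positivity)
    (by rw [norm_zero]; positivity) hnear
  rw [sub_zero] at h1
  refine h1.trans ?_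
  rw [← hH]
  have hHle : ‖HH (I * T)‖ ≤ H := by
    rw [hH]
    have : 1 ≤ Real.exp (Om T / 2) := Real.one_le_exp (by linarith)
    nlinarith
  have e1 : 2 * (2 / δ * M * T ^ (-(b / 2))) = (4 * C' / δ * T ^ (2 * δ - b / 2)) * H := by
    rw [hM, sub_eq_add_neg, Real.rpow_add hTp]
    ring
  have e2 : 4 * C' / δ * T ^ (2 * δ - b / 2) ≤ 1 / 2 * T ^ (-(b / 4)) := by
    have e3 : T ^ (2 * δ - b / 2) = T ^ (-(b / 4)) * T ^ (-(b / 8)) := by
      rw [← Real.rpow_add hTp, hδ]; congr 1; ring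
    have e4 : T ^ (-(b / 8)) * T ^ (b / 8) = 1 := by
      rw [← Real.rpow_add hTp, neg_add_cancel, Real.rpow_zero]
    have h2 : 4 * C' / δ * T ^ (-(b / 8)) ≤ 1 / 2 := by
      have h3 : 0 < T ^ (-(b / 8)) := Real.rpow_pos_of_pos hTp _
      have h4 := mul_le_mul_of_nonneg_right hv1 h3.le
      rw [mul_comm (T ^ (b / 8)), e4] at h4
      have h5 : 8 * C' / δ * T ^ (-(b / 8)) = 2 * (4 * C' / δ * T ^ (-(b / 8))) := by ring
      linarith
    rw [e3]
    have h5 : 0 < T ^ (-(b / 4)) := Real.rpow_pos_of_pos hTp _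
    have := mul_le_mul_of_nonneg_right h2 h5.le
    linarith
  have e5 : T ^ (-2 : ℝ) ≤ 1 / 2 * T ^ (-(b / 4)) := by
    have h2 : T ^ (-2 : ℝ) ≤ T ^ (-1 : ℝ) * T ^ (-(b / 4)) := by
      rw [← Real.rpow_add hTp]
      exact Real.rpow_le_rpow_of_exponent_le (by linarith) (by linarith)
    have h3 : T ^ (-1 : ℝ) ≤ 1 / 2 := by
      rw [Real.rpow_neg_one, inv_eq_one_div]
      exact one_div_le_one_div_of_le (by norm_num) (by linarith)
    have h5 : 0 < T ^ (-(b / 4)) := Real.rpow_pos_of_pos hTp _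
    exact h2.trans (mul_le_mul_of_nonneg_right h3 h5.le)
  rw [e1]
  have h6 := mul_le_mul_of_nonneg_right e2 hH0.le
  have h7 : T ^ (-2 : ℝ) * ‖HH (I * T)‖ ≤ 1 / 2 * T ^ (-(b / 4)) * H :=
    mul_le_mul e5 hHle (norm_nonneg _) (by positivity)
  linarith

/-- the convexity bound -/
theorem n2 (b ε2 ε2' ν C' T1 : ℝ) (hb : 0 < b) (hb1 : b ≤ 1) (hε0 : 0 < ε2') (hε : ε2' < ε2) (hε2 : ε2 ≤ 1 / 4)
    (hC' : 0 < C') (hν : 0 ≤ ν)
    (hPL : ∀ (t : ℝ) (u : ℂ), T1 ≤ t → |u.re| ≤ 1 / 2 - ε2' → |u.im| ≤ 2 →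
      ‖XX (I * t + u)‖ ≤ C' * t ^ ν * (Real.exp ((1 / 2 - ε2') * Om t) * ‖HH (I * t)‖)) :
    ∃ T0 : ℝ, 2000 ≤ T0 ∧ ∀ (T : ℝ) (D : ℕ), T0 ≤ T → T ^ (2 + 2 * b) ≤ D → (D : ℝ) ≤ T ^ (5 : ℝ) →
    ∀ u : ℂ, |u.re| ≤ 1 / 2 - ε2 → |u.im| ≤ 1 → ‖PD D (zv T u)‖ ≤
      (2 * C' + 1) * T ^ (ν + (ε2 - ε2') / 2) * (Real.exp ((1 / 2 - ε2) * Om T) * ‖HH (I * T)‖) := by
  obtain ⟨T2, hT2, happ⟩ := approx b 0 hb hb1 le_rfl
  have ev2 : ∀ᶠ T : ℝ in atTop, 2 / (ε2 - ε2') + 2 ≤ T ^ (b / 2) :=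
    (tendsto_rpow_atTop (by positivity)).eventually_ge_atTop _
  obtain ⟨T3, hT3⟩ := eventually_atTop.1 ev2
  refine ⟨max T2 (max T1 (max T3 10000)), hT2.trans (le_max_left _ _), ?_⟩
  intro T D hT hD hD5 u hu1 hu2
  have hTT2 : T2 ≤ T := (le_max_left _ _).trans hT
  have hTT1 : T1 ≤ T := ((le_max_left _ _).trans (le_max_right _ _)).trans hT
  have hv2 := hT3 T (((le_max_left _ _).trans ((le_max_right _ _).trans (le_max_right _ _))).trans hT)
  have hT4 : 10000 ≤ T :=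
    ((le_max_right _ _).trans ((le_max_right _ _).trans (le_max_right _ _))).trans hT
  have hT2000 : 2000 ≤ T := by linarith
  have hTp : 0 < T := by linarith
  have hlog0 : 0 < Real.log T := Real.log_pos (by linarith)
  have hOm : Om T = Real.log T / 2 := rfl
  have hOm0 : 0 < Om T := by rw [hOm]; linarith
  have hg : 0 < ε2 - ε2' := by linarith
  have hun : ‖u‖ ≤ 2 := by
    have := Complex.norm_le_abs_re_add_abs_im u
    linarith
  obtain ⟨S, hS⟩ : ∃ S : ℝ, S = C' * T ^ ν * (Real.exp ((1 / 2 - ε2') * Om T) * ‖HH (I * T)‖) := ⟨_, rfl⟩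
  have hS0 : 0 ≤ S := by rw [hS]; positivity
  have hTb : 0 < T ^ (-(b / 2)) := Real.rpow_pos_of_pos hTp _
  have hnear : ∀ η : ℝ, |η| ≤ T ^ (-1 - b / 2) → ‖FF (zv T u * cexp (I * η)) - 0‖ ≤ S := by
    intro η hη
    rw [sub_zero]
    obtain ⟨hη1, hη2⟩ := small_rot hb (by linarith) hη
    obtain ⟨-, r2, -⟩ := rot_pos hT2000 (by linarith : ‖u‖ ≤ 25) η
    obtain ⟨v, hv⟩ : ∃ v : ℂ, v = wv T u * cexp (I * η / 2) - I * T := ⟨_, rfl⟩
    have hvd : ‖v - u‖ ≤ 2 * T ^ (-(b / 2)) := by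
      have h1 := norm_wv_sub hTp u
      have h2 : 2 * ‖u‖ ^ 2 / T ≤ T ^ (-(b / 2)) := by
        have h8 : 8 / T ≤ T ^ (-(1 / 2) : ℝ) := by
          have h9 : T ^ (1 / 2 : ℝ) * T ^ (-(1 / 2) : ℝ) = 1 := by
            rw [← Real.rpow_add hTp]; norm_num
          have h10 : T ^ (-(1 / 2) : ℝ) * T ^ (1 / 2 : ℝ) * T ^ (1 / 2 : ℝ) = T ^ (1 / 2 : ℝ) := by
            rw [mul_comm (T ^ (-(1 / 2) : ℝ)), h9, one_mul]
          have h11 : T ^ (1 / 2 : ℝ) * T ^ (1 / 2 : ℝ) = T := by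
            rw [← Real.rpow_add hTp]; norm_num
          have h12 : (8 : ℝ) ≤ T ^ (1 / 2 : ℝ) := by
            rw [show (8 : ℝ) = ((8 : ℝ) ^ (2 : ℝ)) ^ (1 / 2 : ℝ) by
              rw [← Real.rpow_mul (by norm_num)]; norm_num]
            apply Real.rpow_le_rpow (by positivity) _ (by norm_num)
            norm_num
            linarith
          rw [div_le_iff₀ hTp]
          calc (8 : ℝ) ≤ T ^ (1 / 2 : ℝ) := h12
            _ = T ^ (-(1 / 2) : ℝ) * (T ^ (1 / 2 : ℝ) * T ^ (1 / 2 : ℝ)) := by rw [← mul_assoc, h10]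
            _ = _ := by rw [h11]
        calc 2 * ‖u‖ ^ 2 / T ≤ 8 / T := by
              apply div_le_div_of_nonneg_right _ hTp.le
              nlinarith [norm_nonneg u]
          _ ≤ T ^ (-(1 / 2) : ℝ) := h8
          _ ≤ _ := Real.rpow_le_rpow_of_exponent_le (by linarith) (by linarith)
      have e : v - u = (wv T u * cexp (I * η / 2) - wv T u) + (wv T u - (I * T + u)) := by
        rw [hv]; ring
      rw [e]
      refine (norm_add_le _ _).trans ?_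
      linarith
    have hsm : 2 * T ^ (-(b / 2)) ≤ ε2 - ε2' ∧ 2 * T ^ (-(b / 2)) ≤ 1 := by
      constructor
      · rw [Real.rpow_neg hTp.le, ← div_eq_mul_inv, div_le_iff₀ (by positivity)]
        have h3 : 2 / (ε2 - ε2') ≤ T ^ (b / 2) := by linarith
        rw [div_le_iff₀ hg] at h3
        linarith
      · rw [Real.rpow_neg hTp.le, ← div_eq_mul_inv, div_le_iff₀ (by positivity)]
        have h3 : 0 < 2 / (ε2 - ε2') := by positivity
        linarith
    have h1 := abs_le.1 ((Complex.abs_re_le_norm _).trans hvd)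
    have h2 := (Complex.abs_im_le_norm _).trans hvd
    rw [Complex.sub_re] at h1
    rw [Complex.sub_im] at h2
    have h2' := abs_le.1 h2
    have hu1' := abs_le.1 hu1
    have hu2' := abs_le.1 hu2
    rw [rot hTp]
    have e : wv T u * cexp (I * η / 2) = I * T + v := by rw [hv]; ring
    rw [e, hS]
    apply hPL T v hTT1
    · rw [abs_le]; constructor <;> linarith [hsm.1]
    · rw [abs_le]; constructor <;> linarith [hsm.2]
  have h1 := happ T D u 0 S hTT2 hD hD5 (by linarith) hS0 (by rw [norm_zero]; positivity) hnear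
  rw [sub_zero] at h1
  refine h1.trans ?_
  have e : Real.exp ((1 / 2 - ε2') * Om T) = T ^ ((ε2 - ε2') / 2) * Real.exp ((1 / 2 - ε2) * Om T) := by
    rw [Real.rpow_def_of_pos hTp, ← Real.exp_add, hOm]
    congr 1
    ring
  have e2 : T ^ (ν + (ε2 - ε2') / 2) = T ^ ν * T ^ ((ε2 - ε2') / 2) := Real.rpow_add hTp _ _
  have h2 : T ^ (-2 : ℝ) * ‖HH (I * T)‖ ≤ T ^ (ν + (ε2 - ε2') / 2) *
      (Real.exp ((1 / 2 - ε2) * Om T) * ‖HH (I * T)‖) := by
    have h3 : T ^ (-2 : ℝ) ≤ T ^ (ν + (ε2 - ε2') / 2) :=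
      Real.rpow_le_rpow_of_exponent_le (by linarith) (by linarith)
    have h4 : 1 ≤ Real.exp ((1 / 2 - ε2) * Om T) :=
      Real.one_le_exp (mul_nonneg (by linarith) hOm0.le)
    have h5 : ‖HH (I * T)‖ ≤ Real.exp ((1 / 2 - ε2) * Om T) * ‖HH (I * T)‖ := by
      nlinarith [norm_nonneg (HH (I * T))]
    exact mul_le_mul h3 h5 (norm_nonneg _) (Real.rpow_nonneg hTp.le _)
  rw [hS, e]
  calc 2 * (C' * T ^ ν * (T ^ ((ε2 - ε2') / 2) * Real.exp ((1 / 2 - ε2) * Om T) * ‖HH (I * T)‖)) +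
      T ^ (-2 : ℝ) * ‖HH (I * T)‖ ≤
      2 * (C' * T ^ ν * (T ^ ((ε2 - ε2') / 2) * Real.exp ((1 / 2 - ε2) * Om T) * ‖HH (I * T)‖)) +
      T ^ (ν + (ε2 - ε2') / 2) * (Real.exp ((1 / 2 - ε2) * Om T) * ‖HH (I * T)‖) := by linarith
    _ = _ := by rw [e2]; ring

end Pool.Agent.Zk17.J
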