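import Pool.Agent.H24R2.JP.B1

set_option autoImplicit false

/-!
# The change of variables `z = -t² + 2 i t v`, `w = √z ≈ i t + v`
-/

namespace Pool.Agent.Zk17.J

open Complex Filter Topology
open Pool.Agent.H24R2.JP (XX FF b1)

/-- The principal square root of `1 - 2 i v / t`. -/
noncomputable def sq (t : ℝ) (v : ℂ) : ℂ := (1 - 2 * I * v / t) ^ (1 / 2 : ℂ)

/-- `wv t v = √(-t² + 2 i t v)`, near `i t + v`. -/
noncomputable def wv (t : ℝ) (v : ℂ) : ℂ := I * t * sq t v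

/-- The point `-t² + 2 i t v`. -/
noncomputable def zv (t : ℝ) (v : ℂ) : ℂ := -(t : ℂ) ^ 2 + 2 * I * t * v

lemma sq_sq (t : ℝ) (v : ℂ) : sq t v ^ 2 = 1 - 2 * I * v / t := by
  unfold sq
  have h := Complex.cpow_nat_inv_pow (1 - 2 * I * v / t) (n := 2) (by norm_num)
  rw [show (1 / 2 : ℂ) = (((2 : ℕ) : ℂ))⁻¹ by norm_num]
  exact h

lemma wv_sq {t : ℝ} (ht : t ≠ 0) (v : ℂ) : wv t v ^ 2 = zv t v := by
  unfold wv zv
  rw [mul_pow, mul_pow, sq_sq, I_sq]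
  have : (t : ℂ) ≠ 0 := by exact_mod_cast ht
  field_simp
  ring

lemma sq_re (t : ℝ) (v : ℂ) : 0 ≤ (sq t v).re := by
  unfold sq
  rcases eq_or_ne (1 - 2 * I * v / t : ℂ) 0 with h | h
  · rw [h, zero_cpow (by norm_num)]; simp
  · rw [cpow_def_of_ne_zero h, Complex.exp_re]
    apply mul_nonneg (Real.exp_pos _).le
    apply Real.cos_nonneg_of_mem_Icc
    have e : (Complex.log (1 - 2 * I * v / t) * (1 / 2)).im = (1 - 2 * I * v / t : ℂ).arg / 2 := by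
      rw [show (1 / 2 : ℂ) = ((1 / 2 : ℝ) : ℂ) by push_cast; ring, Complex.im_mul_ofReal, Complex.log_im]
      ring
    rw [e]
    have h1 := Complex.neg_pi_lt_arg (1 - 2 * I * v / t)
    have h2 := Complex.arg_le_pi (1 - 2 * I * v / t)
    constructor <;> linarith

lemma one_le_norm_sq_add (t : ℝ) (v : ℂ) : 1 ≤ ‖sq t v + 1‖ := by
  have h := sq_re t v
  have h1 := Complex.re_le_norm (sq t v + 1)
  rw [Complex.add_re, Complex.one_re] at h1
  linarith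

lemma norm_arg {t : ℝ} (ht : 0 < t) (v : ℂ) : ‖2 * I * v / t‖ = 2 * ‖v‖ / t := by
  rw [norm_div, norm_mul, norm_mul, Complex.norm_I, Complex.norm_real, Real.norm_eq_abs, abs_of_pos ht]
  norm_num

lemma norm_sq_sub_one {t : ℝ} (ht : 0 < t) (v : ℂ) : ‖sq t v - 1‖ ≤ 2 * ‖v‖ / t := by
  have h1 : (sq t v - 1) * (sq t v + 1) = -(2 * I * v / t) := by
    linear_combination sq_sq t v
  have h2 : ‖sq t v - 1‖ * ‖sq t v + 1‖ = 2 * ‖v‖ / t := by
    rw [← norm_mul, h1, norm_neg, norm_arg ht]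
  have h3 := one_le_norm_sq_add t v
  have h4 := norm_nonneg (sq t v - 1)
  nlinarith

lemma norm_wv_sub {t : ℝ} (ht : 0 < t) (v : ℂ) : ‖wv t v - (I * t + v)‖ ≤ 2 * ‖v‖ ^ 2 / t := by
  have h1 : wv t v - (I * t + v) = -(I * t * (sq t v - 1) ^ 2 / 2) := by
    have h := sq_sq t v
    have ht0 : (t : ℂ) ≠ 0 := by exact_mod_cast ht.ne'
    have h2 : sq t v = 1 - I * v / t - (sq t v - 1) ^ 2 / 2 := by
      linear_combination (1 / 2 : ℂ) * h
    have h3 : wv t v = I * t * (1 - I * v / t - (sq t v - 1) ^ 2 / 2) := by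
      rw [← h2]; rfl
    rw [h3]
    have h4 : I * (t : ℂ) * (1 - I * v / t - (sq t v - 1) ^ 2 / 2) =
        I * t - I ^ 2 * v - I * t * (sq t v - 1) ^ 2 / 2 := by
      field_simp
    rw [h4, I_sq]
    ring
  rw [h1, norm_neg, norm_div, norm_mul, norm_mul, Complex.norm_I, norm_pow, Complex.norm_real,
    Real.norm_eq_abs, abs_of_pos ht]
  have h2 := norm_sq_sub_one ht v
  have h3 : ‖sq t v - 1‖ ^ 2 ≤ (2 * ‖v‖ / t) ^ 2 := pow_le_pow_left₀ (norm_nonneg _) h2 2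
  have h4 : 1 * t * ‖sq t v - 1‖ ^ 2 / ‖(2 : ℂ)‖ ≤ 1 * t * (2 * ‖v‖ / t) ^ 2 / ‖(2 : ℂ)‖ := by gcongr
  refine h4.trans (le_of_eq ?_)
  have : ‖(2 : ℂ)‖ = 2 := by norm_num
  rw [this]
  field_simp

lemma sq_ne {t : ℝ} (ht : 0 < t) {v : ℂ} (hv : 4 * ‖v‖ ≤ t) : 1 / 2 ≤ ‖sq t v‖ := by
  have h := norm_sq_sub_one ht v
  have h2 : 2 * ‖v‖ / t ≤ 1 / 2 := by
    rw [div_le_iff₀ ht]; linarith
  have h3 := norm_sub_norm_le (1 : ℂ) (1 - sq t v)
  rw [sub_sub_cancel, norm_one, norm_sub_rev] at h3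
  linarith

lemma wv_ne {t : ℝ} (ht : 0 < t) {v : ℂ} (hv : 4 * ‖v‖ ≤ t) : wv t v ≠ 0 := by
  unfold wv
  have h := sq_ne ht hv
  have h2 : sq t v ≠ 0 := by
    intro h0
    rw [h0, norm_zero] at h
    linarith
  exact mul_ne_zero (mul_ne_zero I_ne_zero (by exact_mod_cast ht.ne')) h2

/-- `i t / w` is close to `1`. -/
lemma norm_div_sub {t : ℝ} (ht : 0 < t) {v : ℂ} (hv : 4 * ‖v‖ ≤ t) :
    ‖I * t / wv t v - 1‖ ≤ 4 * ‖v‖ / t := by
  have h := sq_ne ht hv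
  have h2 : sq t v ≠ 0 := by
    intro h0
    rw [h0, norm_zero] at h
    linarith
  have ht0 : (t : ℂ) ≠ 0 := by exact_mod_cast ht.ne'
  have e : I * t / wv t v - 1 = -((sq t v - 1) / sq t v) := by
    unfold wv
    have := I_ne_zero
    field_simp
    ring
  rw [e, norm_neg, norm_div, div_le_iff₀ (by linarith)]
  have h3 := norm_sq_sub_one ht v
  have h4 : 4 * ‖v‖ / t * (1 / 2) ≤ 4 * ‖v‖ / t * ‖sq t v‖ := by gcongr
  have h5 : 4 * ‖v‖ / t * (1 / 2) = 2 * ‖v‖ / t := by ring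
  linarith

/-- `FF` at `-t² + 2 i t v` -/
lemma FF_zv {t : ℝ} (ht : t ≠ 0) (v : ℂ) : FF (zv t v) = XX (wv t v) := by
  rw [← wv_sq ht, b1.2.1]

lemma FF_diff : Differentiable ℂ FF := b1.1

lemma deriv_FF (p : ℂ) : deriv FF (p ^ 2) * (2 * p) = deriv XX p := by
  have h1 : HasDerivAt (fun z : ℂ => FF (z ^ 2)) (deriv FF (p ^ 2) * (2 * p)) p := by
    have h2 : HasDerivAt (fun z : ℂ => z ^ 2) (2 * p) p := by
      simpa using hasDerivAt_pow 2 p
    exact HasDerivAt.comp p (FF_diff _).hasDerivAt h2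
  have h3 : (fun z : ℂ => FF (z ^ 2)) = XX := by
    funext z; exact b1.2.1 z
  rw [h3] at h1
  exact h1.deriv.symm

lemma hasDerivAt_zv (t : ℝ) (v : ℂ) : HasDerivAt (zv t) (2 * I * t) v := by
  unfold zv
  simpa using ((hasDerivAt_id v).const_mul (2 * I * (t : ℂ))).const_add (-(t : ℂ) ^ 2)

/-- the logarithmic derivative of `v ↦ FF (-t² + 2 i t v)` -/
lemma logDeriv_FF_zv {t : ℝ} (ht : 0 < t) {v : ℂ} (hv : 4 * ‖v‖ ≤ t) :
    logDeriv (fun v => FF (zv t v)) v = (I * t / wv t v) * logDeriv XX (wv t v) := by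
  have hw := wv_ne ht hv
  have h1 : HasDerivAt (fun v => FF (zv t v)) (deriv FF (zv t v) * (2 * I * t)) v :=
    HasDerivAt.comp v (FF_diff _).hasDerivAt (hasDerivAt_zv t v)
  rw [logDeriv_apply, logDeriv_apply, h1.deriv, FF_zv ht.ne', ← wv_sq ht.ne', ← deriv_FF]
  field_simp

lemma zv_conj (t : ℝ) (v : ℂ) : zv t (-((starRingEnd ℂ) v)) = (starRingEnd ℂ) (zv t v) := by
  unfold zv
  simp only [map_add, map_mul, map_neg, map_pow, Complex.conj_ofReal, Complex.conj_I, map_ofNat]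
  ring

end Pool.Agent.Zk17.J
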