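import Pool.Agent.H986R2.K4.Norm
import Pool.Agent.Zk17.J.Sq

set_option autoImplicit false

/-!
# The normalised local situation for `FF`
-/

namespace Pool.Agent.Zk17.J

open Complex Filter Topology
open Pool.Agent.H24R2.JP (XX FF HH Om b1)
open Pool.Agent.H986R2.K4 (ZB S_HH S_PL QQ)
open Pool.Agent.H986R2.K4.NormAux (logDeriv_XX)

lemma FF_zv_diff (t : ℝ) (r : ℂ) : Differentiable ℂ (fun z : ℂ => FF (zv t (r * z))) := by
  refine FF_diff.comp ?_
  unfold zv
  fun_prop

lemma FF_zv_symm (t r : ℝ) (z : ℂ) : FF (zv t ((r : ℂ) * (-((starRingEnd ℂ) z)))) =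
    (starRingEnd ℂ) (FF (zv t ((r : ℂ) * z))) := by
  rw [← b1.2.2.1, ← zv_conj]
  congr 2
  rw [map_mul, Complex.conj_ofReal]
  ring

lemma logDeriv_FF_scale {t : ℝ} (ht : 0 < t) (r : ℝ) {z : ℂ} (hz : 4 * ‖(r : ℂ) * z‖ ≤ t) :
    logDeriv (fun z : ℂ => FF (zv t ((r : ℂ) * z))) z =
      r * ((I * t / wv t (r * z)) * logDeriv XX (wv t (r * z))) := by
  rw [← logDeriv_FF_zv ht hz]
  have hlin : HasDerivAt (fun z : ℂ => (r : ℂ) * z) (r : ℂ) z := by
    simpa using (hasDerivAt_id z).const_mul (r : ℂ)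
  have hd : Differentiable ℂ (fun v => FF (zv t v)) := by
    refine FF_diff.comp ?_
    unfold zv
    fun_prop
  have h0 : HasDerivAt ((fun v => FF (zv t v)) ∘ fun z : ℂ => (r : ℂ) * z)
      (deriv (fun v => FF (zv t v)) (r * z) * r) z :=
    HasDerivAt.comp (h₂ := fun v => FF (zv t v)) z (hd (r * z)).hasDerivAt hlin
  have h1 : HasDerivAt (fun z : ℂ => FF (zv t ((r : ℂ) * z)))
      (deriv (fun v => FF (zv t v)) (r * z) * r) z := h0
  rw [logDeriv_apply, logDeriv_apply, h1.deriv]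
  ring

theorem normJ (h1 : S_HH) (h2 : S_PL) : ∀ y r0 : ℝ, 0 ≤ y → y ≤ 1 / 2 → ZB y → y < r0 → r0 ≤ 1 →
    ∃ κ : ℝ, 0 < κ ∧ κ ≤ 1 / 2 ∧ ∀ R η : ℝ, 3 ≤ R → 0 < η → ∃ T0 : ℝ, 2 ≤ T0 ∧
    ∀ (t : ℝ) (n : ℕ), T0 ≤ t → r0 * Om t ≤ n → (n : ℝ) ≤ 2 * r0 * Om t →
    QQ κ R n η (fun z => FF (zv t (((n / Om t : ℝ) : ℂ) * z))) := by
  intro y r0 hy0 hy1 hZ hyr hr0
  have hr00 : 0 < r0 := by linarith
  obtain ⟨K, hK1, hHH⟩ := h1
  obtain ⟨κ, hκ⟩ : ∃ κ : ℝ, κ = (r0 - y) / (4 * r0) := ⟨_, rfl⟩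
  have hκ0 : 0 < κ := by rw [hκ]; exact div_pos (by linarith) (by linarith)
  have hκ1 : κ ≤ 1 / 2 := by
    rw [hκ, div_le_iff₀ (by linarith)]
    linarith
  obtain ⟨g, hg⟩ : ∃ g : ℝ, g = (r0 - y) / 4 := ⟨_, rfl⟩
  have hg0 : 0 < g := by rw [hg]; linarith
  obtain ⟨x0, hx0⟩ : ∃ x0 : ℝ, x0 = (r0 + y) / 2 := ⟨_, rfl⟩
  have hx0κ : r0 * (1 - κ) = x0 + g := by
    rw [hκ, hx0, hg]
    field_simp
    ring
  have hx00 : 0 < x0 := by rw [hx0]; linarith
  have hx01 : x0 ≤ 1 := by rw [hx0]; linarith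
  have hx0r : x0 < r0 := by rw [hx0]; linarith
  have hgx : g ≤ x0 := by rw [hg, hx0]; linarith
  refine ⟨κ, hκ0, hκ1, ?_⟩
  intro R η hR hη
  obtain ⟨ε, hε⟩ : ∃ ε : ℝ, ε = min (x0 - y) (min (η * r0 / 32) (κ * r0 / 48)) := ⟨_, rfl⟩
  have hε0 : 0 < ε := by
    rw [hε]
    refine lt_min (by rw [hx0]; linarith) (lt_min (by positivity) (by positivity))
  have hε1 : ε ≤ x0 - y := by rw [hε]; exact min_le_left _ _
  have hε2 : ε ≤ η * r0 / 32 := by rw [hε]; exact (min_le_right _ _).trans (min_le_left _ _)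
  have hε3 : ε ≤ κ * r0 / 48 := by rw [hε]; exact (min_le_right _ _).trans (min_le_right _ _)
  have hε4 : ε ≤ 1 := by nlinarith
  obtain ⟨t1, ht1, hz⟩ := hZ ε hε0
  obtain ⟨T1, hT1, hHR⟩ := hHH (3 * R) (by linarith)
  obtain ⟨C', T2, hC', hT2, hPL⟩ := h2 x0 ε 1 t1 (3 * R) hx00 hx01 hε0.le hε4 one_pos (by linarith)
    (by linarith) (by
      intro t ht
      have e1 : ((1 : ℂ) / 2 + (x0 : ℂ) + t * I).re = 1 / 2 + x0 := by simp
      have e2 : ((1 : ℂ) / 2 + (x0 : ℂ) + t * I).im = t := by simp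
      have := (hz (1 / 2 + x0 + t * I) (by rw [e1]; linarith) (by rw [e2]; exact ht)).2.2.2
      rw [e2] at this
      rw [one_mul]
      exact this)
  obtain ⟨K2, hK2⟩ : ∃ K2 : ℝ, K2 = K * (3 * R) + 8 * R ^ 2 := ⟨_, rfl⟩
  obtain ⟨C2, hC2⟩ : ∃ C2 : ℝ, C2 = max C' (Real.exp K2) := ⟨_, rfl⟩
  have hC20 : 0 < C2 := by rw [hC2]; exact lt_of_lt_of_le hC' (le_max_left _ _)
  obtain ⟨M, hM⟩ : ∃ M : ℝ, M = max (32 * (K + 2 * R) / (η * r0))
    (8 * (Real.log C2 + K2) / (κ * r0)) := ⟨_, rfl⟩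
  obtain ⟨T0, hT0⟩ : ∃ T0 : ℝ, T0 = max (max T1 T2) (max (max (t1 + 6 * R) (Real.exp M))
    (max (8 * R ^ 2 / g) (8 * R ^ 2))) := ⟨_, rfl⟩
  have hT01 : T1 ≤ T0 := by rw [hT0]; exact (le_max_left _ _).trans (le_max_left _ _)
  have hT02 : T2 ≤ T0 := by rw [hT0]; exact (le_max_right _ _).trans (le_max_left _ _)
  have hT03 : t1 + 6 * R ≤ T0 := by
    rw [hT0]; exact (le_max_left _ _).trans ((le_max_left _ _).trans (le_max_right _ _))
  have hT04 : Real.exp M ≤ T0 := by
    rw [hT0]; exact (le_max_right _ _).trans ((le_max_left _ _).trans (le_max_right _ _))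
  have hT05 : 8 * R ^ 2 / g ≤ T0 := by
    rw [hT0]; exact (le_max_left _ _).trans ((le_max_right _ _).trans (le_max_right _ _))
  have hT06 : 8 * R ^ 2 ≤ T0 := by
    rw [hT0]; exact (le_max_right _ _).trans ((le_max_right _ _).trans (le_max_right _ _))
  refine ⟨T0, by linarith, ?_⟩
  intro t n ht hn1 hn2
  have ht0 : 0 < t := by linarith
  have ht2 : 2 ≤ t := by linarith
  have hl2 : 0 < Real.log 2 := Real.log_pos (by norm_num)
  have hll : Real.log 2 ≤ Real.log t := Real.log_le_log (by norm_num) ht2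
  have hlt : 0 < Real.log t := by linarith
  have hOm : Om t = Real.log t / 2 := rfl
  have hOm0 : 0 < Om t := by rw [hOm]; linarith
  have hOmt : Om t ≤ t := by
    rw [hOm]
    have := Real.log_le_sub_one_of_pos ht0
    linarith
  have hMt : M ≤ Real.log t := by
    rw [Real.le_log_iff_exp_le ht0]
    linarith
  have hgt : 8 * R ^ 2 / t ≤ g := by
    have h3 : 8 * R ^ 2 / g ≤ t := hT05.trans ht
    rw [div_le_iff₀ hg0] at h3
    rw [div_le_iff₀ ht0]
    linarith
  have h1t : 8 * R ^ 2 / t ≤ 1 := by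
    rw [div_le_iff₀ ht0]
    linarith
  have hOt : Om t * (8 * R ^ 2 / t) ≤ 8 * R ^ 2 := by
    rw [mul_div_assoc', div_le_iff₀ ht0]
    have : 0 ≤ 8 * R ^ 2 := by positivity
    nlinarith
  obtain ⟨r, hr⟩ : ∃ r : ℝ, r = n / Om t := ⟨_, rfl⟩
  have hrO : r * Om t = n := by rw [hr]; exact div_mul_cancel₀ _ hOm0.ne'
  have hr1 : r0 ≤ r := by
    rw [hr, le_div_iff₀ hOm0]
    exact hn1
  have hr2 : r ≤ 2 * r0 := by
    rw [hr, div_le_iff₀ hOm0]
    exact hn2
  have hr0' : 0 < r := by linarith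
  have hn0 : (0 : ℝ) ≤ n := Nat.cast_nonneg n
  -- control at a point far to the right
  have key : ∀ w : ℂ, x0 ≤ w.re → ‖w‖ ≤ 3 * R → 0 < (I * t + w).im ∧
      riemannZeta (1 / 2 + (I * t + w)) ≠ 0 ∧
      ‖logDeriv riemannZeta (1 / 2 + (I * t + w))‖ ≤ ε * Real.log (2 * t) ∧
      ‖riemannZeta (1 / 2 + (I * t + w))‖ ≤ (2 * t) ^ ε ∧
      (2 * t) ^ (-ε) ≤ ‖riemannZeta (1 / 2 + (I * t + w))‖ := by
    intro w hw hwR
    have e1 : (1 / 2 + (I * t + w) : ℂ).re = 1 / 2 + w.re := by simp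
    have e2 : (1 / 2 + (I * t + w) : ℂ).im = t + w.im := by simp
    have e3 : (I * t + w : ℂ).im = t + w.im := by simp
    have h3 := (Complex.abs_im_le_norm w).trans hwR
    rw [abs_le] at h3
    obtain ⟨a1, a2, a3, a4⟩ := hz (1 / 2 + (I * t + w)) (by rw [e1]; linarith) (by rw [e2]; linarith)
    rw [e2] at a2 a3 a4
    have h4 : 0 < t + w.im := by linarith
    refine ⟨by rw [e3]; linarith, a1, a2.trans ?_, a4.trans ?_, le_trans ?_ a3⟩
    · exact mul_le_mul_of_nonneg_left (Real.log_le_log h4 (by linarith)) hε0.le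
    · exact Real.rpow_le_rpow h4.le (by linarith) hε0.le
    · exact Real.rpow_le_rpow_of_nonpos h4 (by linarith) (by linarith)
  have hrw : ∀ z : ℂ, ‖z‖ ≤ R → ‖(r : ℂ) * z‖ ≤ 2 * R := by
    intro z hz
    rw [norm_mul, Complex.norm_real, Real.norm_eq_abs, abs_of_pos hr0']
    have : r ≤ 2 := by linarith
    exact mul_le_mul this hz (norm_nonneg _) (by norm_num)
  have hre : ∀ z : ℂ, ((r : ℂ) * z).re = r * z.re := fun z => by simp
  -- the shifted point
  have hsh : ∀ v : ℂ, ‖v‖ ≤ 2 * R → ∃ w : ℂ, wv t v = I * t + w ∧ |w.re - v.re| ≤ 8 * R ^ 2 / t ∧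
      ‖w‖ ≤ 3 * R ∧ 4 * ‖v‖ ≤ t := by
    intro v hv
    have h3 := norm_wv_sub ht0 v
    have h4 : 2 * ‖v‖ ^ 2 / t ≤ 8 * R ^ 2 / t := by
      have : ‖v‖ ^ 2 ≤ (2 * R) ^ 2 := pow_le_pow_left₀ (norm_nonneg _) hv 2
      apply div_le_div_of_nonneg_right _ ht0.le
      linarith [this, (by ring : (2 * R) ^ 2 = 4 * R ^ 2)]
    have e : (wv t v - I * t) - v = wv t v - (I * t + v) := by ring
    refine ⟨wv t v - I * t, by ring, ?_, ?_, ?_⟩
    · rw [← Complex.sub_re, e]
      exact (Complex.abs_re_le_norm _).trans (h3.trans h4)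
    · have h5 : ‖wv t v - I * t‖ ≤ ‖v‖ + ‖(wv t v - I * t) - v‖ := by
        have := norm_add_le v ((wv t v - I * t) - v)
        rwa [add_sub_cancel] at this
      rw [e] at h5
      linarith
    · have h6 : 8 * R ≤ 8 * R ^ 2 := by nlinarith
      linarith
  have hR0 : 0 < R := by linarith
  have hX : ∀ p : ℂ, 0 < p.im → XX p = HH p * riemannZeta (1 / 2 + p) :=
    Pool.Agent.H24R2.JP.ZetaTask.part1
  have h2t : Real.log (2 * t) ≤ 2 * Real.log t := by
    rw [Real.log_mul two_ne_zero ht0.ne']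
    linarith
  rw [← hr]
  constructor
  · -- diff
    exact FF_zv_diff t r
  · -- symm
    intro z
    exact FF_zv_symm t r z
  · -- far
    intro z hz1 hz2
    have hw0 : x0 + g ≤ ((r : ℂ) * z).re := by
      rw [hre, ← hx0κ]
      exact mul_le_mul hr1 hz1 (by linarith) hr0'.le
    obtain ⟨w, hw1, hw2, hw3, hw4⟩ := hsh _ (hrw z hz2)
    have hw5 : x0 ≤ w.re := by
      rw [abs_le] at hw2
      linarith
    obtain ⟨k1, k2, k3, -⟩ := key w hw5 hw3
    obtain ⟨g1, g2, g3, -, -⟩ := hHR t w (by linarith) hw3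
    constructor
    · show FF (zv t ((r : ℂ) * z)) ≠ 0
      rw [FF_zv ht0.ne', hw1, hX _ k1]
      exact mul_ne_zero g2 k2
    · rw [logDeriv_FF_scale ht0 r hw4]
      have hd := norm_div_sub ht0 hw4
      rw [hw1] at hd ⊢
      rw [logDeriv_XX k1 g1 g2 k2]
      obtain ⟨q, hq⟩ : ∃ q : ℂ, q = I * t / (I * t + w) := ⟨_, rfl⟩
      rw [← hq] at hd ⊢
      have hd1 : 4 * ‖(r : ℂ) * z‖ / t ≤ 8 * R / t := by
        have := hrw z hz2
        apply div_le_div_of_nonneg_right _ ht0.le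
        linarith
      have hd2 : ‖q - 1‖ ≤ 8 * R / t := hd.trans hd1
      have hd3 : 8 * R / t ≤ 1 := by
        rw [div_le_iff₀ ht0]
        nlinarith
      have hq1 : ‖q‖ ≤ 2 := by
        have := norm_add_le (q - 1) 1
        rw [sub_add_cancel, norm_one] at this
        linarith
      have e1 : (r : ℂ) * (q * (logDeriv HH (I * t + w) +
          logDeriv riemannZeta (1 / 2 + (I * t + w)))) - (n : ℂ) =
          r * (q * ((logDeriv HH (I * t + w) - (Om t : ℂ)) +
            logDeriv riemannZeta (1 / 2 + (I * t + w))) + (q - 1) * (Om t : ℂ)) := by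
        have : (n : ℂ) = (r : ℂ) * (Om t : ℂ) := by
          rw [← Complex.ofReal_mul, hrO, Complex.ofReal_natCast]
        rw [this]
        ring
      rw [e1, norm_mul, Complex.norm_real, Real.norm_eq_abs, abs_of_pos hr0']
      have e2 := norm_add_le (logDeriv HH (I * t + w) - (Om t : ℂ))
        (logDeriv riemannZeta (1 / 2 + (I * t + w)))
      have e3 : K + 2 * R * 2 ≤ η * r0 / 16 * Real.log t := by
        have h3 : 32 * (K + 2 * R) / (η * r0) ≤ Real.log t := by
          refine le_trans ?_ hMt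
          rw [hM]
          exact le_max_left _ _
        rw [div_le_iff₀ (by positivity)] at h3
        nlinarith
      have e4 : ε * Real.log (2 * t) ≤ η * r0 / 16 * Real.log t := by
        have h3 : ε * Real.log (2 * t) ≤ ε * (2 * Real.log t) :=
          mul_le_mul_of_nonneg_left h2t hε0.le
        have h4 : ε * (2 * Real.log t) ≤ (η * r0 / 32) * (2 * Real.log t) :=
          mul_le_mul_of_nonneg_right hε2 (by linarith)
        linarith
      have e5 : ‖q * ((logDeriv HH (I * t + w) - (Om t : ℂ)) +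
            logDeriv riemannZeta (1 / 2 + (I * t + w))) + (q - 1) * (Om t : ℂ)‖ ≤
          η * r0 / 4 * Real.log t := by
        have f1 : ‖(q - 1) * (Om t : ℂ)‖ ≤ 4 * R * 2 := by
          rw [norm_mul, Complex.norm_real, Real.norm_eq_abs, abs_of_pos hOm0]
          calc ‖q - 1‖ * Om t ≤ 8 * R / t * Om t := mul_le_mul_of_nonneg_right hd2 hOm0.le
            _ = 8 * R * (Om t / t) := by ring
            _ ≤ 8 * R * 1 := by
              apply mul_le_mul_of_nonneg_left _ (by linarith)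
              rw [div_le_one ht0]; exact hOmt
            _ = _ := by ring
        have f2 : ‖q * ((logDeriv HH (I * t + w) - (Om t : ℂ)) +
            logDeriv riemannZeta (1 / 2 + (I * t + w)))‖ ≤ 2 * (K + ε * Real.log (2 * t)) := by
          rw [norm_mul]
          exact mul_le_mul hq1 (by linarith) (norm_nonneg _) (by norm_num)
        have f3 := norm_add_le (q * ((logDeriv HH (I * t + w) - (Om t : ℂ)) +
            logDeriv riemannZeta (1 / 2 + (I * t + w)))) ((q - 1) * (Om t : ℂ))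
        linarith
      have e6 : r0 * (Real.log t / 2) ≤ n := by rw [← hOm]; exact hn1
      calc r * ‖q * ((logDeriv HH (I * t + w) - (Om t : ℂ)) +
            logDeriv riemannZeta (1 / 2 + (I * t + w))) + (q - 1) * (Om t : ℂ)‖
          ≤ 2 * (η * r0 / 4 * Real.log t) :=
            mul_le_mul (by linarith) e5 (norm_nonneg _) (by norm_num)
        _ = η * (r0 * (Real.log t / 2)) := by ring
        _ ≤ η * n := mul_le_mul_of_nonneg_left e6 hη.le
  · -- near
    have hH0 : 0 < ‖HH (I * t)‖ := by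
      have := (hHR t 0 (by linarith) (by rw [norm_zero]; linarith)).2.1
      rw [add_zero] at this
      exact norm_pos_iff.2 this
    -- upper bound
    have hup0 : ∀ z : ℂ, 0 ≤ z.re → z.re ≤ 1 - κ → ‖z‖ ≤ R → ‖FF (zv t ((r : ℂ) * z))‖ ≤
        C2 * (2 * t) ^ ε * (Real.exp (n * (1 - κ)) * ‖HH (I * t)‖) := by
      intro z hz0 hz1 hz2
      have hwR := hrw z hz2
      obtain ⟨w, hw1, hw2, hw3, hw4⟩ := hsh _ hwR
      rw [FF_zv ht0.ne', hw1]
      rw [abs_le, hre] at hw2
      rcases le_total w.re x0 with hw | hw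
      · have h3 := hPL t w (by linarith) (by
          rw [abs_le]
          refine ⟨?_, hw⟩
          have : 0 ≤ r * z.re := by positivity
          linarith) ((Complex.abs_im_le_norm _).trans hw3)
        refine h3.trans ?_
        have h4 : t ^ ε ≤ (2 * t) ^ ε := Real.rpow_le_rpow ht0.le (by linarith) hε0.le
        have h5 : C' ≤ C2 := by rw [hC2]; exact le_max_left _ _
        have h6 : Real.exp (x0 * Om t) ≤ Real.exp (n * (1 - κ)) := by
          apply Real.exp_le_exp.2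
          calc x0 * Om t ≤ (r0 * (1 - κ)) * Om t :=
                mul_le_mul_of_nonneg_right (by rw [hx0κ]; linarith) hOm0.le
            _ = (1 - κ) * (r0 * Om t) := by ring
            _ ≤ (1 - κ) * n := mul_le_mul_of_nonneg_left hn1 (by linarith)
            _ = _ := by ring
        have h7 : 0 ≤ t ^ ε := Real.rpow_nonneg ht0.le _
        exact mul_le_mul (mul_le_mul h5 h4 h7 hC20.le)
          (mul_le_mul_of_nonneg_right h6 hH0.le) (by positivity) (by positivity)
      · obtain ⟨k1, k2, -, k4, -⟩ := key w hw hw3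
        obtain ⟨-, -, -, -, g5⟩ := hHR t w (by linarith) hw3
        rw [hX _ k1, norm_mul]
        have h5 : Real.exp K2 ≤ C2 := by rw [hC2]; exact le_max_right _ _
        have h6 : Om t * w.re ≤ n * z.re + 8 * R ^ 2 := by
          have h8 : Om t * w.re ≤ Om t * (r * z.re + 8 * R ^ 2 / t) :=
            mul_le_mul_of_nonneg_left (by linarith) hOm0.le
          have h9 : Om t * (r * z.re + 8 * R ^ 2 / t) = n * z.re + Om t * (8 * R ^ 2 / t) := by
            rw [← hrO]; ring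
          linarith
        have h7 : Real.exp (Om t * w.re + K * (3 * R)) ≤
            Real.exp (n * (1 - κ)) * C2 := by
          have h8 : Real.exp (Om t * w.re + K * (3 * R)) ≤ Real.exp (n * (1 - κ)) * Real.exp K2 := by
            rw [← Real.exp_add]
            apply Real.exp_le_exp.2
            have := mul_le_mul_of_nonneg_left hz1 hn0
            linarith
          exact h8.trans (mul_le_mul_of_nonneg_left h5 (Real.exp_pos _).le)
        calc ‖HH (I * t + w)‖ * ‖riemannZeta (1 / 2 + (I * t + w))‖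
            ≤ (Real.exp (n * (1 - κ)) * C2 * ‖HH (I * t)‖) * (2 * t) ^ ε := by
              refine mul_le_mul (g5.trans (mul_le_mul_of_nonneg_right h7 hH0.le)) k4
                (norm_nonneg _) (by positivity)
          _ = _ := by ring
    have hup : ∀ z : ℂ, |z.re| ≤ 1 - κ → ‖z‖ ≤ R → ‖FF (zv t ((r : ℂ) * z))‖ ≤
        C2 * (2 * t) ^ ε * (Real.exp (n * (1 - κ)) * ‖HH (I * t)‖) := by
      intro z hz1 hz2
      rw [abs_le] at hz1
      rcases le_total 0 z.re with h | h
      · exact hup0 z h hz1.2 hz2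
      · have h3 := hup0 (-((starRingEnd ℂ) z)) (by simpa using h) (by
          rw [Complex.neg_re, Complex.conj_re]; linarith) (by
          rw [norm_neg, RCLike.norm_conj]; exact hz2)
        rw [FF_zv_symm, RCLike.norm_conj] at h3
        exact h3
    -- lower bound
    have hlow : Real.exp (n - K2) * ‖HH (I * t)‖ * (2 * t) ^ (-ε) ≤
        ‖FF (zv t ((r : ℂ) * 1))‖ := by
      have hr' : ‖(r : ℂ) * 1‖ ≤ 2 * R := hrw 1 (by rw [norm_one]; linarith)
      have hre1 : ((r : ℂ) * 1).re = r := by simp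
      obtain ⟨w, hw1, hw2, hw3, hw4⟩ := hsh _ hr'
      rw [FF_zv ht0.ne', hw1]
      rw [abs_le, hre1] at hw2
      obtain ⟨k1, k2, -, -, k5⟩ := key w (by linarith) hw3
      obtain ⟨-, -, -, g4, -⟩ := hHR t w (by linarith) hw3
      rw [hX _ k1, norm_mul]
      have h6 : n - 8 * R ^ 2 ≤ Om t * w.re := by
        have h8 : Om t * (r - 8 * R ^ 2 / t) ≤ Om t * w.re :=
          mul_le_mul_of_nonneg_left (by linarith) hOm0.le
        have h9 : Om t * (r - 8 * R ^ 2 / t) = n - Om t * (8 * R ^ 2 / t) := by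
          rw [← hrO]; ring
        linarith
      have h7 : Real.exp (n - K2) ≤ Real.exp (Om t * w.re - K * (3 * R)) := by
        apply Real.exp_le_exp.2
        linarith
      exact mul_le_mul ((mul_le_mul_of_nonneg_right h7 hH0.le).trans g4) k5
        (Real.rpow_nonneg (by linarith) _) (norm_nonneg _)
    intro z hz1 hz2
    refine (hup z hz1 hz2).trans ?_
    refine le_trans ?_ (mul_le_mul_of_nonneg_right hlow (Real.exp_pos _).le)
    -- comparison of exponentials
    have e1 : (2 * t) ^ ε = Real.exp (ε * Real.log (2 * t)) := by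
      rw [Real.rpow_def_of_pos (by linarith), mul_comm]
    have e2 : (2 * t) ^ (-ε) = Real.exp (-(ε * Real.log (2 * t))) := by
      rw [Real.rpow_def_of_pos (by linarith)]
      congr 1
      ring
    have e3 : C2 = Real.exp (Real.log C2) := (Real.exp_log hC20).symm
    have e4 : Real.log C2 + K2 ≤ κ * r0 / 8 * Real.log t := by
      have h3 : 8 * (Real.log C2 + K2) / (κ * r0) ≤ Real.log t := by
        refine le_trans ?_ hMt
        rw [hM]
        exact le_max_right _ _
      rw [div_le_iff₀ (by positivity)] at h3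
      linarith
    have e5 : ε * Real.log (2 * t) + ε * Real.log (2 * t) ≤ κ * r0 / 12 * Real.log t := by
      have h3 : ε * Real.log (2 * t) ≤ ε * (2 * Real.log t) :=
        mul_le_mul_of_nonneg_left h2t hε0.le
      have h4 : ε * (4 * Real.log t) ≤ (κ * r0 / 48) * (4 * Real.log t) :=
        mul_le_mul_of_nonneg_right hε3 (by linarith)
      linarith
    have e6 : κ * r0 / 2 * Real.log t ≤ κ * n := by
      have h3 : r0 * (Real.log t / 2) ≤ n := by rw [← hOm]; exact hn1
      have h4 := mul_le_mul_of_nonneg_left h3 (by linarith : 0 ≤ κ)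
      linarith
    have e6' : 0 < κ * r0 * Real.log t := by positivity
    have e7 : C2 * (2 * t) ^ ε * (Real.exp (n * (1 - κ)) * ‖HH (I * t)‖) =
        Real.exp (Real.log C2 + ε * Real.log (2 * t) + n * (1 - κ)) * ‖HH (I * t)‖ := by
      rw [Real.exp_add, Real.exp_add, ← e3, e1]
      ring
    have e8 : Real.exp (n - K2) * ‖HH (I * t)‖ * (2 * t) ^ (-ε) * Real.exp (-(κ / 2 * n)) =
        Real.exp ((n - K2) + (-(ε * Real.log (2 * t))) + (-(κ / 2 * n))) * ‖HH (I * t)‖ := by
      rw [Real.exp_add, Real.exp_add, e2]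
      ring
    rw [e7, e8]
    apply mul_le_mul_of_nonneg_right _ hH0.le
    apply Real.exp_le_exp.2
    have e9 : κ * r0 / 4 * Real.log t ≤ κ * n / 2 := by linarith
    have e10 : (n : ℝ) * (1 - κ) = n - κ * n := by ring
    rw [e10]
    linarith

end Pool.Agent.Zk17.J
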