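import Pool.Agent.H986R2.K4.All
import Pool.Agent.Zk17.J.NormJ

set_option autoImplicit false

/-!
# No nonreal zeros of `FF^(n)` in the window
-/

namespace Pool.Agent.Zk17.J

open Complex Filter Topology
open Pool.Agent.H24R2.JP (XX FF HH Om b1 Par)
open Pool.Agent.H986R2.K4 (ZB S_HH S_PL QQ S_AW S_NL hh pl aw nl rt lapQ)
open Pool.Agent.H986R2.K4.WinAux (mono scale)

/-- No nonreal zeros of `FF^(n)` at height `t` for `n ∈ [r0 Om t, 2 r0 Om t]`. -/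
def NoBadJ (r0 : ℝ) : Prop := ∃ T0 : ℝ, 2 ≤ T0 ∧ ∀ (t : ℝ) (n : ℕ), T0 ≤ t →
  r0 * Om t ≤ n → (n : ℝ) ≤ 2 * r0 * Om t → ∀ z : ℂ, z ∈ Par → z.re = -t ^ 2 → z.im ≠ 0 →
    iteratedDeriv n FF z ≠ 0

theorem winJ (y r0 : ℝ) (hy0 : 0 ≤ y) (hy1 : y ≤ 1 / 2) (hZ : ZB y) (hyr : y < r0) (hr1 : r0 ≤ 1) :
    NoBadJ r0 := by
  have hr0 : 0 < r0 := lt_of_le_of_lt hy0 hyr
  obtain ⟨κ, hκ0, hκ1, hN⟩ := normJ hh (pl hh) y r0 hy0 hy1 hZ hyr hr1
  have h2 : S_AW := aw lapQ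
  have h3 : S_NL := nl (rt lapQ)
  obtain ⟨R, hRdef⟩ : ∃ R : ℝ, R = 1 / r0 + 3 := ⟨_, rfl⟩
  have hR : 3 ≤ R := by
    have : 0 < 1 / r0 := by positivity
    linarith
  obtain ⟨κ1, η1, n1, hκ10, hκ1κ, hη1, H3⟩ := h3 κ R hκ0 hκ1 hR
  obtain ⟨η2, n2, hη2, H2⟩ := h2 κ R κ1 hκ0 hκ1 hR hκ10 hκ1κ
  obtain ⟨T0, hT0, H1⟩ := hN R (min η1 η2) hR (lt_min hη1 hη2)
  refine ⟨max T0 (Real.exp (2 * (max n1 n2 : ℕ) / r0)), hT0.trans (le_max_left _ _), ?_⟩
  intro t n ht hn1 hn2 z hzP hzre hzim hz0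
  have htT0 : T0 ≤ t := (le_max_left _ _).trans ht
  have htE : Real.exp (2 * (max n1 n2 : ℕ) / r0) ≤ t := (le_max_right _ _).trans ht
  have ht2 : 2 ≤ t := hT0.trans htT0
  have ht0 : 0 < t := by linarith
  have hlog : 2 * ((max n1 n2 : ℕ) : ℝ) / r0 ≤ Real.log t :=
    (Real.le_log_iff_exp_le (by linarith)).2 htE
  have hlog0 : 0 < Real.log t := Real.log_pos (by linarith)
  have hOm : 0 < Om t := by
    unfold Pool.Agent.H24R2.JP.Om
    positivity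
  have hnn : ((max n1 n2 : ℕ) : ℝ) ≤ n := by
    refine le_trans ?_ hn1
    rw [div_le_iff₀ hr0] at hlog
    unfold Pool.Agent.H24R2.JP.Om
    linarith
  have hnn' : max n1 n2 ≤ n := by exact_mod_cast hnn
  have hn0 : (0 : ℝ) < n := lt_of_lt_of_le (by positivity) hn1
  obtain ⟨r, hr⟩ : ∃ r : ℝ, r = n / Om t := ⟨_, rfl⟩
  have hrpos : 0 < r := by rw [hr]; positivity
  have hrr0 : r0 ≤ r := by rw [hr, le_div_iff₀ hOm]; exact hn1
  have hrc : (r : ℂ) ≠ 0 := by exact_mod_cast hrpos.ne'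
  have hQ := H1 t n htT0 hn1 hn2
  rw [← hr] at hQ
  obtain ⟨s, hs⟩ : ∃ s : ℝ, s = z.im / (2 * t) := ⟨_, rfl⟩
  have hst : 2 * t * s = z.im := by rw [hs]; field_simp
  have hzs : zv t s = z := by
    unfold zv
    apply Complex.ext
    · rw [pow_two]
      simp [hzre]
      ring
    · rw [pow_two]
      simp [← hst]
  have hs0 : s ≠ 0 := by
    intro h
    rw [h, mul_zero] at hst
    exact hzim hst.symm
  have hs1 : |s| ≤ 1 := by
    have h4 : z.re + z.im ^ 2 ≤ 1 / 4 := hzP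
    rw [hzre, ← hst] at h4
    have h5 : s ^ 2 ≤ 1 := by
      by_contra hcon
      push Not at hcon
      nlinarith
    exact abs_le_one_iff_mul_self_le_one.2 (by nlinarith)
  obtain ⟨x, hx⟩ : ∃ x : ℝ, x = s / r := ⟨_, rfl⟩
  have hrx : (r : ℂ) * (x : ℂ) = (s : ℂ) := by
    rw [hx]; push_cast; field_simp
  have hfun : (fun z : ℂ => FF (zv t ((r : ℂ) * z))) =
      fun z => FF (-(t : ℂ) ^ 2 + (2 * I * t * r) * z) := by
    funext w
    unfold zv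
    congr 1
    ring
  have hder : iteratedDeriv n (fun z : ℂ => FF (zv t ((r : ℂ) * z))) (x : ℂ) =
      (2 * I * t * r) ^ n * iteratedDeriv n FF z := by
    rw [hfun, scale FF_diff]
    have : -(t : ℂ) ^ 2 + (2 * I * t * r) * (x : ℂ) = z := by
      rw [← hzs, ← hrx]
      unfold zv
      ring
    rw [this]
  have hzero : iteratedDeriv n (fun z : ℂ => FF (zv t ((r : ℂ) * z))) (x : ℂ) = 0 := by
    rw [hder, hz0, mul_zero]
  by_cases hc : κ1 ≤ |x|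
  · refine H2 n _ ((le_max_right _ _).trans hnn') (mono (min_le_right _ _) hQ) x hc ?_ hzero
    rw [hx, abs_div, abs_of_pos hrpos, div_le_iff₀ hrpos]
    have e2 : (1 : ℝ) ≤ 1 / r0 * r := by
      rw [div_mul_eq_mul_div, one_mul, le_div_iff₀ hr0]
      linarith
    have e3 : (R - 2) * r = 1 / r0 * r + r := by rw [hRdef]; ring
    rw [e3]
    linarith
  · push Not at hc
    obtain ⟨h5, -⟩ := H3 n _ ((le_max_left _ _).trans hnn') (mono (min_le_left _ _) hQ) x hc.le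
      hzero
    rw [hx] at h5
    exact hs0 ((div_eq_zero_iff.1 h5).resolve_right hrpos.ne')

end Pool.Agent.Zk17.J
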