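import Pool.Agent.H24R2.JP.All
import Pool.Agent.Zk17.J.WinJ

set_option autoImplicit false

/-!
# Zeros of `FF^(n)` up to height `exp (κ n)`, and Jensen polynomials of degree up to `exp (κ n)`
-/

namespace Pool.Agent.Zk17.J

open Complex Filter Topology Polynomial
open Pool.Agent.H24R2.JP
open Pool.Agent.H986R2.K4 (ZB)

namespace ChAux

lemma step {w z : ℂ} (hz : z ∈ Par) (h : ‖w - (z.re : ℂ)‖ ≤ |z.im|) :
    |√‖w‖ - √‖z‖| ≤ 2 := by
  have h1 := Pool.Agent.H24R2.JP.ChainAux.parent_norm hz h le_rfl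
  obtain ⟨a, ha⟩ : ∃ a : ℝ, a = √‖w‖ := ⟨_, rfl⟩
  obtain ⟨b, hb⟩ : ∃ b : ℝ, b = √‖z‖ := ⟨_, rfl⟩
  have ha0 : 0 ≤ a := by rw [ha]; exact Real.sqrt_nonneg _
  have hb0 : 0 ≤ b := by rw [hb]; exact Real.sqrt_nonneg _
  have ha2 : a ^ 2 = ‖w‖ := by rw [ha]; exact Real.sq_sqrt (norm_nonneg _)
  have hb2 : b ^ 2 = ‖z‖ := by rw [hb]; exact Real.sq_sqrt (norm_nonneg _)
  rw [← ha, ← hb]
  have h2 : √(‖w‖ + 1 / 2) ≤ a + 1 := by
    rw [Real.sqrt_le_left (by linarith), ← ha2]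
    nlinarith
  obtain ⟨y, hy⟩ : ∃ y : ℝ, y = |z.im| := ⟨_, rfl⟩
  have hy0 : 0 ≤ y := by rw [hy]; exact abs_nonneg _
  have h3 : y ^ 2 ≤ 1 / 4 + b ^ 2 := by
    have h4 : z.re + z.im ^ 2 ≤ 1 / 4 := hz
    have h5 : y ^ 2 = z.im ^ 2 := by rw [hy, sq_abs]
    have h6 := neg_abs_le z.re
    have h7 := Complex.abs_re_le_norm z
    rw [h5, hb2]; linarith
  have h8 : y ≤ b + 1 / 2 := by nlinarith
  have h9 : a ^ 2 ≤ b ^ 2 + y := by
    have h10 := norm_sub_norm_le w ((z.re : ℝ) : ℂ)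
    rw [Complex.norm_real, Real.norm_eq_abs] at h10
    have h7 := Complex.abs_re_le_norm z
    rw [ha2, hb2, hy]
    linarith
  have h11 : b ≤ a + 2 := by
    have : b ^ 2 ≤ (a + 2) ^ 2 := by
      rw [hb2]
      nlinarith
    exact le_of_sq_le_sq this (by linarith)
  have h12 : a ≤ b + 2 := by
    have : a ^ 2 ≤ (b + 2) ^ 2 := by nlinarith
    exact le_of_sq_le_sq this (by linarith)
  rw [abs_le]
  constructor <;> linarith

lemma desc (m : ℕ) : ∀ (k : ℕ) (w : ℂ), w.im ≠ 0 → iteratedDeriv (m + k) FF w = 0 →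
    ∃ z : ℂ, z.im ≠ 0 ∧ iteratedDeriv m FF z = 0 ∧ |√‖w‖ - √‖z‖| ≤ 2 * k := by
  intro k
  induction k with
  | zero => intro w h1 h2; exact ⟨w, h1, h2, by simp⟩
  | succ k ih =>
    intro w h1 h2
    obtain ⟨z1, h3, h4, h5⟩ := circT FF goodT (m + k) w h1 h2
    have h6 := step (parT FF goodT (m + k) z1 h4) h5
    obtain ⟨z, h7, h8, h9⟩ := ih z1 h3 h4
    refine ⟨z, h7, h8, ?_⟩
    have : |√‖w‖ - √‖z‖| ≤ |√‖w‖ - √‖z1‖| + |√‖z1‖ - √‖z‖| := abs_sub_le _ _ _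
    push_cast
    linarith

/-- A point of `Par` of norm `> 1` is `-t² + i s` with `t` close to the square root of its norm. -/
lemma par_t {z : ℂ} (hz : z ∈ Par) (h : 1 < ‖z‖) : ∃ t : ℝ, 0 ≤ t ∧ z.re = -t ^ 2 ∧ t ≤ √‖z‖ ∧
    √‖z‖ ≤ t + 1 := by
  have h4 : z.re + z.im ^ 2 ≤ 1 / 4 := hz
  have hneg : z.re < 0 := by
    by_contra hcon
    push Not at hcon
    have h5 := Complex.sq_norm z
    rw [Complex.normSq_apply] at h5
    nlinarith [sq_nonneg z.im]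
  refine ⟨√(-z.re), Real.sqrt_nonneg _, ?_, ?_, ?_⟩
  · rw [Real.sq_sqrt (by linarith)]; ring
  · apply Real.sqrt_le_sqrt
    have := Complex.abs_re_le_norm z
    rw [abs_of_neg hneg] at this
    exact this
  · rw [Real.sqrt_le_left (by positivity)]
    obtain ⟨t, ht⟩ : ∃ t : ℝ, t = √(-z.re) := ⟨_, rfl⟩
    have ht0 : 0 ≤ t := by rw [ht]; exact Real.sqrt_nonneg _
    have ht2 : t ^ 2 = -z.re := by rw [ht]; exact Real.sq_sqrt (by linarith)
    rw [← ht]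
    have h9 : ‖z‖ ≤ |z.re| + |z.im| := Complex.norm_le_abs_re_add_abs_im z
    rw [abs_of_neg hneg] at h9
    have h5 : |z.im| ^ 2 = z.im ^ 2 := sq_abs _
    have h6 := abs_nonneg z.im
    nlinarith

end ChAux

open ChAux

/-- Zeros of `FF^(n)` up to height `exp (κ n)` are real. -/
def UpZ (κ : ℝ) : Prop := ∃ N : ℕ, ∀ n : ℕ, N ≤ n → ∀ w : ℂ, ‖w‖ ≤ Real.exp (κ * n) →
  iteratedDeriv n FF w = 0 → w.im = 0

theorem chJ (r0 κ : ℝ) (hr0 : 0 < r0) (hr1 : r0 ≤ 1) (hNB : NoBadJ r0) (hκ : κ * r0 < 4) : UpZ κ := by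
  obtain ⟨N1, hN1⟩ := chainT
  obtain ⟨T0, hT0, hNB⟩ := hNB
  by_cases hk0 : κ ≤ 1 / 5
  · refine ⟨N1, fun n hn w hw hw0 => ?_⟩
    by_contra him
    have h1 := hN1 n hn w him hw0
    have h2 : Real.exp (κ * n) ≤ Real.exp (n / 5) := by
      apply Real.exp_le_exp.2
      have : (0 : ℝ) ≤ n := Nat.cast_nonneg n
      nlinarith
    linarith
  push Not at hk0
  obtain ⟨p, hp⟩ : ∃ p : ℝ, p = r0 * κ / 4 := ⟨_, rfl⟩
  have hp0 : 0 < p := by rw [hp]; positivity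
  have hp1 : p < 1 := by rw [hp]; linarith
  obtain ⟨δ, hδ⟩ : ∃ δ : ℝ, δ = (1 - p) / 2 := ⟨_, rfl⟩
  have hδ0 : 0 < δ := by rw [hδ]; linarith
  have hδ1 : δ ≤ 1 / 2 := by rw [hδ]; linarith
  have hδp : (1 + δ) * p < 1 := by
    rw [hδ]
    nlinarith
  refine ⟨max N1 (max 2000 (max ⌈T0⌉₊ (max ⌈25 / δ⌉₊ ⌈100 + 100 / r0⌉₊))), ?_⟩
  intro n hn w hw hw0
  have hn0 : N1 ≤ n := le_trans (le_max_left _ _) hn
  have hn' := le_trans (le_max_right _ _) hn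
  have hn1 : 2000 ≤ n := le_trans (le_max_left _ _) hn'
  have hn'' := le_trans (le_max_right _ _) hn'
  have hn2 : ⌈T0⌉₊ ≤ n := le_trans (le_max_left _ _) hn''
  have hn''' := le_trans (le_max_right _ _) hn''
  have hn3 : ⌈25 / δ⌉₊ ≤ n := le_trans (le_max_left _ _) hn'''
  have hn4 : ⌈100 + 100 / r0⌉₊ ≤ n := le_trans (le_max_right _ _) hn'''
  have hn1' : (2000 : ℝ) ≤ n := by exact_mod_cast hn1
  have hn2' : T0 ≤ n := Nat.ceil_le.1 hn2
  have hn3' : 25 / δ ≤ n := Nat.ceil_le.1 hn3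
  have hn4' : 100 + 100 / r0 ≤ n := Nat.ceil_le.1 hn4
  clear hn hn' hn'' hn''' hn1 hn2 hn3 hn4
  have hexp : 8 * (n : ℝ) + 4 ≤ Real.exp (n / 10) := by
    have h1 := Real.quadratic_le_exp_of_nonneg (x := (n : ℝ) / 10) (by positivity)
    nlinarith
  by_contra him
  have hlo := hN1 n hn0 w him hw0
  obtain ⟨a, ha⟩ : ∃ a : ℝ, a = √‖w‖ := ⟨_, rfl⟩
  have ha1 : Real.exp (n / 10) ≤ a := by
    rw [ha]
    apply Real.le_sqrt_of_sq_le
    rw [← Real.exp_nat_mul]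
    refine le_trans (le_of_eq ?_) hlo.le
    congr 1
    push_cast
    ring
  have ha2 : a ≤ Real.exp (κ * n / 2) := by
    rw [ha, Real.sqrt_le_left (Real.exp_pos _).le, ← Real.exp_nat_mul]
    refine hw.trans (le_of_eq ?_)
    congr 1
    push_cast
    ring
  have han : 8 * (n : ℝ) + 4 ≤ a := hexp.trans ha1
  have ha0 : 0 < a := by linarith
  have hO1 : (n : ℝ) / 20 ≤ Om a := by
    unfold Om
    have := (Real.le_log_iff_exp_le ha0).2 ha1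
    linarith
  have hO2 : Om a ≤ κ * n / 4 := by
    unfold Om
    have := (Real.log_le_iff_le_exp ha0).2 ha2
    linarith
  obtain ⟨x, hx⟩ : ∃ x : ℝ, x = (1 + δ) * r0 * Om a := ⟨_, rfl⟩
  have hO0 : 0 < Om a := by linarith
  have hx0 : 0 < x := by rw [hx]; positivity
  have hxn : x ≤ n := by
    have h1 : x ≤ (1 + δ) * r0 * (κ * n / 4) := by
      rw [hx]
      apply mul_le_mul_of_nonneg_left hO2
      positivity
    have h2 : (1 + δ) * r0 * (κ * n / 4) = ((1 + δ) * p) * n := by rw [hp]; ring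
    rw [h2] at h1
    nlinarith
  have hmn : ⌈x⌉₊ ≤ n := Nat.ceil_le.2 hxn
  obtain ⟨m, hm⟩ : ∃ m : ℕ, m = ⌈x⌉₊ := ⟨_, rfl⟩
  rw [← hm] at hmn
  have hm1 : x ≤ m := by rw [hm]; exact Nat.le_ceil x
  have hm2 : (m : ℝ) < x + 1 := by rw [hm]; exact Nat.ceil_lt_add_one hx0.le
  obtain ⟨k, hk⟩ := Nat.exists_eq_add_of_le hmn
  rw [hk] at hw0
  obtain ⟨z, hz1, hz2, hz3⟩ := desc m k w him hw0
  have hzP := parT FF goodT m z hz2
  have hkn : (k : ℝ) ≤ n := by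
    have : k ≤ n := by omega
    exact_mod_cast this
  rw [← ha] at hz3
  obtain ⟨b, hb⟩ : ∃ b : ℝ, b = √‖z‖ := ⟨_, rfl⟩
  have hb2 : b ^ 2 = ‖z‖ := by rw [hb]; exact Real.sq_sqrt (norm_nonneg _)
  rw [← hb] at hz3
  rw [abs_le] at hz3
  have hb1 : 1 < ‖z‖ := by
    rw [← hb2]
    nlinarith
  obtain ⟨t, ht0, ht1, ht2, ht3⟩ := par_t hzP hb1
  rw [← hb] at ht2 ht3
  have hz3 : a / 2 ≤ t := by linarith
  have hz4 : t ≤ 2 * a := by linarith
  have ht0' : 0 < t := by linarith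
  have hlog2 : Real.log 2 ≤ 1 := by
    have := Real.log_two_lt_d9
    linarith
  have hOz1 : Om t ≤ Om a + 1 / 2 := by
    unfold Om
    have h1 := Real.log_le_log ht0' hz4
    rw [Real.log_mul (by norm_num) ha0.ne'] at h1
    linarith
  have hOz2 : Om a - 1 / 2 ≤ Om t := by
    unfold Om
    have h1 := Real.log_le_log (by positivity) hz3
    rw [Real.log_div ha0.ne' (by norm_num)] at h1
    linarith
  have hT : T0 ≤ t := by linarith
  refine hNB t m hT ?_ ?_ z hzP ht1 hz1 hz2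
  · -- lower bound
    have h1 : 25 ≤ n * δ := by
      rw [div_le_iff₀ hδ0] at hn3'
      exact hn3'
    have h2 : Om t ≤ (1 + δ) * Om a := by nlinarith
    calc r0 * Om t ≤ r0 * ((1 + δ) * Om a) := mul_le_mul_of_nonneg_left h2 hr0.le
      _ = x := by rw [hx]; ring
      _ ≤ m := hm1
  · -- upper bound
    have h1 : 100 * r0 + 100 ≤ n * r0 := by
      have h2 := mul_le_mul_of_nonneg_right hn4' hr0.le
      have h3 : (100 + 100 / r0) * r0 = 100 * r0 + 100 := by field_simp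
      linarith
    have h4 : 2 * r0 + 2 ≤ r0 * Om a := by nlinarith
    have h5 : x ≤ 3 / 2 * (r0 * Om a) := by
      rw [hx]
      have : 0 < r0 * Om a := by positivity
      nlinarith
    have h6 : r0 * (Om a - 1 / 2) ≤ r0 * Om t := mul_le_mul_of_nonneg_left hOz2 hr0.le
    nlinarith

theorem upZ (y κ : ℝ) (hy0 : 0 ≤ y) (hy1 : y ≤ 1 / 2) (hZ : ZB y) (hκ : κ * y < 4) : UpZ κ := by
  rcases le_or_gt κ 0 with hk | hk
  · exact chJ 1 κ one_pos le_rfl (winJ y 1 hy0 hy1 hZ (by linarith) le_rfl) (by linarith)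
  · obtain ⟨r0, hr0⟩ : ∃ r0 : ℝ, r0 = min 1 ((y + 4 / κ) / 2) := ⟨_, rfl⟩
    have h1 : y < 4 / κ := by
      rw [lt_div_iff₀ hk]; linarith
    have h2 : y < r0 := by
      rw [hr0]
      exact lt_min (by linarith) (by linarith)
    have h3 : r0 ≤ 1 := by rw [hr0]; exact min_le_left _ _
    have h4 : κ * r0 < 4 := by
      have h5 : r0 ≤ (y + 4 / κ) / 2 := by rw [hr0]; exact min_le_right _ _
      calc κ * r0 ≤ κ * ((y + 4 / κ) / 2) := mul_le_mul_of_nonneg_left h5 hk.le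
        _ = (κ * y + 4) / 2 := by field_simp
        _ < 4 := by linarith
    exact chJ r0 κ (by linarith) h3 (winJ y r0 hy0 hy1 hZ h2 h3) h4

/-- Jensen polynomials of degree at most `exp (κ n)` and shift `n` are hyperbolic, `n ≥ N`. -/
def UpJ (κ : ℝ) (N : ℕ) : Prop := ∀ n d : ℕ, N ≤ n → (d : ℝ) ≤ Real.exp (κ * n) →
  Hyperbolic (jensen d n)

theorem upJ_of_upZ {κ κ' : ℝ} (h0 : 0 ≤ κ) (h : κ < κ') (hZ : UpZ κ') : ∃ N : ℕ, UpJ κ N := by
  obtain ⟨N, hN⟩ := hZ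
  refine ⟨max N ⌈Real.log 2 / (κ' - κ)⌉₊, ?_⟩
  intro n d hn hd z hz
  have hn1 : N ≤ n := le_trans (le_max_left _ _) hn
  have hn2 : Real.log 2 / (κ' - κ) ≤ n := Nat.ceil_le.1 (le_trans (le_max_right _ _) hn)
  rw [div_le_iff₀ (by linarith)] at hn2
  rw [Pool.Agent.H24R2.JP.RHa.aeval_jensen b1] at hz
  obtain ⟨A, hA⟩ : ∃ A : ℝ, A = Real.exp (κ * n) := ⟨_, rfl⟩
  obtain ⟨R, hR⟩ : ∃ R : ℝ, R = Real.exp (κ' * n) := ⟨_, rfl⟩
  have hA1 : 1 ≤ A := by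
    rw [hA]
    apply Real.one_le_exp
    positivity
  have hAR : 2 * A ≤ R := by
    rw [hA, hR]
    calc 2 * Real.exp (κ * n) = Real.exp (Real.log 2 + κ * n) := by
          rw [Real.exp_add, Real.exp_log two_pos]
      _ ≤ _ := Real.exp_le_exp.2 (by linarith)
  rw [← hA] at hd
  refine jensenT FF goodT n d R (by linarith) ?_ ?_ z hz
  · have : (d : ℝ) * (R + 1 / 4) ≤ A * (R + 1 / 4) := mul_le_mul_of_nonneg_right hd (by linarith)
    nlinarith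
  · intro w hw hw0
    exact hN n hn1 w (by rw [← hR]; exact hw) hw0

theorem fwdJ (y κ : ℝ) (hy0 : 0 ≤ y) (hy1 : y ≤ 1 / 2) (hZ : ZB y) (hκ : κ * y < 4) :
    ∃ N : ℕ, UpJ κ N := by
  obtain ⟨κ1, hκ1⟩ : ∃ κ1 : ℝ, κ1 = max κ 1 := ⟨_, rfl⟩
  have h1 : κ1 * y < 4 := by
    rw [hκ1]
    rcases max_choice κ 1 with h | h <;> rw [h] <;> linarith
  have h2 : 1 ≤ κ1 := by rw [hκ1]; exact le_max_right _ _
  have h3 : κ ≤ κ1 := by rw [hκ1]; exact le_max_left _ _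
  have h4 : ∃ κ' : ℝ, κ1 < κ' ∧ κ' * y < 4 := by
    rcases eq_or_lt_of_le hy0 with h | h
    · exact ⟨κ1 + 1, by linarith, by rw [← h]; norm_num⟩
    · refine ⟨(κ1 + 4 / y) / 2, ?_, ?_⟩
      · have : κ1 < 4 / y := by rw [lt_div_iff₀ h]; exact h1
        linarith
      · calc (κ1 + 4 / y) / 2 * y = (κ1 * y + 4) / 2 := by field_simp
          _ < 4 := by linarith
  obtain ⟨κ', h5, h6⟩ := h4
  obtain ⟨N, hN⟩ := upJ_of_upZ (by linarith) h5 (upZ y κ' hy0 hy1 hZ h6)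
  refine ⟨N, fun n d hn hd => hN n d hn (hd.trans (Real.exp_le_exp.2 ?_))⟩
  exact mul_le_mul_of_nonneg_right h3 (Nat.cast_nonneg n)

end Pool.Agent.Zk17.J
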