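import Pool.Agent.Zk17.J.AG

set_option autoImplicit false

/-!
# The abstract converse
-/

namespace Pool.Agent.Zk17.J

open Complex Filter Topology MeasureTheory Set
open Pool.Agent.H24R2.JP (XX HH Om)
open Pool.Agent.H986R2.K4 (S_LL S_HH S_SAB S_LR S_TAY)
open Pool.Agent.H986R2.K4.ConvAux (fact' grow)

lemma lowG (hL : S_LR) (hS : S_SAB) (hLL : S_LL) (hH : S_HH) (r' r1 KU : ℝ) (h1 : 1 / 10 ≤ r')
    (h2 : r' ≤ r1) (h3 : r1 < 1 / 2) (hKU : 1 ≤ KU) (η0 ε : ℝ) (hη0 : 0 < η0)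
    (hη0' : η0 ≤ (1 / 2 - r1) / 16) (hε : 0 < ε) :
    ∃ ε' K T0 : ℝ, 0 < ε' ∧ 2 ≤ T0 ∧ ∀ (T : ℝ) (n : ℕ) (G : ℂ → ℂ) (xp : ℝ), T0 ≤ T →
      AG T ε' KU G → r' * Om T ≤ n → (n : ℝ) ≤ r1 * Om T →
      (∀ s : ℂ, iteratedDeriv n G s = 0 → s.re = 0) →
      1 / 2 - (1 / 2 - r1) / 8 ≤ xp → xp < 1 / 2 →
      Real.exp (-(ε * n)) * T ^ (-ε) * (Real.exp (Om T * xp - K) * ‖HH (I * T)‖) ≤
        ‖∫ v in (0 : ℝ)..(xp - 2 * η0), iteratedDeriv n G ((xp : ℂ) - v) *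
          ((v : ℂ) ^ (n - 1) / ((n - 1).factorial : ℂ))‖ := by
  have hg0 : 0 < 1 / 2 - r1 := by linarith
  obtain ⟨η, n0, hη, hn0, hLR⟩ := hL ε η0 (1 / 2 - r1) hε hη0 (by linarith) hg0
  obtain ⟨ε', T1, hε', hT1, hGR⟩ := grG hS hLL hH r' r1 η0 (min η ε) KU (by linarith) h2 h3.le hη0
    (by linarith) (lt_min hη hε) hKU
  obtain ⟨K, hK, hHH⟩ := hH
  obtain ⟨T2, hT2, hHH⟩ := hHH 1 le_rfl
  refine ⟨ε', K + 1, max (max T1 T2) (Real.exp (2 * (n0 + 1) / r')), hε', ?_, ?_⟩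
  · exact le_trans hT1 (le_trans (le_max_left _ _) (le_max_left _ _))
  intro T n G xp hT hG hn1 hn2 hz hx1 hx2
  have hTT1 : T1 ≤ T := le_trans (le_trans (le_max_left _ _) (le_max_left _ _)) hT
  have hTT2 : T2 ≤ T := le_trans (le_trans (le_max_right _ _) (le_max_left _ _)) hT
  have hTT3 : Real.exp (2 * (n0 + 1) / r') ≤ T := le_trans (le_max_right _ _) hT
  have hT0 : 0 < T := by linarith
  have hT1' : 1 ≤ T := by linarith
  have hr'0 : 0 < r' := by linarith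
  have hlog : 2 * (n0 + 1) / r' ≤ Real.log T := by rwa [Real.le_log_iff_exp_le hT0]
  have hn0' : (n0 : ℝ) + 1 ≤ n := by
    refine le_trans ?_ hn1
    rw [div_le_iff₀ hr'0] at hlog
    unfold Pool.Agent.H24R2.JP.Om
    nlinarith
  have hnn0 : n0 ≤ n := by
    have : (n0 : ℝ) ≤ n := by linarith
    exact_mod_cast this
  have hn1' : 1 ≤ n := le_trans hn0 hnn0
  have hnpos : (0 : ℝ) < n := by exact_mod_cast hn1'
  have hOm : 0 < Om T := by
    by_contra hcon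
    push Not at hcon
    have : r1 * Om T ≤ 0 := mul_nonpos_of_nonneg_of_nonpos (by linarith) hcon
    linarith
  obtain ⟨r, hr⟩ : ∃ r : ℝ, r = n / Om T := ⟨_, rfl⟩
  have hrOm : r * Om T = n := by rw [hr]; field_simp
  have hr0 : 0 < r := by rw [hr]; positivity
  have hrr' : r' ≤ r := by rw [hr, le_div_iff₀ hOm]; exact hn1
  have hrr1 : r ≤ r1 := by rw [hr, div_le_iff₀ hOm]; exact hn2
  have hctl : ∀ u : ℂ, η0 ≤ u.re → u.re ≤ 1 → |u.im| ≤ 1 → iteratedDeriv n G u ≠ 0 ∧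
      ‖logDeriv (iteratedDeriv n G) u - (Om T : ℂ)‖ ≤ min η ε * Om T ∧
      T ^ (-(min η ε)) * (Om T ^ n * ‖HH (I * T + u)‖) ≤ ‖iteratedDeriv n G u‖ :=
    hGR T n G hTT1 hG hn1 hn2 hz
  obtain ⟨g, hg⟩ : ∃ g : ℂ → ℂ, g = iteratedDeriv n G := ⟨_, rfl⟩
  rw [← hg] at hctl ⊢
  have hgd : Differentiable ℂ g := by
    rw [hg]
    exact hG.diff.contDiff.differentiable_iteratedDeriv' n
  obtain ⟨x, hx⟩ : ∃ x : ℝ, x = xp - 2 * η0 := ⟨_, rfl⟩
  rw [← hx]
  obtain ⟨Y, hY⟩ : ∃ Y : ℝ, Y = x / r := ⟨_, rfl⟩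
  have hrY : r * Y = x := by rw [hY]; field_simp
  have hx0 : r1 + 3 / 4 * (1 / 2 - r1) ≤ x := by rw [hx]; linarith
  have hY1 : 1 + (1 / 2 - r1) ≤ Y := by
    rw [hY, le_div_iff₀ hr0]
    nlinarith
  have hY2 : Y ≤ 100 := by
    rw [hY, div_le_iff₀ hr0]
    nlinarith
  obtain ⟨F, hF⟩ : ∃ F : ℂ → ℂ, F = fun y => g ((xp : ℂ) - r * y) := ⟨_, rfl⟩
  have hFe : ∀ y, F y = g ((xp : ℂ) - r * y) := fun y => by rw [hF]
  -- the control
  have key := hLR n Y F hnn0 hY1 hY2 (by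
    intro y hy0 hyY w hw
    have hw' : ‖w - y‖ < η0 := by simpa [dist_eq_norm] using hw
    have hre : |w.re - y| < η0 := by
      have := abs_re_le_norm (w - y)
      simp only [sub_re, ofReal_re] at this
      linarith
    have him : |w.im| < η0 := by
      have := abs_im_le_norm (w - y)
      simp only [sub_im, ofReal_im, sub_zero] at this
      linarith
    have hre' := abs_lt.1 hre
    have hure : ((xp : ℂ) - r * w).re = xp - r * w.re := by simp
    have huim : ((xp : ℂ) - r * w).im = -(r * w.im) := by simp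
    have hry : r * y ≤ x := by rw [← hrY]; gcongr
    have hry0 : 0 ≤ r * y := by positivity
    have hr12 : r ≤ 1 / 2 := by linarith
    have c1 : η0 ≤ ((xp : ℂ) - r * w).re := by
      rw [hure]
      nlinarith
    have c2 : ((xp : ℂ) - r * w).re ≤ 1 := by
      rw [hure]
      nlinarith
    have c3 : |((xp : ℂ) - r * w).im| ≤ 1 := by
      rw [huim, abs_neg, abs_mul, abs_of_pos hr0]
      nlinarith [abs_nonneg w.im]
    obtain ⟨d1, d2, -⟩ := hctl _ c1 c2 c3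
    have hFd : HasDerivAt F (deriv g ((xp : ℂ) - r * w) * (-(r : ℂ))) w := by
      have h0 : HasDerivAt (fun y : ℂ => (xp : ℂ) - r * y) (-(r : ℂ)) w := by
        simpa using ((hasDerivAt_id w).const_mul (r : ℂ)).const_sub (xp : ℂ)
      rw [hF]
      exact HasDerivAt.comp w (hgd _).hasDerivAt h0
    refine ⟨hFd.differentiableAt, ?_, ?_⟩
    · rw [hFe]; exact d1
    · have e2 : logDeriv F w + n = -(r : ℂ) * (logDeriv g ((xp : ℂ) - r * w) - (Om T : ℂ)) := by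
        rw [logDeriv_apply, logDeriv_apply, hFd.deriv, hFe]
        have e3 : (n : ℂ) = (r : ℂ) * (Om T : ℂ) := by
          rw [← ofReal_mul, hrOm]; simp
        rw [e3]
        ring
      rw [e2, norm_mul, norm_neg, norm_real, Real.norm_eq_abs, abs_of_pos hr0]
      calc r * ‖logDeriv g ((xp : ℂ) - r * w) - (Om T : ℂ)‖ ≤ r * (min η ε * Om T) := by
            gcongr
        _ = min η ε * n := by rw [← hrOm]; ring
        _ ≤ η * n := by gcongr; exact min_le_left _ _)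
  -- value at 1
  have hF1 : T ^ (-ε) * (Om T ^ n * (Real.exp (Om T * (xp - r) - K) * ‖HH (I * T)‖)) ≤ ‖F 1‖ := by
    have e1 : F 1 = g ((xp - r : ℝ) : ℂ) := by
      rw [hFe]
      congr 1
      push_cast
      ring
    have hxr : x ≤ xp := by rw [hx]; linarith
    obtain ⟨-, -, d3⟩ := hctl ((xp - r : ℝ) : ℂ) (by
      rw [ofReal_re]; linarith) (by rw [ofReal_re]; linarith) (by simp)
    rw [e1]
    refine le_trans ?_ d3
    obtain ⟨-, -, -, b4, -⟩ := hHH T ((xp - r : ℝ) : ℂ) hTT2 (by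
      rw [norm_real, Real.norm_eq_abs, abs_le]
      constructor <;> linarith)
    rw [ofReal_re, mul_one] at b4
    have hpow : T ^ (-ε) ≤ T ^ (-(min η ε)) :=
      Real.rpow_le_rpow_of_exponent_le hT1' (by simpa using min_le_right η ε)
    have hTe : 0 ≤ T ^ (-ε) := Real.rpow_nonneg hT0.le _
    gcongr
  -- substitution
  have hsub : ‖∫ v in (0 : ℝ)..x, g ((xp : ℂ) - v) * ((v : ℂ) ^ (n - 1) / ((n - 1).factorial : ℂ))‖ =
      r ^ n / ((n - 1).factorial : ℝ) * ‖∫ y in (0 : ℝ)..Y, F y * (y : ℂ) ^ (n - 1)‖ := by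
    have e1 := intervalIntegral.smul_integral_comp_mul_left (a := 0) (b := Y)
      (fun v : ℝ => g ((xp : ℂ) - v) * ((v : ℂ) ^ (n - 1) / ((n - 1).factorial : ℂ))) r
    rw [mul_zero, hrY] at e1
    rw [← e1]
    have e2 : ∀ y : ℝ, g ((xp : ℂ) - ((r * y : ℝ) : ℂ)) *
        (((r * y : ℝ) : ℂ) ^ (n - 1) / ((n - 1).factorial : ℂ)) =
        ((r ^ (n - 1) / ((n - 1).factorial : ℝ) : ℝ) : ℂ) * (F y * (y : ℂ) ^ (n - 1)) := by
      intro y
      rw [hFe]
      push_cast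
      rw [mul_pow]
      ring
    simp_rw [e2]
    rw [intervalIntegral.integral_const_mul, norm_smul, norm_mul, norm_real, Real.norm_eq_abs,
      Real.norm_eq_abs, abs_of_pos hr0, abs_of_nonneg (by positivity), ← mul_assoc]
    congr 1
    rw [← mul_div_assoc]
    congr 1
    rw [← pow_succ']
    congr 1
    omega
  rw [hsub]
  have hfac := fact' n hn1'
  have hf : (0 : ℝ) < ((n - 1).factorial : ℝ) := by exact_mod_cast Nat.factorial_pos _
  have hTe : 0 ≤ T ^ (-ε) := Real.rpow_nonneg hT0.le _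
  calc Real.exp (-(ε * n)) * T ^ (-ε) * (Real.exp (Om T * xp - (K + 1)) * ‖HH (I * T)‖)
      = Real.exp (-1) * (Real.exp (-(ε * n)) * T ^ (-ε) * (Real.exp (Om T * xp - K) * ‖HH (I * T)‖)) := by
        have : Real.exp (Om T * xp - (K + 1)) = Real.exp (-1) * Real.exp (Om T * xp - K) := by
          rw [← Real.exp_add]; congr 1; ring
        rw [this]; ring
    _ ≤ ((n : ℝ) ^ n * Real.exp (-n) / ((n - 1).factorial : ℝ)) *
        (Real.exp (-(ε * n)) * T ^ (-ε) * (Real.exp (Om T * xp - K) * ‖HH (I * T)‖)) := by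
        gcongr
    _ = r ^ n / ((n - 1).factorial : ℝ) * (Real.exp (-(ε * n)) *
        (T ^ (-ε) * (Om T ^ n * (Real.exp (Om T * (xp - r) - K) * ‖HH (I * T)‖)))) := by
        have e1 : Real.exp (Om T * (xp - r) - K) = Real.exp (-n) * Real.exp (Om T * xp - K) := by
          rw [← Real.exp_add, ← hrOm]; congr 1; ring
        have e2 : (n : ℝ) ^ n = r ^ n * Om T ^ n := by rw [← mul_pow, hrOm]
        rw [e1, e2]
        ring
    _ ≤ r ^ n / ((n - 1).factorial : ℝ) * (Real.exp (-(ε * n)) * ‖F 1‖) := by gcongr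
    _ ≤ _ := by gcongr

/-- The abstract converse. -/
theorem convG (hL : S_LR) (hS : S_SAB) (hLL : S_LL) (hH : S_HH) (hT : S_TAY) (r' r1 KU C' c ε2 : ℝ)
    (h1 : 2 / 5 ≤ r') (h2 : r' < r1) (h3 : r1 < 1 / 2) (hKU : 1 ≤ KU) (hC' : 0 < C') (hc : 0 < c)
    (hε2p : 0 < ε2) (hε2g : ε2 ≤ (1 / 2 - r1) / 8) :
    ∃ ε' ε T0 : ℝ, 0 < ε' ∧ 0 < ε ∧ 2 ≤ T0 ∧ ∀ (T : ℝ) (n : ℕ) (G : ℂ → ℂ) (xp : ℝ), T0 ≤ T →
      AG T ε' KU G → r' * Om T ≤ n → (n : ℝ) ≤ r1 * Om T →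
      (∀ s : ℂ, iteratedDeriv n G s = 0 → s.re = 0) →
      (∀ u : ℂ, |u.re| ≤ 1 / 2 - ε2 → |u.im| ≤ 1 → ‖G u‖ ≤ C' * T ^ ((1 / 2 - r1) / 4 * ε2) *
        (Real.exp ((1 / 2 - ε2) * Om T) * ‖HH (I * T)‖)) →
      ‖G xp‖ ≤ T ^ (-c) * (Real.exp (Om T / 2) * ‖HH (I * T)‖) →
      1 / 2 - ε ≤ xp → xp < 1 / 2 → False := by
  obtain ⟨g0, hg0⟩ : ∃ g0 : ℝ, g0 = 1 / 2 - r1 := ⟨_, rfl⟩
  rw [← hg0] at hε2g ⊢
  have hg0p : 0 < g0 := by rw [hg0]; linarith
  have hg01 : g0 ≤ 1 / 10 := by rw [hg0]; linarith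
  obtain ⟨ν, hν⟩ : ∃ ν : ℝ, ν = g0 / 4 * ε2 := ⟨_, rfl⟩
  have hν0 : 0 < ν := by rw [hν]; positivity
  obtain ⟨ε, hε⟩ : ∃ ε : ℝ, ε = min (c / 4) (min (ε2 * g0 / 16) (g0 / 8)) := ⟨_, rfl⟩
  have hεp : 0 < ε := by rw [hε]; exact lt_min (by positivity) (lt_min (by positivity) (by positivity))
  have hεc : ε ≤ c / 4 := by rw [hε]; exact min_le_left _ _
  have hεg : ε ≤ ε2 * g0 / 16 := by rw [hε]; exact (min_le_right _ _).trans (min_le_left _ _)
  have hεg8 : ε ≤ g0 / 8 := by rw [hε]; exact (min_le_right _ _).trans (min_le_right _ _)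
  obtain ⟨ε', K, T4, hε', hT4, hlow⟩ := lowG hL hS hLL hH r' r1 KU (by linarith) h2.le h3 hKU (g0 / 16) ε
    (by linarith) (by rw [hg0]) hεp
  obtain ⟨K5, hK5, hHH⟩ := hH
  obtain ⟨T5, hT5, hHH⟩ := hHH 1 le_rfl
  obtain ⟨L0, hL01, hL0⟩ := grow (ε2 * g0 / 4) (2 * Real.exp K * C') (by positivity)
  obtain ⟨L1, hL11, hL1⟩ := grow c (2 * Real.exp K) hc
  refine ⟨ε', ε, max (max T4 T5) (Real.exp (2 * (L0 + L1 + 2))), hε', hεp,
    hT4.trans ((le_max_left _ _).trans (le_max_left _ _)), ?_⟩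
  intro T n G xp hTT hG hn1 hn2 hz hcc hdd hxp1 hxp3
  have hTT4 : T4 ≤ T := le_trans (le_trans (le_max_left _ _) (le_max_left _ _)) hTT
  have hTT5 : T5 ≤ T := le_trans (le_trans (le_max_right _ _) (le_max_left _ _)) hTT
  have hTT6 : Real.exp (2 * (L0 + L1 + 2)) ≤ T := le_trans (le_max_right _ _) hTT
  have hTp : 0 < T := by linarith
  obtain ⟨L, hLdef⟩ : ∃ L : ℝ, L = Om T := ⟨_, rfl⟩
  rw [← hLdef] at hn1 hn2 hdd
  have hLlog : Real.log T = 2 * L := by rw [hLdef]; unfold Pool.Agent.H24R2.JP.Om; ring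
  have hLbig : L0 + L1 + 2 ≤ L := by
    have : 2 * (L0 + L1 + 2) ≤ Real.log T := by
      rwa [Real.le_log_iff_exp_le hTp]
    linarith
  have hLpos : 0 < L := by linarith
  have hTpow : ∀ b : ℝ, T ^ b = Real.exp (2 * b * L) := by
    intro b
    rw [Real.rpow_def_of_pos hTp, hLlog]; congr 1; ring
  have hxp2 : 1 / 2 - g0 / 8 ≤ xp := by linarith
  have hlow := hlow T n G xp hTT4 hG (by rw [← hLdef]; exact hn1) (by rw [← hLdef]; exact hn2) hz
    (by rw [← hg0]; exact hxp2) hxp3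
  rw [← hLdef] at hlow
  obtain ⟨x, hx⟩ : ∃ x : ℝ, x = xp - 2 * (g0 / 16) := ⟨_, rfl⟩
  obtain ⟨ρ, hρ⟩ : ∃ ρ : ℝ, ρ = x - ε2 := ⟨_, rfl⟩
  rw [← hx] at hlow
  have hρ0 : r1 + 5 / 8 * g0 ≤ ρ := by rw [hρ, hx]; linarith
  have hρp : 0 < ρ := by linarith
  have hρh : ρ ≤ 1 / 2 := by rw [hρ, hx]; linarith
  obtain ⟨M, hM⟩ : ∃ M : ℝ, M = C' * T ^ ν * (Real.exp ((1 / 2 - ε2) * L) * ‖HH (I * T)‖) := ⟨_, rfl⟩
  have hn1' : 1 ≤ n := by
    have : (0 : ℝ) < n := lt_of_lt_of_le (by positivity) hn1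
    exact_mod_cast this
  have htay := hT G (xp : ℂ) x ρ M n hG.diff hn1' hρp
    (by rw [hρ]; linarith) (by
      intro w hw
      have hw1 : ‖w - ((xp : ℂ) - (x : ℂ))‖ ≤ ρ := by simpa [dist_eq_norm] using hw
      have b1 := (Complex.abs_re_le_norm _).trans hw1
      have b2 := (Complex.abs_im_le_norm _).trans hw1
      rw [Complex.sub_re, Complex.sub_re, Complex.ofReal_re, Complex.ofReal_re, abs_le] at b1
      rw [Complex.sub_im, Complex.sub_im, Complex.ofReal_im, Complex.ofReal_im, sub_zero, sub_zero] at b2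
      rw [hM, hν, hLdef]
      apply hcc w _ (b2.trans (by linarith))
      rw [abs_le]
      constructor
      · linarith
      · linarith)
  -- numerics
  obtain ⟨-, hHne, -⟩ := hHH T 0 hTT5 (by simp)
  rw [add_zero] at hHne
  have hHp : 0 < ‖HH (I * T)‖ := norm_pos_iff.2 hHne
  obtain ⟨H, hHdef⟩ : ∃ H : ℝ, H = ‖HH (I * T)‖ := ⟨_, rfl⟩
  rw [← hHdef] at hHp hlow hdd hM
  have hxρ : (x / ρ) ^ n ≤ Real.exp (ε2 * (1 - g0) * L) := by
    have h1 : x / ρ ≤ Real.exp (ε2 / ρ) := by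
      have : x / ρ = ε2 / ρ + 1 := by
        rw [hρ] at hρp ⊢
        field_simp
        ring
      rw [this]
      exact Real.add_one_le_exp _
    have h2 : (x / ρ) ^ n ≤ Real.exp (ε2 / ρ) ^ n := by
      have : 0 ≤ x / ρ := by
        have : 0 ≤ x := by linarith
        positivity
      gcongr
    refine h2.trans ?_
    rw [← Real.exp_nat_mul]
    apply Real.exp_le_exp.2
    have h3 : (n : ℝ) * (ε2 / ρ) ≤ r1 * L * (ε2 / ρ) := by gcongr
    have h4 : r1 / ρ ≤ 1 - g0 := by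
      rw [div_le_iff₀ hρp]
      have : g0 * ρ ≤ g0 * (1 / 2) := by gcongr
      linarith
    have h5 : r1 * L * (ε2 / ρ) = ε2 * (r1 / ρ) * L := by ring
    rw [h5] at h3
    refine h3.trans ?_
    gcongr
  have hup : (n : ℝ) * (x / ρ) ^ n * M ≤
      L * C' * Real.exp (L / 2 - ε2 * g0 / 2 * L) * H := by
    have hMp : 0 ≤ M := by rw [hM]; positivity
    have hnL : (n : ℝ) ≤ L := by
      have : r1 * L ≤ 1 * L := by gcongr; linarith
      linarith
    have hx0 : 0 ≤ (x / ρ) ^ n := by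
      have : 0 ≤ x := by linarith
      positivity
    calc (n : ℝ) * (x / ρ) ^ n * M ≤ L * Real.exp (ε2 * (1 - g0) * L) * M := by gcongr
      _ = L * C' * (Real.exp (ε2 * (1 - g0) * L) * Real.exp (2 * ν * L) *
            Real.exp ((1 / 2 - ε2) * L)) * H := by
          rw [hM, hTpow]; ring
      _ = _ := by
          have e1 : Real.exp (ε2 * (1 - g0) * L) * Real.exp (2 * ν * L) *
              Real.exp ((1 / 2 - ε2) * L) = Real.exp (L / 2 - ε2 * g0 / 2 * L) := by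
            rw [← Real.exp_add, ← Real.exp_add, hν]
            congr 1
            ring
          rw [e1]
  have hlo : Real.exp (L / 2 - 4 * ε * L - K) * H ≤
      Real.exp (-(ε * n)) * T ^ (-ε) * (Real.exp (L * xp - K) * H) := by
    rw [hTpow]
    have : Real.exp (L / 2 - 4 * ε * L - K) ≤
        Real.exp (-(ε * n)) * Real.exp (2 * -ε * L) * Real.exp (L * xp - K) := by
      rw [← Real.exp_add, ← Real.exp_add]
      apply Real.exp_le_exp.2
      have h1 : ε * n ≤ ε * L := by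
        have h0 : r1 * L ≤ 1 * L := by gcongr; linarith
        have : (n : ℝ) ≤ L := by linarith
        gcongr
      have h2 : L * (1 / 2 - ε) ≤ L * xp := by gcongr
      nlinarith
    calc _ ≤ (Real.exp (-(ε * n)) * Real.exp (2 * -ε * L) * Real.exp (L * xp - K)) * H := by
          gcongr
      _ = _ := by ring
  have hint : ‖∫ v in (0 : ℝ)..x, iteratedDeriv n G ((xp : ℂ) - v) *
      ((v : ℂ) ^ (n - 1) / ((n - 1).factorial : ℂ))‖ ≤ ‖G xp‖ + n * (x / ρ) ^ n * M := by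
    obtain ⟨J, hJ⟩ : ∃ J : ℂ, J = ∫ v in (0 : ℝ)..x, iteratedDeriv n G ((xp : ℂ) - v) *
      ((v : ℂ) ^ (n - 1) / ((n - 1).factorial : ℂ)) := ⟨_, rfl⟩
    rw [← hJ] at htay ⊢
    have := norm_sub_norm_le J (G xp)
    rw [norm_sub_rev] at this
    linarith
  have hall := hlo.trans (hlow.trans (hint.trans (add_le_add hdd hup)))
  rw [hTpow] at hall
  have hall2 : Real.exp (L / 2 - 4 * ε * L - K) ≤ Real.exp (2 * -c * L) * Real.exp (L / 2) +
      L * C' * Real.exp (L / 2 - ε2 * g0 / 2 * L) := by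
    have : Real.exp (L / 2 - 4 * ε * L - K) * H ≤ (Real.exp (2 * -c * L) * Real.exp (L / 2) +
      L * C' * Real.exp (L / 2 - ε2 * g0 / 2 * L)) * H := by
      refine hall.trans (le_of_eq ?_)
      ring
    exact le_of_mul_le_mul_right this hHp
  -- multiply by exp (K - L/2 + 4 ε L)
  have h6 := hL0 L (by linarith)
  have h7 := hL1 L (by linarith)
  obtain ⟨E, hE⟩ : ∃ E : ℝ, E = Real.exp (K - L / 2 + 4 * ε * L) := ⟨_, rfl⟩
  have hEp : 0 < E := by rw [hE]; exact Real.exp_pos _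
  have h8 : 1 ≤ E * (Real.exp (2 * -c * L) * Real.exp (L / 2) +
      L * C' * Real.exp (L / 2 - ε2 * g0 / 2 * L)) := by
    have e1 : E * Real.exp (L / 2 - 4 * ε * L - K) = 1 := by
      rw [hE, ← Real.exp_add]
      have : K - L / 2 + 4 * ε * L + (L / 2 - 4 * ε * L - K) = 0 := by ring
      rw [this, Real.exp_zero]
    rw [← e1]
    exact mul_le_mul_of_nonneg_left hall2 hEp.le
  have h9 : E * (Real.exp (2 * -c * L) * Real.exp (L / 2)) ≤ Real.exp K * Real.exp (-(c * L)) := by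
    rw [hE, ← Real.exp_add, ← Real.exp_add, ← Real.exp_add]
    apply Real.exp_le_exp.2
    have : 4 * ε * L ≤ c * L := by
      have := mul_le_mul_of_nonneg_right hεc hLpos.le
      linarith
    linarith
  have h10 : E * (L * C' * Real.exp (L / 2 - ε2 * g0 / 2 * L)) ≤
      Real.exp K * (L * C') * Real.exp (-(ε2 * g0 / 4 * L)) := by
    have : E * Real.exp (L / 2 - ε2 * g0 / 2 * L) ≤ Real.exp K * Real.exp (-(ε2 * g0 / 4 * L)) := by
      rw [hE, ← Real.exp_add, ← Real.exp_add]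
      apply Real.exp_le_exp.2
      have : 4 * ε * L ≤ ε2 * g0 / 4 * L := by
        have := mul_le_mul_of_nonneg_right hεg hLpos.le
        linarith
      linarith
    calc E * (L * C' * Real.exp (L / 2 - ε2 * g0 / 2 * L)) =
        (L * C') * (E * Real.exp (L / 2 - ε2 * g0 / 2 * L)) := by ring
      _ ≤ (L * C') * (Real.exp K * Real.exp (-(ε2 * g0 / 4 * L))) := by gcongr
      _ = _ := by ring
  have h11 : Real.exp K * Real.exp (-(c * L)) < 1 / 2 := by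
    rw [Real.exp_neg, ← div_eq_mul_inv, div_lt_iff₀ (Real.exp_pos _)]
    have : 2 * Real.exp K * 1 ≤ 2 * Real.exp K * L := by
      have := Real.exp_pos K
      gcongr
      linarith
    linarith
  have h12 : Real.exp K * (L * C') * Real.exp (-(ε2 * g0 / 4 * L)) < 1 / 2 := by
    rw [Real.exp_neg, ← div_eq_mul_inv, div_lt_iff₀ (Real.exp_pos _)]
    linarith
  rw [mul_add] at h8
  linarith

end Pool.Agent.Zk17.J
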