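import Pool.Agent.Zk17.J.CC
import Pool.Agent.Zk17.J.ConvG
import Pool.Agent.Zk17.J.ChJ

set_option autoImplicit false

/-!
# The converse theorem
-/

namespace Pool.Agent.Zk17.J

open Complex Filter Topology
open Pool.Agent.H24R2.JP (XX FF HH Om b1 jensen Hyperbolic)
open Pool.Agent.H986R2.K4 (ZB hh a1 pl vdcQ v0 lr sab ll tay)
open Pool.Agent.H986R2.K4.WinAux (scale)

theorem convJ (κ : ℝ) (hκ : 8 < κ) (hN : ∃ N : ℕ, UpJ κ N) :
    ∃ y : ℝ, y < 1 / 2 ∧ ∀ s : ℂ, 1 / 2 + y < s.re → riemannZeta s ≠ 0 := by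
  by_contra hcon
  push Not at hcon
  obtain ⟨N, hN⟩ := hN
  obtain ⟨κ0, hκ0⟩ : ∃ κ0 : ℝ, κ0 = min κ 9 := ⟨_, rfl⟩
  have hκ04 : 8 < κ0 := by rw [hκ0]; exact lt_min hκ (by norm_num)
  have hκ05 : κ0 ≤ 9 := by rw [hκ0]; exact min_le_right _ _
  have hκ0κ : κ0 ≤ κ := by rw [hκ0]; exact min_le_left _ _
  obtain ⟨a, ha⟩ : ∃ a : ℝ, a = 4 / κ0 := ⟨_, rfl⟩
  have haκ : a * κ0 = 4 := by rw [ha]; field_simp
  have ha1 : 4 / 9 ≤ a := by
    rw [ha]; gcongr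
  have ha2 : a < 1 / 2 := by
    rw [ha, div_lt_iff₀ (by linarith)]; linarith
  obtain ⟨r', hr'⟩ : ∃ r' : ℝ, r' = (a + 1 / 2) / 2 := ⟨_, rfl⟩
  obtain ⟨r1, hr1⟩ : ∃ r1 : ℝ, r1 = (r' + 1 / 2) / 2 := ⟨_, rfl⟩
  obtain ⟨g0, hg0⟩ : ∃ g0 : ℝ, g0 = 1 / 2 - r1 := ⟨_, rfl⟩
  have hr'1 : 2 / 5 ≤ r' := by rw [hr']; linarith
  have har' : a < r' := by rw [hr']; linarith
  have hr'r1 : r' < r1 := by rw [hr1]; linarith
  have hr1h : r1 < 1 / 2 := by rw [hr1]; linarith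
  have hg0p : 0 < g0 := by rw [hg0]; linarith
  have hg01 : g0 ≤ 1 / 10 := by rw [hg0]; linarith
  have hr'0 : 0 < r' := by linarith
  -- the exponent b
  obtain ⟨e, he⟩ : ∃ e : ℝ, e = κ0 * r' / 2 - 2 := ⟨_, rfl⟩
  have he0 : 0 < e := by
    have h1 : a * κ0 < r' * κ0 := by gcongr
    rw [haκ] at h1
    rw [he]
    linarith
  obtain ⟨b, hb⟩ : ∃ b : ℝ, b = min 1 (e / 4) := ⟨_, rfl⟩
  have hb0 : 0 < b := by rw [hb]; exact lt_min one_pos (by positivity)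
  have hb1 : b ≤ 1 := by rw [hb]; exact min_le_left _ _
  have hbe : b ≤ e / 4 := by rw [hb]; exact min_le_right _ _
  -- van der Corput
  obtain ⟨e0, he0', he01, hV⟩ := vdcQ (g0 / 8) (by linarith)
  obtain ⟨ε2, hε2⟩ : ∃ ε2 : ℝ, ε2 = min (g0 / 8) e0 := ⟨_, rfl⟩
  have hε2p : 0 < ε2 := by rw [hε2]; exact lt_min (by linarith) he0'
  have hε2g : ε2 ≤ g0 / 8 := by rw [hε2]; exact min_le_left _ _
  have hε2e : ε2 ≤ e0 := by rw [hε2]; exact min_le_right _ _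
  obtain ⟨ε2', hε2'⟩ : ∃ ε2' : ℝ, ε2' = (1 - g0 / 4) * ε2 := ⟨_, rfl⟩
  have hε2'p : 0 < ε2' := by rw [hε2']; apply mul_pos _ hε2p; linarith
  have hε2'2 : ε2' < ε2 := by rw [hε2']; nlinarith
  obtain ⟨C, hC, hV⟩ := hV ε2' hε2'p (by linarith)
  obtain ⟨ν, hν⟩ : ∃ ν : ℝ, ν = g0 / 8 * ε2' := ⟨_, rfl⟩
  have hν0 : 0 < ν := by rw [hν]; positivity
  have hν1 : ν ≤ 1 := by rw [hν]; nlinarith
  obtain ⟨C', T3, hC', hT3, hPL⟩ := pl hh (1 / 2 - ε2') ν C 2 2 (by linarith) (by linarith) hν0.le hν1 hC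
    (by norm_num) (by norm_num) (by
      intro t ht
      have := hV t ht
      have e : (1 / 2 : ℂ) + ((1 / 2 - ε2' : ℝ) : ℂ) + t * I = 1 - ε2' + t * I := by
        push_cast; ring
      rw [e, hν]; exact this)
  obtain ⟨T4, hT4, hn2⟩ := n2 b ε2 ε2' ν C' T3 hb0 hb1 hε2'p hε2'2 (by linarith) hC' hν0.le hPL
  obtain ⟨T5, hT5, hn3⟩ := n3 b hb0 hb1
  obtain ⟨KU, hKU, hAG⟩ := agPD
  obtain ⟨ε', ε, T6, hε', hε, hT6, hconv⟩ := convG lr sab ll hh tay r' r1 KU (2 * C' + 1) (b / 4) ε2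
    hr'1 hr'r1 hr1h hKU (by linarith) (by positivity) hε2p (by rw [← hg0]; exact hε2g)
  rw [← hg0] at hconv
  obtain ⟨ε1, hε1⟩ : ∃ ε1 : ℝ, ε1 = min ε' (1 / 2) := ⟨_, rfl⟩
  have hε10 : 0 < ε1 := by rw [hε1]; exact lt_min hε' (by norm_num)
  obtain ⟨T7, hT7, hAG⟩ := hAG b ε1 hb0 hb1 hε10 (by rw [hε1]; exact min_le_right _ _)
  -- large T
  have hgap : 0 < r1 - r' := by linarith
  have hOmT : Tendsto Om atTop atTop := by
    unfold Pool.Agent.H24R2.JP.Om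
    exact Real.tendsto_log_atTop.atTop_div_const (by norm_num)
  have ev1 : ∀ᶠ T : ℝ in atTop, ((N : ℝ) + 1) / r' + 1 / (r1 - r') ≤ Om T :=
    hOmT.eventually_ge_atTop _
  have ev2 : ∀ᶠ T : ℝ in atTop, (2 : ℝ) ≤ T ^ (e / 2) :=
    (tendsto_rpow_atTop (by positivity)).eventually_ge_atTop _
  obtain ⟨T8, hT8⟩ := eventually_atTop.1 (ev1.and ev2)
  obtain ⟨s, hs0, hs1, hs2, hs3⟩ := v0 hcon (min ε (1 / 4))
    (max (max T4 T5) (max (max T6 T7) T8)) (lt_min hε (by norm_num))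
  obtain ⟨T, hT⟩ : ∃ T : ℝ, T = s.im := ⟨_, rfl⟩
  rw [← hT] at hs3
  have hTT4 : T4 ≤ T := ((le_max_left _ _).trans (le_max_left _ _)).trans hs3
  have hTT5 : T5 ≤ T := ((le_max_right _ _).trans (le_max_left _ _)).trans hs3
  have hTT6 : T6 ≤ T :=
    ((le_max_left _ _).trans ((le_max_left _ _).trans (le_max_right _ _))).trans hs3
  have hTT7 : T7 ≤ T :=
    ((le_max_right _ _).trans ((le_max_left _ _).trans (le_max_right _ _))).trans hs3
  obtain ⟨hv1, hv2⟩ := hT8 T (((le_max_right _ _).trans (le_max_right _ _)).trans hs3)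
  have hT2000 : 2000 ≤ T := by linarith
  have hTp : 0 < T := by linarith
  have hlog0 : 0 < Real.log T := Real.log_pos (by linarith)
  have hOm : Om T = Real.log T / 2 := rfl
  have hOm0 : 0 < Om T := by rw [hOm]; linarith
  have hq1 : 0 ≤ ((N : ℝ) + 1) / r' := by positivity
  have hq2 : 0 < 1 / (r1 - r') := by positivity
  have hLN : ((N : ℝ) + 1) / r' ≤ Om T := by linarith
  have hLg : 1 / (r1 - r') ≤ Om T := by linarith
  obtain ⟨n, hn⟩ : ∃ n : ℕ, n = ⌈r' * Om T⌉₊ := ⟨_, rfl⟩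
  have hn1 : r' * Om T ≤ n := by rw [hn]; exact Nat.le_ceil _
  have hn2' : (n : ℝ) ≤ r1 * Om T := by
    have h1 : (n : ℝ) < r' * Om T + 1 := by rw [hn]; exact Nat.ceil_lt_add_one (by positivity)
    rw [div_le_iff₀ hgap] at hLg
    linarith
  have hNn : N ≤ n := by
    have : (N : ℝ) ≤ n := by
      rw [div_le_iff₀ hr'0] at hLN
      linarith
    exact_mod_cast this
  -- the degree
  obtain ⟨D, hD⟩ : ∃ D : ℕ, D = ⌈T ^ (2 + 2 * b)⌉₊ := ⟨_, rfl⟩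
  have hTb0 : 0 < T ^ (2 + 2 * b) := Real.rpow_pos_of_pos hTp _
  have hD1 : T ^ (2 + 2 * b) ≤ D := by rw [hD]; exact Nat.le_ceil _
  have hD2 : (D : ℝ) ≤ 2 * T ^ (2 + 2 * b) := by
    have h1 : (D : ℝ) < T ^ (2 + 2 * b) + 1 := by rw [hD]; exact Nat.ceil_lt_add_one hTb0.le
    have h2 : (1 : ℝ) ≤ T ^ (2 + 2 * b) := Real.one_le_rpow (by linarith) (by linarith)
    linarith
  have hD5 : (D : ℝ) ≤ T ^ (5 : ℝ) := by
    refine hD2.trans ?_
    have h1 : T ^ (2 + 2 * b) ≤ T ^ (4 : ℝ) := Real.rpow_le_rpow_of_exponent_le (by linarith) (by linarith)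
    have h2 : T ^ (5 : ℝ) = T * T ^ (4 : ℝ) := by
      nth_rewrite 2 [← Real.rpow_one T]
      rw [← Real.rpow_add hTp]; norm_num
    have h3 : 0 < T ^ (4 : ℝ) := Real.rpow_pos_of_pos hTp _
    rw [h2]
    nlinarith
  have hTD : T ≤ D := by
    refine le_trans ?_ hD1
    calc T = T ^ (1 : ℝ) := (Real.rpow_one T).symm
      _ ≤ _ := Real.rpow_le_rpow_of_exponent_le (by linarith) (by linarith)
  have hnD : n ≤ D := by
    have h1 : (n : ℝ) ≤ D := by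
      refine hn2'.trans (le_trans ?_ hTD)
      have h2 := Real.log_le_sub_one_of_pos hTp
      rw [hOm]
      nlinarith
    exact_mod_cast h1
  have hDpos : 0 < D := by
    have : (0 : ℝ) < D := by linarith
    exact_mod_cast this
  have hDκ : ((D - n : ℕ) : ℝ) ≤ Real.exp (κ * n) := by
    have h1 : ((D - n : ℕ) : ℝ) ≤ D := by
      have : D - n ≤ D := Nat.sub_le _ _
      exact_mod_cast this
    refine h1.trans (hD2.trans ?_)
    have h2 : T ^ (κ0 * r' / 2) ≤ Real.exp (κ * n) := by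
      rw [Real.rpow_def_of_pos hTp]
      apply Real.exp_le_exp.2
      have h0 : 0 ≤ r' * Om T := by positivity
      calc Real.log T * (κ0 * r' / 2) = κ0 * (r' * Om T) := by rw [hOm]; ring
        _ ≤ κ * n := mul_le_mul hκ0κ hn1 h0 (by linarith)
    refine le_trans ?_ h2
    calc 2 * T ^ (2 + 2 * b) ≤ T ^ (e / 2) * T ^ (2 + 2 * b) :=
          mul_le_mul_of_nonneg_right hv2 hTb0.le
      _ = T ^ (e / 2 + (2 + 2 * b)) := (Real.rpow_add hTp _ _).symm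
      _ ≤ T ^ (κ0 * r' / 2) := by
          apply Real.rpow_le_rpow_of_exponent_le (by linarith)
          have : κ0 * r' / 2 = e + 2 := by rw [he]; ring
          rw [this]
          linarith
  have hhyp : Hyperbolic (jensen (D - n) n) := hN n (D - n) hNn hDκ
  -- zeros of the derivative
  have hfun : (fun u => PD D (zv T u)) = fun u => PD D (-(T : ℂ) ^ 2 + (2 * I * T) * u) := by
    funext u; rfl
  have hzeros : ∀ u : ℂ, iteratedDeriv n (fun u => PD D (zv T u)) u = 0 → u.re = 0 := by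
    intro u hu
    rw [hfun, scale (PD_diff D)] at hu
    have hTc : (T : ℂ) ≠ 0 := by exact_mod_cast hTp.ne'
    have h1 := (mul_eq_zero.1 hu).resolve_left
      (pow_ne_zero _ (mul_ne_zero (mul_ne_zero two_ne_zero I_ne_zero) hTc))
    have h2 := PD_zero hnD hDpos hhyp _ h1
    have h3 : (-(T : ℂ) ^ 2 + 2 * I * T * u).im = 2 * T * u.re := by
      rw [pow_two]
      simp
    rw [h3] at h2
    have h4 : 2 * T ≠ 0 := by positivity
    exact (mul_eq_zero.1 h2).resolve_left h4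
  -- the zero of zeta
  obtain ⟨xp, hxp⟩ : ∃ xp : ℝ, xp = s.re - 1 / 2 := ⟨_, rfl⟩
  have hxp1 : 1 / 2 - ε ≤ xp := by
    have := min_le_left ε (1 / 4)
    rw [hxp]; linarith
  have hxp2 : 0 ≤ xp := by
    have := min_le_right ε (1 / 4)
    rw [hxp]; linarith
  have hxp3 : xp < 1 / 2 := by rw [hxp]; linarith
  have hXX : XX (I * T + (xp : ℂ)) = 0 := by
    rw [Pool.Agent.H24R2.JP.zetaS.1 _ (by simpa using hTp)]
    have : (1 / 2 : ℂ) + (I * T + (xp : ℂ)) = s := by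
      apply Complex.ext
      · simp [hxp]
      · simp [hT]
    rw [this, hs0, mul_zero]
  have hag := (hAG T D hTT7 hD1 hD5).mono (by linarith) (show ε1 ≤ ε' by rw [hε1]; exact min_le_left _ _)
  refine hconv T n (fun u => PD D (zv T u)) xp hTT6 hag hn1 hn2' hzeros ?_ ?_ hxp1 hxp3
  · intro u h1 h2
    refine (hn2 T D hTT4 hD1 hD5 u h1 h2).trans ?_
    apply mul_le_mul_of_nonneg_right _ (by positivity)
    apply mul_le_mul_of_nonneg_left _ (by linarith)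
    apply Real.rpow_le_rpow_of_exponent_le (by linarith)
    rw [hν, hε2']
    nlinarith
  · exact hn3 T D xp hTT5 hD1 hD5 hxp2 hxp3.le hXX

end Pool.Agent.Zk17.J
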