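import Pool.Agent.Zk17.J.WB
import Pool.Agent.H24R2.DZ.XB

set_option autoImplicit false

/-!
# Growth estimates
-/

namespace Pool.Agent.Zk17.J

open Complex Filter Topology
open Pool.Agent.H24R2.JP (XX FF HH Om b1 growT)
open Pool.Agent.H24R2.DZ.XBAux (hhb seg xsymm)
open Pool.Agent.H24R2.JP.StirAux (bound1 HH_ne)

/-- growth of `XX` in large discs -/
lemma xgrow : ∃ K : ℝ, 1 ≤ K ∧ ∀ (t : ℝ) (v : ℂ), 400 ≤ t → ‖v‖ ≤ t / 4 →
    ‖XX (I * t + v)‖ ≤ Real.exp (K * (1 + ‖v‖) * Real.log t) * ‖HH (I * t)‖ := by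
  obtain ⟨K1, hK1, hh⟩ := hhb
  obtain ⟨hX, K2, hK2, hz⟩ := Pool.Agent.H24R2.JP.zetaS
  have hlK : 0 ≤ Real.log (3 * K2) := Real.log_nonneg (by linarith)
  refine ⟨K1 + (Real.log (3 * K2) + 1), by linarith, ?_⟩
  intro t v ht hv
  have ht0 : 0 < t := by linarith
  have hlog : 1 ≤ Real.log t := by
    rw [Real.le_log_iff_exp_le ht0]
    have := Real.exp_one_lt_d9
    linarith
  have hHn : 0 ≤ ‖HH (I * t)‖ := norm_nonneg _
  have hup : ∀ v : ℂ, ‖v‖ ≤ t / 4 → 0 ≤ v.re → ‖XX (I * t + v)‖ ≤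
      Real.exp ((K1 + (Real.log (3 * K2) + 1)) * (1 + ‖v‖) * Real.log t) * ‖HH (I * t)‖ := by
    intro v hv hvr
    have hR : max 1 ‖v‖ ≤ 1 + ‖v‖ := max_le (by linarith [norm_nonneg v]) (by linarith)
    have hR4 : 4 * max 1 ‖v‖ ≤ t := by
      have : max 1 ‖v‖ ≤ t / 4 := max_le (by linarith) hv
      linarith
    obtain ⟨h1, h2, -, -⟩ := hh (max 1 ‖v‖) t v (le_max_left _ _) ht hR4 (le_max_right _ _)
    have him := Complex.abs_im_le_norm v
    have him2 := abs_le.1 (him.trans hv)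
    rw [hX _ h1, norm_mul]
    have h3 : ‖riemannZeta (1 / 2 + (I * t + v))‖ ≤ 3 * K2 * t := by
      have h4 := hz (1 / 2 + (I * t + v)) 1 (by simp; linarith) (by simp; linarith) le_rfl
      simp only [Finset.Icc_self, Finset.sum_singleton, Nat.cast_one, Complex.one_cpow,
        Real.one_rpow, mul_one] at h4
      have h5 : ‖(1 / 2 + (I * t + v) : ℂ)‖ ≤ 1 / 2 + (t + t / 4) := by
        refine (norm_add_le _ _).trans ?_
        refine add_le_add (by norm_num) ((norm_add_le _ _).trans ?_)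
        refine add_le_add ?_ hv
        rw [norm_mul, Complex.norm_I, one_mul, Complex.norm_real, Real.norm_eq_abs, abs_of_pos ht0]
      have h6 := norm_sub_norm_le (riemannZeta (1 / 2 + (I * t + v))) 1
      rw [norm_one] at h6
      have h7 : K2 * ‖(1 / 2 + (I * t + v) : ℂ)‖ ≤ K2 * (2 * t) := by
        apply mul_le_mul_of_nonneg_left _ (by linarith)
        linarith
      have h8 : 1 ≤ K2 * t := by nlinarith
      linarith
    have hv0 := norm_nonneg v
    have h4 : 3 * K2 * t ≤ Real.exp ((Real.log (3 * K2) + 1) * Real.log t) := by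
      have : Real.log (3 * K2 * t) ≤ (Real.log (3 * K2) + 1) * Real.log t := by
        rw [Real.log_mul (by positivity) ht0.ne']
        nlinarith
      calc 3 * K2 * t = Real.exp (Real.log (3 * K2 * t)) := (Real.exp_log (by positivity)).symm
        _ ≤ _ := Real.exp_le_exp.2 this
    calc ‖HH (I * t + v)‖ * ‖riemannZeta (1 / 2 + (I * t + v))‖
        ≤ (Real.exp (K1 * max 1 ‖v‖ * Real.log t) * ‖HH (I * t)‖) *
          Real.exp ((Real.log (3 * K2) + 1) * Real.log t) := by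
          gcongr
          exact h3.trans h4
      _ = Real.exp (K1 * max 1 ‖v‖ * Real.log t + (Real.log (3 * K2) + 1) * Real.log t) *
          ‖HH (I * t)‖ := by
          rw [Real.exp_add]; ring
      _ ≤ _ := by
          apply mul_le_mul_of_nonneg_right _ hHn
          apply Real.exp_le_exp.2
          have g1 : K1 * max 1 ‖v‖ * Real.log t ≤ K1 * (1 + ‖v‖) * Real.log t := by gcongr
          have g2 : (Real.log (3 * K2) + 1) * Real.log t ≤
              (Real.log (3 * K2) + 1) * (1 + ‖v‖) * Real.log t := by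
            have : 0 ≤ (Real.log (3 * K2) + 1) * Real.log t := by positivity
            nlinarith
          calc _ ≤ K1 * (1 + ‖v‖) * Real.log t + (Real.log (3 * K2) + 1) * (1 + ‖v‖) * Real.log t :=
                add_le_add g1 g2
            _ = _ := by ring
  rcases le_or_gt 0 v.re with h | h
  · exact hup v hv h
  · have h1 := hup (-((starRingEnd ℂ) v)) (by rw [norm_neg, RCLike.norm_conj]; exact hv)
      (by simp; linarith)
    have e : I * t + -((starRingEnd ℂ) v) = -((starRingEnd ℂ) (I * t + v)) := by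
      simp only [map_add, map_mul, Complex.conj_I, Complex.conj_ofReal]
      ring
    rw [e, xsymm, RCLike.norm_conj, norm_neg, RCLike.norm_conj] at h1
    exact h1

/-- crude lower bound for `HH (i t)` -/
lemma hlow : ∃ K : ℝ, 1 ≤ K ∧ ∀ t : ℝ, 400 ≤ t → 1 ≤ Real.exp (K * t * Real.log t) * ‖HH (I * t)‖ := by
  obtain ⟨K, hK, hb⟩ := bound1
  obtain ⟨c, hc⟩ : ∃ c : ℝ, c = |Real.log ‖HH (I * (400 : ℝ))‖| := ⟨_, rfl⟩
  have hc0 : 0 ≤ c := by rw [hc]; exact abs_nonneg _
  have hH4 : 0 < ‖HH (I * (400 : ℝ))‖ := norm_pos_iff.2 (HH_ne (by simp))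
  have hH5 : Real.exp (-c) ≤ ‖HH (I * (400 : ℝ))‖ := by
    rw [← Real.exp_log hH4]
    apply Real.exp_le_exp.2
    rw [hc]
    exact neg_abs_le _
  refine ⟨K + 1 + c, by linarith, ?_⟩
  intro t ht
  have ht0 : 0 < t := by linarith
  have hlog : 1 ≤ Real.log t := by
    rw [Real.le_log_iff_exp_le ht0]
    have := Real.exp_one_lt_d9
    linarith
  have h1 := seg (I * t) (I * ((400 - t : ℝ) : ℂ)) ((K + 1) * t * Real.log t) (by positivity) (by
    intro x hx
    obtain ⟨y, hy⟩ : ∃ y : ℝ, y = t - x * (t - 400) := ⟨_, rfl⟩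
    have hy1 : 400 ≤ y := by
      rw [hy]
      nlinarith [hx.1, hx.2]
    have hy2 : y ≤ t := by
      rw [hy]
      nlinarith [hx.1, hx.2]
    have e : I * (t : ℂ) + (x : ℂ) * (I * ((400 - t : ℝ) : ℂ)) = I * (y : ℂ) := by
      rw [hy]; push_cast; ring
    rw [e]
    obtain ⟨h2, h3⟩ := hb y (I * y) hy1 (by rw [sub_self, norm_zero]; linarith)
    refine ⟨h2, ?_⟩
    have h4 : ‖logDeriv HH (I * y)‖ ≤ K + Real.log t := by
      have h5 : ‖logDeriv HH (I * y)‖ ≤ ‖logDeriv HH (I * y) - (Om y : ℂ)‖ + ‖(Om y : ℂ)‖ := by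
        have := norm_add_le (logDeriv HH (I * y) - (Om y : ℂ)) (Om y : ℂ)
        rwa [sub_add_cancel] at this
      have h6 : ‖(Om y : ℂ)‖ ≤ Real.log t := by
        have h7 : 0 ≤ Real.log y := Real.log_nonneg (by linarith)
        have h8 : Real.log y ≤ Real.log t := Real.log_le_log (by linarith) hy2
        rw [Complex.norm_real, Real.norm_eq_abs]
        unfold Pool.Agent.H24R2.JP.Om
        rw [abs_of_nonneg (by linarith)]
        linarith
      linarith
    have h5 : ‖I * ((400 - t : ℝ) : ℂ)‖ ≤ t := by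
      rw [norm_mul, Complex.norm_I, one_mul, Complex.norm_real, Real.norm_eq_abs, abs_le]
      constructor <;> linarith
    calc ‖logDeriv HH (I * y)‖ * ‖I * ((400 - t : ℝ) : ℂ)‖ ≤ (K + Real.log t) * t := by gcongr
      _ ≤ (K * Real.log t + Real.log t) * t := by
          gcongr
          nlinarith
      _ = _ := by ring)
  have e2 : I * (t : ℂ) + I * ((400 - t : ℝ) : ℂ) = I * (400 : ℝ) := by push_cast; ring
  rw [e2] at h1
  have h2 := hH5.trans h1
  have h3 : 1 ≤ Real.exp c * (Real.exp ((K + 1) * t * Real.log t) * ‖HH (I * t)‖) := by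
    have := mul_le_mul_of_nonneg_left h2 (Real.exp_pos c).le
    rwa [← Real.exp_add, add_neg_cancel, Real.exp_zero] at this
  refine h3.trans ?_
  rw [← mul_assoc, ← Real.exp_add]
  apply mul_le_mul_of_nonneg_right _ (norm_nonneg _)
  apply Real.exp_le_exp.2
  have : c ≤ c * (t * Real.log t) := by
    have : 1 ≤ t * Real.log t := by nlinarith
    nlinarith
  nlinarith

/-- the rotated point -/
lemma rot {T : ℝ} (hT : 0 < T) (u : ℂ) (η : ℝ) :
    FF (zv T u * cexp (I * η)) = XX (wv T u * cexp (I * η / 2)) := by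
  have h : zv T u * cexp (I * η) = (wv T u * cexp (I * η / 2)) ^ 2 := by
    rw [mul_pow, wv_sq hT.ne', ← Complex.exp_nat_mul]
    congr 2
    push_cast
    ring
  rw [h, b1.2.1]

lemma norm_rot (η : ℝ) : ‖cexp (I * η / 2)‖ = 1 := by
  have : I * (η : ℂ) / 2 = ((η / 2 : ℝ) : ℂ) * I := by push_cast; ring
  rw [this, Complex.norm_exp_ofReal_mul_I]

lemma norm_rot_sub (η : ℝ) : ‖cexp (I * η / 2) - 1‖ ≤ |η| / 2 := by
  have : I * (η : ℂ) / 2 = I * ((η / 2 : ℝ) : ℂ) := by push_cast; ring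
  rw [this]
  have := Real.norm_exp_I_mul_ofReal_sub_one_le (x := η / 2)
  refine this.trans (le_of_eq ?_)
  rw [Real.norm_eq_abs, abs_div, abs_two]

/-- position of the rotated point -/
lemma rot_pos {T : ℝ} (hT : 2000 ≤ T) {u : ℂ} (hu : ‖u‖ ≤ 25) (η : ℝ) :
    ‖wv T u - I * T‖ ≤ 26 ∧ ‖wv T u * cexp (I * η / 2) - wv T u‖ ≤ T * |η| ∧
    ‖wv T u * cexp (I * η / 2) - I * T‖ ≤ 26 + T * |η| := by
  have hT0 : 0 < T := by linarith
  have h1 : ‖wv T u - I * T‖ ≤ 26 := by
    have h2 := norm_wv_sub hT0 u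
    have h3 : 2 * ‖u‖ ^ 2 / T ≤ 1 := by
      rw [div_le_one hT0]
      nlinarith [norm_nonneg u]
    have h4 := norm_add_le (wv T u - (I * T + u)) u
    have e : wv T u - (I * T + u) + u = wv T u - I * T := by ring
    rw [e] at h4
    linarith
  have h2 : ‖wv T u‖ ≤ T + 26 := by
    have h4 := norm_add_le (wv T u - I * T) (I * T)
    rw [sub_add_cancel, norm_mul, Complex.norm_I, one_mul, Complex.norm_real, Real.norm_eq_abs,
      abs_of_pos hT0] at h4
    linarith
  have h3 : ‖wv T u * cexp (I * η / 2) - wv T u‖ ≤ T * |η| := by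
    have e : wv T u * cexp (I * η / 2) - wv T u = wv T u * (cexp (I * η / 2) - 1) := by ring
    rw [e, norm_mul]
    calc ‖wv T u‖ * ‖cexp (I * η / 2) - 1‖ ≤ (T + 26) * (|η| / 2) := by
          apply mul_le_mul h2 (norm_rot_sub η) (norm_nonneg _) (by linarith)
      _ ≤ (2 * T) * (|η| / 2) := by
          apply mul_le_mul_of_nonneg_right _ (by positivity)
          linarith
      _ = T * |η| := by ring
  refine ⟨h1, h3, ?_⟩
  have h4 := norm_add_le (wv T u * cexp (I * η / 2) - wv T u) (wv T u - I * T)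
  rw [sub_add_sub_cancel] at h4
  linarith

lemma norm_zv_le {T : ℝ} (hT : 2000 ≤ T) {u : ℂ} (hu : ‖u‖ ≤ 25) : 1 + ‖zv T u‖ ≤ 2 * T ^ 2 := by
  unfold zv
  have h1 : ‖-(T : ℂ) ^ 2 + 2 * I * T * u‖ ≤ T ^ 2 + 2 * T * ‖u‖ := by
    refine (norm_add_le _ _).trans ?_
    rw [norm_neg, norm_pow, norm_mul, norm_mul, norm_mul, Complex.norm_I, Complex.norm_real,
      Real.norm_eq_abs, abs_of_pos (by linarith : (0 : ℝ) < T)]
    have : ‖(2 : ℂ)‖ = 2 := by norm_num
    rw [this, mul_one]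
  nlinarith [norm_nonneg u]

/-- everything that has to hold for large `T` -/
lemma ev_large (b M : ℝ) (hb : 0 < b) (hb1 : b ≤ 1) (hM : 1 ≤ M) : ∀ᶠ T : ℝ in atTop, 2000 ≤ T ∧
    M * Real.log T + T ^ (b / 2) + 1 ≤ T ^ b / 10 ∧
    M * (T ^ (3 / 2 : ℝ) + T * Real.log T) + T ^ (b / 2) + 1 ≤ T ^ (2 : ℝ) / 320 := by
  have l1 : ∀ᶠ T : ℝ in atTop, M * Real.log T ≤ T ^ b / 30 := by
    have h := (isLittleO_log_rpow_atTop hb).bound (show 0 < (30 * M)⁻¹ by positivity)
    filter_upwards [h, eventually_ge_atTop (1 : ℝ)] with x hx hx1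
    rw [Real.norm_eq_abs, Real.norm_eq_abs, abs_of_nonneg (Real.log_nonneg hx1),
      abs_of_nonneg (Real.rpow_nonneg (by linarith) _)] at hx
    calc M * Real.log x ≤ M * ((30 * M)⁻¹ * x ^ b) := mul_le_mul_of_nonneg_left hx (by linarith)
      _ = x ^ b / 30 := by field_simp
  have l2 : ∀ᶠ T : ℝ in atTop, (30 : ℝ) ≤ T ^ (b / 2) :=
    (tendsto_rpow_atTop (by positivity)).eventually_ge_atTop _
  have l3 : ∀ᶠ T : ℝ in atTop, M * Real.log T ≤ T ^ (1 : ℝ) / 1600 := by
    have h := (isLittleO_log_rpow_atTop (r := 1) (by norm_num)).bound (show 0 < (1600 * M)⁻¹ by positivity)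
    filter_upwards [h, eventually_ge_atTop (1 : ℝ)] with x hx hx1
    rw [Real.norm_eq_abs, Real.norm_eq_abs, abs_of_nonneg (Real.log_nonneg hx1),
      abs_of_nonneg (Real.rpow_nonneg (by linarith) _)] at hx
    calc M * Real.log x ≤ M * ((1600 * M)⁻¹ * x ^ (1 : ℝ)) := mul_le_mul_of_nonneg_left hx (by linarith)
      _ = x ^ (1 : ℝ) / 1600 := by field_simp
  have l4 : ∀ᶠ T : ℝ in atTop, 1600 * M ≤ T ^ (1 / 2 : ℝ) :=
    (tendsto_rpow_atTop (by positivity)).eventually_ge_atTop _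
  filter_upwards [l1, l2, l3, l4, eventually_ge_atTop (2000 : ℝ)] with T h1 h2 h3 h4 h5
  have hT0 : 0 < T := by linarith
  have e1 : T ^ b = T ^ (b / 2) * T ^ (b / 2) := by
    rw [← Real.rpow_add hT0]; congr 1; ring
  refine ⟨h5, ?_, ?_⟩
  · have : T ^ (b / 2) * 30 ≤ T ^ b := by
      rw [e1]
      apply mul_le_mul_of_nonneg_left h2 (by linarith)
    nlinarith
  · rw [Real.rpow_one] at h3
    have e2 : T ^ (3 / 2 : ℝ) * T ^ (1 / 2 : ℝ) = T ^ (2 : ℝ) := by
      rw [← Real.rpow_add hT0]; norm_num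
    have e3 : T ^ (2 : ℝ) = T * T := by
      rw [show (2 : ℝ) = ((2 : ℕ) : ℝ) by norm_num, Real.rpow_natCast]; ring
    have e4 : T ^ (b / 2) ≤ T := by
      calc T ^ (b / 2) ≤ T ^ (1 : ℝ) := Real.rpow_le_rpow_of_exponent_le (by linarith) (by linarith)
        _ = T := Real.rpow_one T
    have g1 : M * T ^ (3 / 2 : ℝ) ≤ T ^ (2 : ℝ) / 1600 := by
      rw [← e2]
      have : 0 < T ^ (3 / 2 : ℝ) := Real.rpow_pos_of_pos hT0 _
      have := mul_le_mul_of_nonneg_left h4 this.le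
      linarith
    have g2 : M * (T * Real.log T) ≤ T ^ (2 : ℝ) / 1600 := by
      rw [e3]
      have := mul_le_mul_of_nonneg_left h3 hT0.le
      nlinarith
    have g3 : T + 1 ≤ T ^ (2 : ℝ) / 1600 := by
      rw [e3]
      nlinarith
    rw [mul_add]
    nlinarith

/-- the far part -/
lemma far (b K0 : ℝ) (hb : 0 < b) (hb1 : b ≤ 1) (hK0 : 0 ≤ K0) : ∃ T0 : ℝ, 2000 ≤ T0 ∧
    ∀ (T : ℝ) (D : ℕ) (u : ℂ) (η : ℝ), T0 ≤ T → T ^ (2 + 2 * b) ≤ D → ‖u‖ ≤ 25 →
    T ^ (-1 - b / 2) ≤ |η| → |η| ≤ Real.pi →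
    Real.exp (-(D * η ^ 2 / 5)) * (‖FF (zv T u * cexp (I * η))‖ + T ^ K0 * ‖HH (I * T)‖) ≤
      Real.exp (-T ^ (b / 2)) * ‖HH (I * T)‖ := by
  obtain ⟨K1, hK1, hx⟩ := xgrow
  obtain ⟨K2, hK2, hl⟩ := hlow
  obtain ⟨K3, hg⟩ := growT
  obtain ⟨M, hM⟩ : ∃ M : ℝ, M = 27 * K1 + K0 + K2 + 2 * |K3| := ⟨_, rfl⟩
  have hM1 : 1 ≤ M := by rw [hM]; linarith [abs_nonneg K3]
  obtain ⟨T0, hT0⟩ := eventually_atTop.1 (ev_large b M hb hb1 hM1)
  refine ⟨max 2000 T0, le_max_left _ _, ?_⟩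
  intro T D u η hT hD hu hη1 hη2
  obtain ⟨hT1, hv1, hv2⟩ := hT0 T ((le_max_right _ _).trans hT)
  have hTp : 0 < T := by linarith
  have hlog : 1 ≤ Real.log T := by
    rw [Real.le_log_iff_exp_le hTp]
    have := Real.exp_one_lt_d9
    linarith
  obtain ⟨H, hH⟩ : ∃ H : ℝ, H = ‖HH (I * T)‖ := ⟨_, rfl⟩
  have hH0 : 0 ≤ H := by rw [hH]; exact norm_nonneg _
  have hb2 : 0 < T ^ (b / 2) := Real.rpow_pos_of_pos hTp _
  -- lower bound for the gaussian exponent
  obtain ⟨y, hy⟩ : ∃ y : ℝ, y = T ^ (b / 2) * (T * |η|) := ⟨_, rfl⟩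
  have hy1 : 1 ≤ y := by
    have e : T ^ (b / 2) * (T * T ^ (-1 - b / 2)) = 1 := by
      have h1 : T * T ^ (-1 - b / 2) = T ^ (-(b / 2)) := by
        nth_rewrite 1 [← Real.rpow_one T]
        rw [← Real.rpow_add hTp]; congr 1; ring
      rw [h1, ← Real.rpow_add hTp, add_neg_cancel, Real.rpow_zero]
    rw [← e, hy]
    gcongr
  have hyx : T * |η| ≤ y := by
    rw [hy]
    have : 1 ≤ T ^ (b / 2) := Real.one_le_rpow (by linarith) (by positivity)
    have h2 : 0 ≤ T * |η| := by positivity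
    nlinarith
  have hDy : T ^ b * y ^ 2 ≤ D * η ^ 2 := by
    have e : T ^ b * y ^ 2 = T ^ (2 + 2 * b) * η ^ 2 := by
      rw [hy, mul_pow, mul_pow, sq_abs, ← Real.rpow_natCast (T ^ (b / 2)), ← Real.rpow_mul hTp.le,
        ← Real.rpow_natCast T]
      have : T ^ b * (T ^ (b / 2 * ((2 : ℕ) : ℝ)) * (T ^ ((2 : ℕ) : ℝ) * η ^ 2)) =
        (T ^ b * T ^ (b / 2 * ((2 : ℕ) : ℝ)) * T ^ ((2 : ℕ) : ℝ)) * η ^ 2 := by ring
      rw [this, ← Real.rpow_add hTp, ← Real.rpow_add hTp]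
      congr 2
      push_cast
      ring
    rw [e]
    exact mul_le_mul_of_nonneg_right hD (sq_nonneg _)
  have hTb : 0 < T ^ b := Real.rpow_pos_of_pos hTp _
  have hDb : T ^ b * (1 + y) / 2 ≤ D * η ^ 2 := by
    have : T ^ b * ((1 + y) / 2) ≤ T ^ b * y ^ 2 := by
      apply mul_le_mul_of_nonneg_left _ hTb.le
      nlinarith
    linarith
  have hlog0 : 0 ≤ Real.log T := by linarith
  -- the constant term
  have hA : Real.exp (-(D * η ^ 2 / 5)) * (T ^ K0 * H) ≤ Real.exp (-T ^ (b / 2) - 1) * H := by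
    rw [← mul_assoc, Real.rpow_def_of_pos hTp, ← Real.exp_add]
    apply mul_le_mul_of_nonneg_right _ hH0
    apply Real.exp_le_exp.2
    have h1 : K0 * Real.log T ≤ M * Real.log T := by
      apply mul_le_mul_of_nonneg_right _ hlog0
      rw [hM]; linarith [abs_nonneg K3]
    have h2 : T ^ b / 10 ≤ D * η ^ 2 / 5 := by
      have : T ^ b * 1 ≤ T ^ b * (1 + y) := mul_le_mul_of_nonneg_left (by linarith) hTb.le
      linarith
    linarith
  have hB : Real.exp (-(D * η ^ 2 / 5)) * ‖FF (zv T u * cexp (I * η))‖ ≤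
      Real.exp (-T ^ (b / 2) - 1) * H := by
    rcases le_total |η| (1 / 8) with h | h
    · -- moderate angles
      obtain ⟨-, -, h3⟩ := rot_pos hT1 hu η
      have h4 := hx T (wv T u * cexp (I * η / 2) - I * T) (by linarith) (by
        have : T * |η| ≤ T * (1 / 8) := mul_le_mul_of_nonneg_left h hTp.le
        linarith)
      rw [add_sub_cancel, ← rot hTp, ← hH] at h4
      refine (mul_le_mul_of_nonneg_left h4 (Real.exp_pos _).le).trans ?_
      rw [← mul_assoc, ← Real.exp_add]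
      apply mul_le_mul_of_nonneg_right _ hH0
      apply Real.exp_le_exp.2
      have h5 : K1 * (1 + ‖wv T u * cexp (I * η / 2) - I * T‖) * Real.log T ≤
          M * Real.log T * (1 + y) := by
        have h6 : K1 * (1 + ‖wv T u * cexp (I * η / 2) - I * T‖) ≤ M * (1 + y) := by
          calc K1 * (1 + ‖wv T u * cexp (I * η / 2) - I * T‖) ≤ K1 * (27 * (1 + y)) := by
                apply mul_le_mul_of_nonneg_left _ (by linarith)
                linarith
            _ = (27 * K1) * (1 + y) := by ring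
            _ ≤ M * (1 + y) := by
                apply mul_le_mul_of_nonneg_right _ (by linarith)
                rw [hM]; linarith [abs_nonneg K3]
        have := mul_le_mul_of_nonneg_right h6 hlog0
        linarith
      have h7 : (M * Real.log T + T ^ (b / 2) + 1) * (1 + y) ≤ T ^ b / 10 * (1 + y) :=
        mul_le_mul_of_nonneg_right hv1 (by linarith)
      have h8 : T ^ (b / 2) + 1 ≤ (T ^ (b / 2) + 1) * (1 + y) := by nlinarith
      nlinarith
    · -- large angles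
      have h3 := hg (zv T u * cexp (I * η))
      have h4 : ‖zv T u * cexp (I * η)‖ = ‖zv T u‖ := by
        rw [norm_mul, mul_comm I, Complex.norm_exp_ofReal_mul_I, mul_one]
      rw [h4] at h3
      have h5 : (1 + ‖zv T u‖) ^ (3 / 4 : ℝ) ≤ 2 * T ^ (3 / 2 : ℝ) := by
        calc (1 + ‖zv T u‖) ^ (3 / 4 : ℝ) ≤ (2 * T ^ 2) ^ (3 / 4 : ℝ) :=
              Real.rpow_le_rpow (by positivity) (norm_zv_le hT1 hu) (by norm_num)
          _ = 2 ^ (3 / 4 : ℝ) * T ^ (3 / 2 : ℝ) := by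
              rw [Real.mul_rpow (by norm_num) (by positivity), ← Real.rpow_natCast T,
                ← Real.rpow_mul hTp.le]
              norm_num
          _ ≤ 2 * T ^ (3 / 2 : ℝ) := by
              apply mul_le_mul_of_nonneg_right _ (Real.rpow_nonneg hTp.le _)
              calc (2 : ℝ) ^ (3 / 4 : ℝ) ≤ 2 ^ (1 : ℝ) :=
                    Real.rpow_le_rpow_of_exponent_le (by norm_num) (by norm_num)
                _ = 2 := Real.rpow_one 2
      have h6 : K3 * (1 + ‖zv T u‖) ^ (3 / 4 : ℝ) ≤ |K3| * (2 * T ^ (3 / 2 : ℝ)) := by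
        calc K3 * (1 + ‖zv T u‖) ^ (3 / 4 : ℝ) ≤ |K3| * (1 + ‖zv T u‖) ^ (3 / 4 : ℝ) :=
              mul_le_mul_of_nonneg_right (le_abs_self _) (Real.rpow_nonneg (by positivity) _)
          _ ≤ _ := mul_le_mul_of_nonneg_left h5 (abs_nonneg _)
      have h7 := hl T (by linarith)
      rw [← hH] at h7
      have h8 : ‖FF (zv T u * cexp (I * η))‖ ≤ Real.exp (|K3| * (2 * T ^ (3 / 2 : ℝ)) +
          K2 * T * Real.log T) * H := by
        rw [Real.exp_add, mul_assoc]
        calc ‖FF (zv T u * cexp (I * η))‖ ≤ Real.exp (|K3| * (2 * T ^ (3 / 2 : ℝ))) :=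
              h3.trans (Real.exp_le_exp.2 h6)
          _ = Real.exp (|K3| * (2 * T ^ (3 / 2 : ℝ))) * 1 := (mul_one _).symm
          _ ≤ _ := mul_le_mul_of_nonneg_left h7 (Real.exp_pos _).le
      refine (mul_le_mul_of_nonneg_left h8 (Real.exp_pos _).le).trans ?_
      rw [← mul_assoc, ← Real.exp_add]
      apply mul_le_mul_of_nonneg_right _ hH0
      apply Real.exp_le_exp.2
      have h9 : T ^ (2 : ℝ) / 320 ≤ D * η ^ 2 / 5 := by
        have h10 : (1 / 64 : ℝ) ≤ η ^ 2 := by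
          rw [← sq_abs]
          nlinarith
        have h11 : T ^ (2 : ℝ) ≤ D :=
          (Real.rpow_le_rpow_of_exponent_le (by linarith) (by linarith)).trans hD
        have h12 : T ^ (2 : ℝ) * (1 / 64) ≤ D * η ^ 2 := by
          apply mul_le_mul h11 h10 (by norm_num) (Nat.cast_nonneg _)
        linarith
      have h14 : |K3| * (2 * T ^ (3 / 2 : ℝ)) + K2 * T * Real.log T ≤
          M * (T ^ (3 / 2 : ℝ) + T * Real.log T) := by
        have g1 : 2 * |K3| * T ^ (3 / 2 : ℝ) ≤ M * T ^ (3 / 2 : ℝ) := by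
          apply mul_le_mul_of_nonneg_right _ (Real.rpow_nonneg hTp.le _)
          rw [hM]; linarith
        have g2 : K2 * (T * Real.log T) ≤ M * (T * Real.log T) := by
          apply mul_le_mul_of_nonneg_right _ (by positivity)
          rw [hM]; linarith [abs_nonneg K3]
        rw [mul_add]
        linarith
      linarith
  calc Real.exp (-(D * η ^ 2 / 5)) * (‖FF (zv T u * cexp (I * η))‖ + T ^ K0 * ‖HH (I * T)‖)
      = Real.exp (-(D * η ^ 2 / 5)) * ‖FF (zv T u * cexp (I * η))‖ +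
        Real.exp (-(D * η ^ 2 / 5)) * (T ^ K0 * H) := by rw [← hH]; ring
    _ ≤ Real.exp (-T ^ (b / 2) - 1) * H + Real.exp (-T ^ (b / 2) - 1) * H := add_le_add hB hA
    _ = (2 * Real.exp (-1)) * (Real.exp (-T ^ (b / 2)) * H) := by
        rw [sub_eq_add_neg, Real.exp_add]; ring
    _ ≤ 1 * (Real.exp (-T ^ (b / 2)) * H) := by
        apply mul_le_mul_of_nonneg_right _ (by positivity)
        have h1 : Real.exp (-1) ≤ 1 / 2 := by
          rw [Real.exp_neg, inv_eq_one_div]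
          apply one_div_le_one_div_of_le (by norm_num)
          have := Real.exp_one_gt_d9
          linarith
        linarith
    _ = _ := by rw [one_mul, hH]

end Pool.Agent.Zk17.J
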