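import Pool.Agent.H24R2.JP.All
import Pool.Agent.Zk17.J.Sq

set_option autoImplicit false

/-!
# The Jensen polynomial `PD D z = J^{D,0}(z/D)` as an average of `FF`
-/

namespace Pool.Agent.Zk17.J

open Complex Filter Topology Polynomial
open Pool.Agent.H24R2.JP

/-- The Jensen polynomial of degree `D` and shift `0` at `z / D`. -/
noncomputable def PD (D : ℕ) (z : ℂ) : ℂ := aeval (z / D) (jensen D 0)

lemma jensen_coeff (d n j : ℕ) : (jensen d n).coeff j = (d.choose j : ℝ) * gam (n + j) := by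
  unfold jensen
  rw [Polynomial.finsetSum_coeff]
  simp only [Polynomial.coeff_C_mul, Polynomial.coeff_X_pow]
  rcases le_or_gt j d with h | h
  · rw [Finset.sum_eq_single j]
    · simp
    · intro b _ hb
      rw [if_neg (fun h => hb h.symm), mul_zero]
    · intro h1
      exact absurd (Finset.mem_range.2 (by omega)) h1
  · rw [Nat.choose_eq_zero_of_lt h]
    simp only [Nat.cast_zero, zero_mul]
    apply Finset.sum_eq_zero
    intro b hb
    rw [if_neg, mul_zero]
    intro h1
    rw [Finset.mem_range] at hb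
    omega

lemma jensen_deriv (d n : ℕ) : derivative (jensen (d + 1) n) =
    C ((d : ℝ) + 1) * jensen d (n + 1) := by
  ext j
  rw [Polynomial.coeff_derivative, Polynomial.coeff_C_mul, jensen_coeff, jensen_coeff]
  have h := Nat.add_one_mul_choose_eq d j
  have h' : ((d : ℝ) + 1) * (d.choose j : ℝ) = ((d + 1).choose (j + 1) : ℝ) * ((j : ℝ) + 1) := by
    exact_mod_cast h
  have e : n + (j + 1) = n + 1 + j := by ring
  rw [e]
  linear_combination (-(gam (n + 1 + j))) * h'

lemma jensen_iter (n : ℕ) : ∀ d m : ℕ, ∃ c : ℝ, c ≠ 0 ∧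
    derivative^[n] (jensen (d + n) m) = C c * jensen d (m + n) := by
  induction n with
  | zero => intro d m; exact ⟨1, one_ne_zero, by simp⟩
  | succ n ih =>
    intro d m
    obtain ⟨c, hc, h⟩ := ih d (m + 1)
    refine ⟨((d + n : ℕ) + 1 : ℝ) * c, mul_ne_zero (by positivity) hc, ?_⟩
    rw [Function.iterate_succ_apply, ← add_assoc, jensen_deriv, Polynomial.iterate_derivative_C_mul, h]
    rw [C_mul, mul_assoc]
    congr 3
    ring

lemma iter_PD_aux (D : ℕ) (P : ℝ[X]) (n : ℕ) :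
    iteratedDeriv n (fun z : ℂ => aeval (z / D) P) =
      fun z : ℂ => (1 / (D : ℂ)) ^ n * aeval (z / D) (derivative^[n] P) := by
  induction n with
  | zero => funext z; simp
  | succ n ih =>
    rw [iteratedDeriv_succ, ih]
    funext z
    have h1 : HasDerivAt (fun z : ℂ => z / D) (1 / (D : ℂ)) z := by
      simpa using (hasDerivAt_id z).div_const (D : ℂ)
    have h2 := (Polynomial.hasDerivAt_aeval (derivative^[n] P) (z / D)).comp z h1
    have h3 := (h2.const_mul ((1 / (D : ℂ)) ^ n)).deriv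
    have h4 : deriv (fun z : ℂ => (1 / (D : ℂ)) ^ n * aeval (z / D) (derivative^[n] P)) z =
      (1 / (D : ℂ)) ^ n * (aeval (z / D) (derivative (derivative^[n] P)) * (1 / (D : ℂ))) := h3
    rw [h4, Function.iterate_succ_apply', pow_succ]
    ring

/-- zeros of the derivatives of `PD` -/
lemma PD_zero {D n : ℕ} (hn : n ≤ D) (hD : 0 < D) (hH : Hyperbolic (jensen (D - n) n)) (z : ℂ)
    (hz : iteratedDeriv n (PD D) z = 0) : z.im = 0 := by
  have h1 := congrFun (iter_PD_aux D (jensen D 0) n) z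
  have h2 : iteratedDeriv n (PD D) z = (1 / (D : ℂ)) ^ n * aeval (z / D) (derivative^[n] (jensen D 0)) := h1
  rw [h2] at hz
  have hD0 : (D : ℂ) ≠ 0 := by exact_mod_cast hD.ne'
  have h3 := (mul_eq_zero.1 hz).resolve_left (pow_ne_zero _ (one_div_ne_zero hD0))
  obtain ⟨c, hc, h4⟩ := jensen_iter n (D - n) 0
  rw [Nat.sub_add_cancel hn, zero_add] at h4
  rw [h4, map_mul, aeval_C] at h3
  have h5 := (mul_eq_zero.1 h3).resolve_left (by
    simpa using hc)
  have h6 := hH _ h5
  have h7 : (z / (D : ℂ)).im = z.im / D := by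
    rw [← Complex.ofReal_natCast, Complex.div_ofReal_im]
  rw [h7] at h6
  have hD1 : (D : ℝ) ≠ 0 := by exact_mod_cast hD.ne'
  exact (div_eq_zero_iff.1 h6).resolve_right hD1

lemma PD_diff (D : ℕ) : Differentiable ℂ (PD D) := by
  unfold PD
  intro z
  have h1 : HasDerivAt (fun z : ℂ => z / D) (1 / (D : ℂ)) z := by
    simpa using (hasDerivAt_id z).div_const (D : ℂ)
  exact ((Polynomial.hasDerivAt_aeval (jensen D 0) (z / D)).comp z h1).differentiableAt

/-- the normalising constant -/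
noncomputable def cD (D : ℕ) : ℝ := (D.factorial : ℝ) * Real.exp D / (2 * Real.pi * (D : ℝ) ^ D)

/-- the weight -/
noncomputable def WD (D : ℕ) (η : ℝ) : ℂ := (cD D : ℂ) * cexp (D * (cexp (I * η) - 1 - I * η))

lemma iter_mul (D : ℕ) (z : ℂ) :
    iteratedDeriv D (fun v => FF (z * v) * cexp (D * v)) 0 = (D : ℂ) ^ D * PD D z := by
  have hF : ContDiff ℂ ⊤ FF := FF_diff.contDiff
  have hf : ContDiff ℂ D (fun v => FF (z * v)) :=
    (FF_diff.comp (differentiable_id.const_mul z)).contDiff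
  have hg : ContDiff ℂ D (fun v => cexp (D * v)) := by
    have : Differentiable ℂ (fun v : ℂ => cexp (D * v)) := by fun_prop
    exact this.contDiff
  have h1 := iteratedDeriv_mul (n := D) (x := (0 : ℂ)) hf.contDiffAt hg.contDiffAt
  have h2 : iteratedDeriv D (fun v => FF (z * v) * cexp (D * v)) 0 =
      iteratedDeriv D ((fun v => FF (z * v)) * fun v => cexp (D * v)) 0 := rfl
  rw [h2, h1]
  unfold PD
  rw [Pool.Agent.H24R2.JP.RHa.aeval_jensen b1, Finset.mul_sum]
  apply Finset.sum_congr rfl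
  intro j hj
  have hj' : j ≤ D := by
    rw [Finset.mem_range] at hj
    omega
  have hfj : ContDiff ℂ j FF := FF_diff.contDiff
  have e1 := congrFun (iteratedDeriv_comp_const_mul hfj z) 0
  have e2 := congrFun (iteratedDeriv_cexp_const_mul (D - j) (D : ℂ)) 0
  rw [e1, e2]
  simp only [mul_zero, Complex.exp_zero, mul_one, zero_add]
  rcases Nat.eq_zero_or_pos D with h0 | h0
  · subst h0
    have : j = 0 := by omega
    subst this
    simp
  · have hD0 : (D : ℂ) ≠ 0 := by exact_mod_cast h0.ne'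
    have e3 : (D : ℂ) ^ D = (D : ℂ) ^ (D - j) * (D : ℂ) ^ j := by
      rw [← pow_add, Nat.sub_add_cancel hj']
    rw [e3, div_pow]
    field_simp

/-- `PD` as an average of `FF`. -/
lemma PD_eq {D : ℕ} (hD : 0 < D) (z : ℂ) :
    PD D z = ∫ η in (-Real.pi)..Real.pi, WD D η * FF (z * cexp (I * η)) := by
  obtain ⟨h, hh⟩ : ∃ h : ℂ → ℂ, h = fun v => FF (z * v) * cexp (D * v) := ⟨_, rfl⟩
  have hd : Differentiable ℂ h := by
    rw [hh]
    exact (FF_diff.comp (differentiable_id.const_mul z)).mul (by fun_prop)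
  have h0 : (0 : ℂ) ∈ Metric.ball (0 : ℂ) 1 := by simp
  have h1 := Pool.Agent.H24R2.JP.ArcAux.cauchy_all 0 0 1 h0 D h hd.differentiableOn
  have h2 := Pool.Agent.H24R2.JP.ArcAux.circ_eq h D 0 1 0
  rw [Complex.ofReal_zero] at h2
  rw [h1] at h2
  have h3 : iteratedDeriv D h 0 = (D : ℂ) ^ D * PD D z := by rw [hh]; exact iter_mul D z
  rw [h3] at h2
  have hD0 : (D : ℂ) ≠ 0 := by exact_mod_cast hD.ne'
  have hfac : (D.factorial : ℂ) ≠ 0 := by exact_mod_cast D.factorial_ne_zero
  have hpi : (Real.pi : ℂ) ≠ 0 := by exact_mod_cast Real.pi_ne_zero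
  have hper : Function.Periodic (Pool.Agent.H24R2.JP.ArcAux.ig h D 0 1 0) (2 * Real.pi) := by
    intro θ
    unfold Pool.Agent.H24R2.JP.ArcAux.ig
    have : cexp (I * ((θ + 2 * Real.pi : ℝ) : ℂ)) = cexp (I * θ) := by
      have e : I * ((θ + 2 * Real.pi : ℝ) : ℂ) = I * θ + 2 * Real.pi * I := by push_cast; ring
      rw [e, Complex.exp_add, Complex.exp_two_pi_mul_I, mul_one]
    rw [this]
  have h4 := hper.intervalIntegral_add_eq 0 (-Real.pi)
  rw [zero_add, show -Real.pi + 2 * Real.pi = Real.pi by ring] at h4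
  rw [h4] at h2
  have h5 : PD D z = (D.factorial : ℂ) / (2 * Real.pi * (D : ℂ) ^ D) *
      ∫ θ in (-Real.pi)..Real.pi, Pool.Agent.H24R2.JP.ArcAux.ig h D 0 1 0 θ := by
    have h6 : I * (∫ θ in (-Real.pi)..Real.pi, Pool.Agent.H24R2.JP.ArcAux.ig h D 0 1 0 θ) =
        I * (2 * Real.pi / (D.factorial : ℂ) * ((D : ℂ) ^ D * PD D z)) := by
      rw [← h2]; ring
    have h7 := mul_left_cancel₀ I_ne_zero h6
    rw [h7]
    have : (D : ℂ) ^ D ≠ 0 := pow_ne_zero _ hD0
    field_simp
  rw [h5, ← intervalIntegral.integral_const_mul]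
  apply intervalIntegral.integral_congr
  intro η _
  simp only
  unfold Pool.Agent.H24R2.JP.ArcAux.ig WD cD
  rw [hh]
  simp only [Complex.ofReal_zero, zero_add, Complex.ofReal_one, one_mul, sub_zero]
  have e1 : cexp ((D : ℂ) * (cexp (I * η) - 1 - I * η)) =
      cexp (D * cexp (I * η)) * cexp (-(D : ℂ)) * (cexp (I * η) ^ D)⁻¹ := by
    rw [← Complex.exp_nat_mul, ← Complex.exp_neg, ← Complex.exp_add, ← Complex.exp_add]
    congr 1
    ring
  have e2 : cexp (I * η) ≠ 0 := Complex.exp_ne_zero _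
  have e3 : ((Real.exp D : ℝ) : ℂ) * cexp (-(D : ℂ)) = 1 := by
    rw [Complex.ofReal_exp, Complex.ofReal_natCast, ← Complex.exp_add, add_neg_cancel, Complex.exp_zero]
  rw [e1, pow_succ]
  push_cast
  rw [Complex.ofReal_exp, Complex.ofReal_natCast] at e3
  have e4 : cexp (I * η) / (cexp (I * η) ^ D * cexp (I * η)) = (cexp (I * η) ^ D)⁻¹ := by
    field_simp
  calc (D.factorial : ℂ) / (2 * Real.pi * (D : ℂ) ^ D) * (FF (z * cexp (I * η)) *
        cexp (D * cexp (I * η)) * cexp (I * η) / (cexp (I * η) ^ D * cexp (I * η)))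
      = (D.factorial : ℂ) / (2 * Real.pi * (D : ℂ) ^ D) * (FF (z * cexp (I * η)) *
        cexp (D * cexp (I * η))) * (cexp (I * η) / (cexp (I * η) ^ D * cexp (I * η))) := by ring
    _ = (D.factorial : ℂ) / (2 * Real.pi * (D : ℂ) ^ D) * (FF (z * cexp (I * η)) *
        cexp (D * cexp (I * η))) * (cexp (I * η) ^ D)⁻¹ := by rw [e4]
    _ = (D.factorial : ℂ) / (2 * Real.pi * (D : ℂ) ^ D) * (FF (z * cexp (I * η)) *
        cexp (D * cexp (I * η))) * (cexp (I * η) ^ D)⁻¹ * (cexp (D : ℂ) * cexp (-(D : ℂ))) := by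
          rw [e3, mul_one]
    _ = _ := by ring

end Pool.Agent.Zk17.J
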