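import Pool.Agent.Zk17.J.PD
import Pool.Agent.H986R2.K4.RG

set_option autoImplicit false

/-!
# Estimates for the weights
-/

namespace Pool.Agent.Zk17.J

open Complex Filter Topology
open Pool.Agent.H24R2.JP (FF gam b1 gamT)

lemma cD_nonneg (D : ℕ) : 0 ≤ cD D := by
  unfold cD
  positivity

lemma cD_le {D : ℕ} (hD : 1 ≤ D) : cD D ≤ Real.exp 1 / (2 * Real.pi) * √D := by
  have hfac : (D.factorial : ℝ) * Real.exp D ≤ Real.exp 1 * √D * (D : ℝ) ^ D := by
    obtain ⟨k, rfl⟩ : ∃ k, D = k + 1 := ⟨D - 1, by omega⟩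
    have h := Stirling.stirlingSeq'_antitone (Nat.zero_le k)
    simp only [Function.comp, Nat.succ_eq_add_one, zero_add, Stirling.stirlingSeq_one] at h
    unfold Stirling.stirlingSeq at h
    obtain ⟨x, hx⟩ : ∃ x : ℝ, x = ((k + 1 : ℕ) : ℝ) := ⟨_, rfl⟩
    rw [← hx] at h ⊢
    have hx1 : (1 : ℝ) ≤ x := by rw [hx]; exact_mod_cast hD
    have hx0 : 0 < x := by linarith
    have hs2 : 0 < Real.sqrt 2 := by positivity
    have hsx : 0 < Real.sqrt x := Real.sqrt_pos.2 hx0
    have e1 : Real.sqrt (2 * x) = Real.sqrt 2 * Real.sqrt x := Real.sqrt_mul (by norm_num) x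
    rw [e1, div_le_div_iff₀ (by positivity) hs2] at h
    have h2 : ((k + 1).factorial : ℝ) ≤ Real.exp 1 * (Real.sqrt x * (x / Real.exp 1) ^ (k + 1)) := by
      have : ((k + 1).factorial : ℝ) * Real.sqrt 2 ≤
          (Real.exp 1 * (Real.sqrt x * (x / Real.exp 1) ^ (k + 1))) * Real.sqrt 2 := by
        calc ((k + 1).factorial : ℝ) * Real.sqrt 2
            ≤ Real.exp 1 * (Real.sqrt 2 * Real.sqrt x * (x / Real.exp 1) ^ (k + 1)) := h
          _ = _ := by ring
      exact le_of_mul_le_mul_right this hs2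
    have h4 : (x / Real.exp 1) ^ (k + 1) * Real.exp x = x ^ (k + 1) := by
      have : Real.exp x = Real.exp 1 ^ (k + 1) := by
        rw [← Real.exp_nat_mul, mul_one, hx]
      rw [this, ← mul_pow, div_mul_cancel₀ _ (Real.exp_pos 1).ne']
    calc ((k + 1).factorial : ℝ) * Real.exp x
        ≤ (Real.exp 1 * (Real.sqrt x * (x / Real.exp 1) ^ (k + 1))) * Real.exp x :=
          mul_le_mul_of_nonneg_right h2 (Real.exp_pos _).le
      _ = Real.exp 1 * Real.sqrt x * ((x / Real.exp 1) ^ (k + 1) * Real.exp x) := by ring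
      _ = Real.exp 1 * Real.sqrt x * x ^ (k + 1) := by rw [h4]
  have hD0 : (0 : ℝ) < D := by exact_mod_cast hD
  have hp : 0 < (D : ℝ) ^ D := by positivity
  unfold cD
  rw [div_le_iff₀ (by positivity)]
  refine hfac.trans (le_of_eq ?_)
  have := Real.pi_pos.ne'
  field_simp

lemma norm_WD (D : ℕ) (η : ℝ) : ‖WD D η‖ = cD D * Real.exp (D * (Real.cos η - 1)) := by
  unfold WD
  rw [norm_mul, Complex.norm_real, Real.norm_of_nonneg (cD_nonneg D), Complex.norm_exp]
  congr 2
  rw [← Complex.ofReal_natCast, Complex.re_ofReal_mul]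
  congr 1
  rw [Complex.sub_re, Complex.sub_re, mul_comm I, Complex.exp_ofReal_mul_I_re]
  simp

lemma norm_WD_le (D : ℕ) {η : ℝ} (hη : |η| ≤ Real.pi) :
    ‖WD D η‖ ≤ cD D * Real.exp (-(D * η ^ 2 / 5)) := by
  rw [norm_WD]
  apply mul_le_mul_of_nonneg_left _ (cD_nonneg D)
  apply Real.exp_le_exp.2
  have h1 := Real.cos_le_one_sub_mul_cos_sq hη
  have h2 : (1 : ℝ) / 5 ≤ 2 / Real.pi ^ 2 := by
    rw [div_le_div_iff₀ (by norm_num) (by positivity)]
    have := Real.pi_lt_d2
    have := Real.pi_pos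
    nlinarith
  have h3 : (0 : ℝ) ≤ D := Nat.cast_nonneg D
  have h4 : Real.cos η - 1 ≤ -(η ^ 2 / 5) := by
    have := mul_le_mul_of_nonneg_right h2 (sq_nonneg η)
    linarith
  have := mul_le_mul_of_nonneg_left h4 h3
  linarith

lemma cont_WD (D : ℕ) : Continuous (WD D) := by
  unfold WD
  fun_prop

lemma int_WD {D : ℕ} (hD : 0 < D) : ∫ η in (-Real.pi)..Real.pi, WD D η = 1 := by
  have h := PD_eq hD 0
  simp only [zero_mul] at h
  rw [intervalIntegral.integral_mul_const] at h
  have h0 : PD D 0 = FF 0 := by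
    have h1 := b1.2.2.2 0
    rw [iteratedDeriv_zero] at h1
    rw [h1]
    unfold PD
    rw [zero_div, ← Polynomial.coeff_zero_eq_aeval_zero']
    rw [jensen_coeff]
    simp
  have h2 : FF 0 ≠ 0 := by
    have h1 := b1.2.2.2 0
    rw [iteratedDeriv_zero] at h1
    rw [h1]
    exact_mod_cast (gamT.1 0).ne'
  rw [h0] at h
  have h3 : FF 0 * (∫ η in (-Real.pi)..Real.pi, WD D η) = FF 0 * 1 := by
    rw [mul_one, mul_comm]; exact h.symm
  exact mul_left_cancel₀ h2 h3

/-- the averaged bound -/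
lemma PD_approx {D : ℕ} (hD : 1 ≤ D) (z A : ℂ) {S E η0 : ℝ} (hS : 0 ≤ S) (hE : 0 ≤ E)
    (h1 : ∀ η : ℝ, |η| ≤ η0 → ‖FF (z * cexp (I * η)) - A‖ ≤ S)
    (h2 : ∀ η : ℝ, η0 ≤ |η| → |η| ≤ Real.pi →
      Real.exp (-(D * η ^ 2 / 5)) * ‖FF (z * cexp (I * η)) - A‖ ≤ E) :
    ‖PD D z - A‖ ≤ 2 * S + 4 * √D * E := by
  have hD0 : (0 : ℝ) < D := by exact_mod_cast hD
  have hcF : Continuous fun η : ℝ => FF (z * cexp (I * η)) :=
    FF_diff.continuous.comp (by fun_prop)
  have e1 : PD D z - A = ∫ η in (-Real.pi)..Real.pi, WD D η * (FF (z * cexp (I * η)) - A) := by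
    have e2 : (∫ η in (-Real.pi)..Real.pi, WD D η * (FF (z * cexp (I * η)) - A)) =
        (∫ η in (-Real.pi)..Real.pi, WD D η * FF (z * cexp (I * η))) -
          ∫ η in (-Real.pi)..Real.pi, WD D η * A := by
      rw [← intervalIntegral.integral_sub]
      · apply intervalIntegral.integral_congr
        intro η _
        simp only
        ring
      · exact ((cont_WD D).mul hcF).intervalIntegrable _ _
      · exact ((cont_WD D).mul continuous_const).intervalIntegrable _ _
    rw [e2, ← PD_eq hD, intervalIntegral.integral_mul_const, int_WD hD, one_mul]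
  have hπ := Real.pi_pos
  have hpt : ∀ η ∈ Set.Icc (-Real.pi) Real.pi, ‖WD D η * (FF (z * cexp (I * η)) - A)‖ ≤
      cD D * (S * Real.exp (-(D / 5) * η ^ 2) + E) := by
    intro η hη
    have hη' : |η| ≤ Real.pi := abs_le.2 hη
    rw [norm_mul]
    have h3 := norm_WD_le D hη'
    have e3 : -(D * η ^ 2 / 5) = -((D : ℝ) / 5) * η ^ 2 := by ring
    rw [e3] at h3
    rcases le_total |η| η0 with h | h
    · calc ‖WD D η‖ * ‖FF (z * cexp (I * η)) - A‖
          ≤ (cD D * Real.exp (-((D : ℝ) / 5) * η ^ 2)) * S :=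
            mul_le_mul h3 (h1 η h) (norm_nonneg _) (mul_nonneg (cD_nonneg D) (Real.exp_pos _).le)
        _ = cD D * (S * Real.exp (-((D : ℝ) / 5) * η ^ 2)) := by ring
        _ ≤ _ := mul_le_mul_of_nonneg_left (by linarith) (cD_nonneg D)
    · have h4 := h2 η h hη'
      rw [e3] at h4
      calc ‖WD D η‖ * ‖FF (z * cexp (I * η)) - A‖
          ≤ (cD D * Real.exp (-((D : ℝ) / 5) * η ^ 2)) * ‖FF (z * cexp (I * η)) - A‖ :=
            mul_le_mul_of_nonneg_right h3 (norm_nonneg _)
        _ = cD D * (Real.exp (-((D : ℝ) / 5) * η ^ 2) * ‖FF (z * cexp (I * η)) - A‖) := by ring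
        _ ≤ _ := by
            apply mul_le_mul_of_nonneg_left _ (cD_nonneg D)
            have : 0 ≤ S * Real.exp (-((D : ℝ) / 5) * η ^ 2) := mul_nonneg hS (Real.exp_pos _).le
            linarith
  rw [e1]
  have hle : -Real.pi ≤ Real.pi := by linarith
  have hgc : Continuous fun η : ℝ => cD D * (S * Real.exp (-((D : ℝ) / 5) * η ^ 2) + E) := by fun_prop
  have h5 := intervalIntegral.norm_integral_le_of_norm_le hle
    (Filter.Eventually.of_forall fun η hη => hpt η (Set.Ioc_subset_Icc_self hη))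
    (hgc.intervalIntegrable (μ := MeasureTheory.volume) (-Real.pi) Real.pi)
  refine h5.trans ?_
  have hga : Continuous fun η : ℝ => S * Real.exp (-((D : ℝ) / 5) * η ^ 2) := by fun_prop
  have hgb : Continuous fun _ : ℝ => E := continuous_const
  rw [intervalIntegral.integral_const_mul, intervalIntegral.integral_add
    (hga.intervalIntegrable _ _) (hgb.intervalIntegrable _ _), intervalIntegral.integral_const_mul,
    intervalIntegral.integral_const, smul_eq_mul]
  have hg : ∫ η in (-Real.pi)..Real.pi, Real.exp (-((D : ℝ) / 5) * η ^ 2) ≤ √(Real.pi / (D / 5)) := by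
    rw [intervalIntegral.integral_of_le hle, ← integral_gaussian (D / 5)]
    apply MeasureTheory.setIntegral_le_integral (integrable_exp_neg_mul_sq (b := (D : ℝ) / 5) (by positivity))
    exact Filter.Eventually.of_forall fun η => (Real.exp_pos _).le
  have hs : √(Real.pi / (D / 5)) = √(5 * Real.pi) / √D := by
    rw [← Real.sqrt_div' _ hD0.le]
    congr 1
    field_simp
  have hsD : 0 < √(D : ℝ) := Real.sqrt_pos.2 hD0
  have hs5 : √(5 * Real.pi) ≤ 4 := by
    rw [Real.sqrt_le_left (by norm_num)]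
    have := Real.pi_lt_d2
    linarith
  have hc := cD_le hD
  have he := Real.exp_one_lt_d9
  have hpi3 := Real.pi_gt_three
  have hk : Real.exp 1 / (2 * Real.pi) ≤ 1 / 2 := by
    rw [div_le_iff₀ (by positivity)]
    linarith
  have hc2 : cD D ≤ 1 / 2 * √D := hc.trans (mul_le_mul_of_nonneg_right hk hsD.le)
  have hc0 := cD_nonneg D
  have h6 : cD D * (S * ∫ η in (-Real.pi)..Real.pi, Real.exp (-((D : ℝ) / 5) * η ^ 2)) ≤ 2 * S := by
    calc cD D * (S * ∫ η in (-Real.pi)..Real.pi, Real.exp (-((D : ℝ) / 5) * η ^ 2))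
        ≤ (1 / 2 * √D) * (S * (4 / √D)) := by
          apply mul_le_mul hc2 _ _ (by positivity)
          · apply mul_le_mul_of_nonneg_left _ hS
            refine hg.trans ?_
            rw [hs]
            exact div_le_div_of_nonneg_right hs5 hsD.le
          · apply mul_nonneg hS
            apply intervalIntegral.integral_nonneg hle
            intro η _
            exact (Real.exp_pos _).le
      _ = 2 * S := by field_simp; ring
  have h7 : cD D * ((Real.pi - -Real.pi) * E) ≤ 4 * √D * E := by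
    have h8 : (Real.pi - -Real.pi) * E ≤ 8 * E := by
      apply mul_le_mul_of_nonneg_right _ hE
      have := Real.pi_lt_d2
      linarith
    calc cD D * ((Real.pi - -Real.pi) * E) ≤ (1 / 2 * √D) * (8 * E) := by
          apply mul_le_mul hc2 h8 _ (by positivity)
          apply mul_nonneg _ hE
          linarith
      _ = 4 * √D * E := by ring
  rw [mul_add]
  linarith

end Pool.Agent.Zk17.J
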